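import Mathlib

set_option autoImplicit false

/-!
# Squad REV (MP_bbfd73_gt, bodies of revolution): zonal densities in sphere coordinates

A zonal density is `f (|t|)`, `t = <v, e>`, `f` on `[0,1]`.  For `v` at height `t`, `c = sqrt (1-t^2)`,
the points of the unit sphere of `v^perp` have the height `r c`, `r = <w, u>` (`u` = meridian direction of
`v^perp`).  `RA`, `RB` are the eigenvalues (up to constants) of `int w w^T f(w) dw` over this sphere: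
`RA` with multiplicity `n - 2`, `RB` in the direction `u`.
-/

namespace Pool.Agent.REV

open Set

/-- `int_0^1 (1-r^2)^((n-2)/2) f(r c) dr` -/
noncomputable def RA (n : ℕ) (f : ℝ → ℝ) (c : ℝ) : ℝ :=
  ∫ r in (0 : ℝ)..1, (1 - r ^ 2) ^ (((n : ℝ) - 2) / 2) * f (r * c)

/-- `int_0^1 r^2 (1-r^2)^((n-4)/2) f(r c) dr` -/
noncomputable def RB (n : ℕ) (f : ℝ → ℝ) (c : ℝ) : ℝ :=
  ∫ r in (0 : ℝ)..1, r ^ 2 * (1 - r ^ 2) ^ (((n : ℝ) - 4) / 2) * f (r * c)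

/-- the step on zonal densities (`C1`, `C2 > 0` depend on `n`, `i` only) -/
noncomputable def TT (n i : ℕ) (C1 C2 : ℝ) (f : ℝ → ℝ) (t : ℝ) : ℝ :=
  C1 * RA n f (Real.sqrt (1 - t ^ 2)) ^ i +
    C2 * (RB n f (Real.sqrt (1 - t ^ 2)) * RA n f (Real.sqrt (1 - t ^ 2)) ^ (i - 1))

/-- `(1 + (g-1) t^2)^((n+1)/2) f(t)`: the quotient of `f` and the density of the ellipsoid of
parameter `g > 0` -/
noncomputable def El (n : ℕ) (g : ℝ) (f : ℝ → ℝ) (t : ℝ) : ℝ :=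
  (1 + (g - 1) * t ^ 2) ^ (((n : ℝ) + 1) / 2) * f t

/-- comparison from below with the ellipsoid of parameter `a` -/
def Low (n : ℕ) (a : ℝ) (f : ℝ → ℝ) : Prop := MonotoneOn (El n a f) (Icc 0 1)

/-- comparison from above with the ellipsoid of parameter `b` -/
def Upp (n : ℕ) (b : ℝ) (f : ℝ → ℝ) : Prop := AntitoneOn (El n b f) (Icc 0 1)

/-- both comparisons, `A ≥ 0` -/
def Pinch (n : ℕ) (A : ℝ) (f : ℝ → ℝ) : Prop := Low n (1 + A) f ∧ Upp n (1 / (1 + A)) f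

/-- `tau (rho, c) = rho c / sqrt (1 + (g-1) c^2 (1-rho^2))` -/
noncomputable def ta (g c ρ : ℝ) : ℝ := ρ * c / Real.sqrt (1 + (g - 1) * c ^ 2 * (1 - ρ ^ 2))

/-- `RA` after the change of variables -/
noncomputable def RA' (n : ℕ) (g : ℝ) (f : ℝ → ℝ) (c : ℝ) : ℝ :=
  ∫ ρ in (0 : ℝ)..1, (1 - ρ ^ 2) ^ (((n : ℝ) - 2) / 2) * El n g f (ta g c ρ)

/-- `RB` after the change of variables -/
noncomputable def RB' (n : ℕ) (g : ℝ) (f : ℝ → ℝ) (c : ℝ) : ℝ :=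
  ∫ ρ in (0 : ℝ)..1, ρ ^ 2 * (1 - ρ ^ 2) ^ (((n : ℝ) - 4) / 2) * El n g f (ta g c ρ)

end Pool.Agent.REV
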