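import Pool.Agent.BPH.Stmts
import Pool.Agent.REV.DefsS

set_option autoImplicit false

/-!
# Squad REV: interfaces between the parts G (geometry), A (analysis), F (assembly)

`n = finrank ℝ E`.  A zonal density is `zon e f` with `f : ℝ → ℝ`, of which only the values on `[0,1]`
are used; `e` is a unit vector.
-/

open MeasureTheory Module Set Filter
open scoped RealInnerProductSpace Pointwise Topology ENNReal

namespace Pool.Agent.REV

open Pool.Agent.Helper55_PB Pool.Agent.Helper28_PB Pool.Agent.BPH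

/-- the zonal function with the axis `e` and the profile `f` -/
noncomputable def zon {E : Type} [NormedAddCommGroup E] [InnerProductSpace ℝ E] (e : E)
    (f : ℝ → ℝ) (x : E) : ℝ := f (min |⟪e, x⟫| 1)

/-- `K` is invariant under all linear isometries which fix `e` -/
def RevB {E : Type} [NormedAddCommGroup E] [InnerProductSpace ℝ E] (e : E) (K : Set E) : Prop :=
  ∀ T : E ≃ₗᵢ[ℝ] E, T e = e → T '' K = K

/-- `K` is within the ratio `e^{±δ}` of `t` times the zonoid of `f` -/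
def Nr {E : Type} [NormedAddCommGroup E] [InnerProductSpace ℝ E] [FiniteDimensional ℝ E]
    [MeasurableSpace E] [BorelSpace E] (K : Set E) (f : E → ℝ) (t δ : ℝ) : Prop :=
  ∀ w : E, Real.exp (-δ) * (t * hz f w) ≤ supportFn K w ∧
    supportFn K w ≤ Real.exp δ * (t * hz f w)

/-- (LAW) law of the height on the unit sphere of `E`, `k = finrank ℝ E ≥ 3` (part G). -/
def LawStmt : Prop :=
  ∀ {E : Type} [NormedAddCommGroup E] [InnerProductSpace ℝ E] [FiniteDimensional ℝ E]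
    [MeasurableSpace E] [BorelSpace E], 3 ≤ finrank ℝ E → ∃ κ : ℝ, 0 < κ ∧
    ∀ e : E, ‖e‖ = 1 → ∀ f : ℝ → ℝ, Measurable (zon e f) → (∃ C, ∀ r ∈ Icc (0 : ℝ) 1, |f r| ≤ C) →
      ∫ x, zon e f x ∂sph E =
        κ * ∫ r in (0 : ℝ)..1, (1 - r ^ 2) ^ (((finrank ℝ E : ℝ) - 3) / 2) * f r

/-- (G1) a zonal start density (part G). -/
def G1Stmt : Prop :=
  ∀ {E : Type} [NormedAddCommGroup E] [InnerProductSpace ℝ E] [FiniteDimensional ℝ E]
    [MeasurableSpace E] [BorelSpace E] [Nontrivial E] (K : Set E), CC K →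
    (0 : E) ∈ interior K → ZApp (supportFn K) → ∀ e : E, ‖e‖ = 1 → RevB e K →
    (∀ w : E, supportFn K (-w) = supportFn K w) →
    ∀ δ : ℝ, 0 < δ → δ ≤ 1 → ∃ (f : ℝ → ℝ) (t : ℝ), Dens (zon e f) ∧ 0 < t ∧ Nr K (zon e f) t δ

/-- (G2) the step on zonal densities (part G). -/
def G2Stmt : Prop :=
  ∀ {E : Type} [NormedAddCommGroup E] [InnerProductSpace ℝ E] [FiniteDimensional ℝ E]
    [MeasurableSpace E] [BorelSpace E] (i : ℕ), 1 ≤ i → i + 1 ≤ finrank ℝ E → 4 ≤ finrank ℝ E →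
    ∃ C1 C2 : ℝ, 0 ≤ C1 ∧ 0 < C2 ∧ (i + 2 ≤ finrank ℝ E → 0 < C1) ∧
    ∀ e : E, ‖e‖ = 1 → ∀ f : ℝ → ℝ, Dens (zon e f) →
      Dens (zon e fun t => (ZZ i (zon e f))⁻¹ * TT (finrank ℝ E) i C1 C2 f t) ∧
      IsStep i (zon e f) (zon e fun t => (ZZ i (zon e f))⁻¹ * TT (finrank ℝ E) i C1 C2 f t)

/-- (A2) uniform bounds: after `s₀` steps the density is between two ellipsoids, with a uniform
parameter `A` (part A). `c` is a lower bound of the scaling factors and of the two moments. -/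
def A2Stmt : Prop :=
  ∀ (n i : ℕ) (C1 C2 c : ℝ), 4 ≤ n → 1 ≤ i → i + 2 ≤ n → 0 < C1 → 0 < C2 → 0 < c →
    ∃ (s₀ : ℕ) (A : ℝ), 0 ≤ A ∧ ∀ (F : ℕ → ℝ → ℝ) (s : ℕ → ℝ),
      (∀ m ≤ s₀, c ≤ s m ∧ s m ≤ 1 / c) →
      (∀ m ≤ s₀, Measurable (fun r : ℝ => F m (min |r| 1)) ∧ (∀ r ∈ Icc (0 : ℝ) 1, 0 ≤ F m r) ∧
        ∃ C, ∀ r ∈ Icc (0 : ℝ) 1, F m r ≤ C) →
      (∀ m ≤ s₀, ∫ r in (0 : ℝ)..1, (1 - r ^ 2) ^ (((n : ℝ) - 3) / 2) * F m r ≤ 1 / c) →
      (∀ m ≤ s₀, c ≤ ∫ r in (0 : ℝ)..1, (1 - r ^ 2) ^ (((n : ℝ) - 3) / 2) * (r * F m r)) →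
      (∀ m ≤ s₀, c ≤ ∫ r in (0 : ℝ)..1,
        (1 - r ^ 2) ^ (((n : ℝ) - 3) / 2) * (Real.sqrt (1 - r ^ 2) * F m r)) →
      (∀ m < s₀, ∀ t ∈ Icc (0 : ℝ) 1, F (m + 1) t = s m * TT n i C1 C2 (F m) t) →
      Pinch n A (F s₀)

end Pool.Agent.REV
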