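import Pool.Agent.REV.DefsS

set_option autoImplicit false

/-!
# Squad REV, part A1: the comparison step and the contraction (one variable)

`lam = (i+2)/(n+1)`.  All rows are elementary.  `c`, `t`, `ρ` are in `[0,1]`, `g > 0`,
`q = 1 + (g-1) c^2 > 0`, `D ρ = 1 + (g-1) c^2 (1-ρ^2) > 0` (`D ρ ≥ min 1 g`).
-/

namespace Pool.Agent.REV

open Set

/-- TAU (easy). Proof. `D ρ ≥ min 1 g > 0`.  `ta` is `≥ 0`; `ta^2 = ρ^2 c^2 / D`, and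
`1 - ta^2 = (D - ρ^2 c^2)/D` with `D - ρ^2 c^2 = 1 - c^2 + g c^2 (1-ρ^2) ≥ 0`, so `ta ≤ 1`.  Monotone in `c`:
for `c ≤ c'`: `c^2 D(c') - c'^2 D(c) = c^2 - c'^2 ≤ 0`, so `ta(c)^2 ≤ ta(c')^2`.  Monotone in `ρ`:
`ρ^2 D(ρ') - ρ'^2 D(ρ) = (ρ^2 - ρ'^2) (1 + (g-1) c^2) ≤ 0` for `ρ ≤ ρ'`. -/
def TauStmt : Prop :=
  ∀ g : ℝ, 0 < g →
    (∀ c ρ : ℝ, 0 ≤ c → c ≤ 1 → 0 ≤ ρ → ρ ≤ 1 →
      0 < 1 + (g - 1) * c ^ 2 * (1 - ρ ^ 2) ∧ 0 < 1 + (g - 1) * c ^ 2 ∧ ta g c ρ ∈ Icc (0 : ℝ) 1) ∧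
    (∀ c c' ρ : ℝ, 0 ≤ c → c ≤ c' → c' ≤ 1 → 0 ≤ ρ → ρ ≤ 1 → ta g c ρ ≤ ta g c' ρ) ∧
    (∀ c ρ ρ' : ℝ, 0 ≤ c → c ≤ 1 → 0 ≤ ρ → ρ ≤ ρ' → ρ' ≤ 1 → ta g c ρ ≤ ta g c ρ')

/-- CHV (medium). The change of variables, for an ARBITRARY function `F`.  Proof. The map
`r ρ = ρ / sqrt (D ρ)` is strictly increasing on `[0,1]` with `r 0 = 0`, `r 1 = 1` (`D 1 = 1`), continuous,
derivative `q (D ρ)^(-3/2)` (`(ρ D^(-1/2))' = D^(-3/2) (D - ρ D'/2)`, `D' = -2 (g-1) c^2 ρ`,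
`D + (g-1) c^2 ρ^2 = q`), so it maps `Ioo 0 1` onto `Ioo 0 1`.  Use
`MeasureTheory.integral_image_eq_integral_abs_deriv_smul` (no hypothesis on the integrand). -/
def ChvStmt : Prop :=
  ∀ g c : ℝ, 0 < g → 0 ≤ c → c ≤ 1 → ∀ F : ℝ → ℝ,
    ∫ r in (0 : ℝ)..1, F r =
      ∫ ρ in (0 : ℝ)..1, (1 + (g - 1) * c ^ 2) *
        (1 + (g - 1) * c ^ 2 * (1 - ρ ^ 2)) ^ (-(3 / 2) : ℝ) *
        F (ρ / Real.sqrt (1 + (g - 1) * c ^ 2 * (1 - ρ ^ 2)))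

/-- CVA (easy-medium, uses CHV, TAU). Proof. CHV for `F r = (1-r^2)^((n-2)/2) f (r c)`; `r = ρ/sqrt D`:
`r c = ta`, `1 - r^2 = q (1-ρ^2)/D`, `1 + (g-1) ta^2 = q/D`, so `f (ta) = (q/D)^(-(n+1)/2) El`; the exponents:
`q`: `1 + (n-2)/2 - (n+1)/2 = -1/2`, `D`: `-3/2 - (n-2)/2 + (n+1)/2 = 0`.  (`Real.mul_rpow`,
`Real.div_rpow`, `Real.rpow_add`; pointwise for `ρ` in `Ioo 0 1`.) -/
def CvaStmt : Prop :=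
  ∀ (n : ℕ) (g c : ℝ) (f : ℝ → ℝ), 4 ≤ n → 0 < g → 0 ≤ c → c ≤ 1 →
    RA n f c = (1 + (g - 1) * c ^ 2) ^ (-(1 / 2) : ℝ) * RA' n g f c

/-- CVB (easy-medium, uses CHV, TAU). Proof. As CVA with `r^2 = ρ^2/D` and the exponent `(n-4)/2`:
`q`: `1 + (n-4)/2 - (n+1)/2 = -3/2`, `D`: `-3/2 - 1 - (n-4)/2 + (n+1)/2 = 0`. -/
def CvbStmt : Prop :=
  ∀ (n : ℕ) (g c : ℝ) (f : ℝ → ℝ), 4 ≤ n → 0 < g → 0 ≤ c → c ≤ 1 →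
    RB n f c = (1 + (g - 1) * c ^ 2) ^ (-(3 / 2) : ℝ) * RB' n g f c

/-- MRA (easy-medium, uses TAU). Proof. `El n g f` monotone (antitone) on `[0,1]`, so
`ρ -> El (ta g c ρ)` is monotone (antitone) on `[0,1]` (TAU), so it is interval integrable, and so are the
two integrands (product with a continuous function, exponents `≥ 0` because `n ≥ 4`); compare them
pointwise (`intervalIntegral.integral_mono_on`), `ta` monotone in `c`.  Nonnegative: `f ≥ 0` on `[0,1]` and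
`1 + (g-1) τ^2 ≥ 0`. -/
def MraStmt : Prop :=
  ∀ (n : ℕ) (g : ℝ) (f : ℝ → ℝ), 4 ≤ n → 0 < g → (∀ t ∈ Icc (0 : ℝ) 1, 0 ≤ f t) →
    (∀ c ∈ Icc (0 : ℝ) 1, 0 ≤ RA' n g f c ∧ 0 ≤ RB' n g f c) ∧
    (Low n g f → MonotoneOn (RA' n g f) (Icc 0 1) ∧ MonotoneOn (RB' n g f) (Icc 0 1)) ∧
    (Upp n g f → AntitoneOn (RA' n g f) (Icc 0 1) ∧ AntitoneOn (RB' n g f) (Icc 0 1))

/-- LWA (easy-medium). Proof. `N = (n+1)/2`, `k = (i+2)/2`, `lam = k/N ≤ 1`, `b = 1/(1+lam d)`, `β = 1 - b`.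
`W x = (1-β x)^N (1 + d (1-x))^(-k) = exp (N log (1-β x) - k log (1 + d (1-x)))`; the derivative of the
exponent is `-N β/(1-β x) + k d/(1 + d (1-x))`, which is `≤ 0` iff `β (1 + d (1-x)) ≥ lam d (1 - β x)`; both
sides are affine in `x`; `x = 1`: `β ≥ lam d (1-β)`, equality; `x = 0`: `β (1+d) ≥ lam d`, true because
`β = lam d/(1+lam d)` and `1 + d ≥ 1 + lam d`. -/
def LwaStmt : Prop :=
  ∀ (n i : ℕ) (d : ℝ), i + 1 ≤ n → 0 ≤ d →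
    AntitoneOn (fun x : ℝ => (1 + (1 / (1 + ((i : ℝ) + 2) / ((n : ℝ) + 1) * d) - 1) * x) ^
      (((n : ℝ) + 1) / 2) * (1 + d * (1 - x)) ^ (-(((i : ℝ) + 2) / 2))) (Icc 0 1)

/-- LWB (easy-medium). Proof. `e ≥ 0`, `b = 1/(1+e)`, `lam = (i+2)/(n+1) ≤ 1`.
`W x = (1 + lam e x)^((n+1)/2) (b + (1-b) x)^(-(i+2)/2)`: the derivative of the logarithm is `≥ 0` iff
`lam e (b + (1-b) x) ≥ lam (1-b) (1 + lam e x)`; `1 - b = e b`: `x = 0`: equality; `x = 1`: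
`lam e ≥ lam e b (1 + lam e)`, true because `b (1 + lam e) ≤ 1`. -/
def LwbStmt : Prop :=
  ∀ (n i : ℕ) (e : ℝ), i + 1 ≤ n → 0 ≤ e →
    MonotoneOn (fun x : ℝ => (1 + ((i : ℝ) + 2) / ((n : ℝ) + 1) * e * x) ^
      (((n : ℝ) + 1) / 2) * (1 / (1 + e) + (1 - 1 / (1 + e)) * x) ^ (-(((i : ℝ) + 2) / 2))) (Icc 0 1)

/-- STA (medium, uses CVA, CVB, MRA, LWA). Proof. `g = 1 + d`, `c^2 = 1 - t^2`,
`q = 1 + d (1 - t^2)`.  By CVA, CVB: `TT f t = C1 q^(-i/2) RA'^i + C2 q^(-(i+2)/2) RB' RA'^(i-1)`.  Multiply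
by `(1 + (b'-1) t^2)^((n+1)/2)`: with `W` of LWA at `x = t^2` the result is
`C1 (W * q) RA'^i + C2 W RB' RA'^(i-1)`; `W`, `q`, `RA' (sqrt (1-t^2))`, `RB' (sqrt (1-t^2))` are nonnegative
and nonincreasing in `t` (MRA: nondecreasing in `c`). -/
def StaStmt : Prop :=
  ∀ (n i : ℕ) (C1 C2 d : ℝ) (f : ℝ → ℝ), 4 ≤ n → 1 ≤ i → i + 1 ≤ n → 0 ≤ C1 → 0 ≤ C2 → 0 ≤ d →
    (∀ t ∈ Icc (0 : ℝ) 1, 0 ≤ f t) → Low n (1 + d) f →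
      Upp n (1 / (1 + ((i : ℝ) + 2) / ((n : ℝ) + 1) * d)) (TT n i C1 C2 f)

/-- STB (medium, uses CVA, CVB, MRA, LWB). Proof. The same with `g = 1/(1+e)`,
`q = g + (1-g) t^2`; now `W`, `q`, `RA'`, `RB'` are nonnegative and nondecreasing in `t`. -/
def StbStmt : Prop :=
  ∀ (n i : ℕ) (C1 C2 e : ℝ) (f : ℝ → ℝ), 4 ≤ n → 1 ≤ i → i + 1 ≤ n → 0 ≤ C1 → 0 ≤ C2 → 0 ≤ e →
    (∀ t ∈ Icc (0 : ℝ) 1, 0 ≤ f t) → Upp n (1 / (1 + e)) f →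
      Low n (1 + ((i : ℝ) + 2) / ((n : ℝ) + 1) * e) (TT n i C1 C2 f)

/-- CON (easy, uses STA, STB). Contraction. -/
def ConStmt : Prop :=
  ∀ (n i : ℕ) (C1 C2 A : ℝ) (f : ℝ → ℝ), 4 ≤ n → 1 ≤ i → i + 1 ≤ n → 0 ≤ C1 → 0 ≤ C2 → 0 ≤ A →
    (∀ t ∈ Icc (0 : ℝ) 1, 0 ≤ f t) → Pinch n A f →
      Pinch n (((i : ℝ) + 2) / ((n : ℝ) + 1) * A) (TT n i C1 C2 f)

/-- SCA (easy). Scaling and weakening.  Proof. `El n g (s f) = s El n g f`.  Weakening: for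
`A ≤ B`: `El (1+B) f = ((1 + B t^2)/(1 + A t^2))^((n+1)/2) El (1+A) f`, the quotient is nondecreasing in `t`
and `≥ 0`; the same for `Upp` (`(1 + (b-1) t^2)/(1 + (a-1) t^2)` is nonincreasing for `b ≤ a`). -/
def ScaStmt : Prop :=
  (∀ (n : ℕ) (A s : ℝ) (f : ℝ → ℝ), 0 ≤ s → Pinch n A f → Pinch n A (fun t => s * f t)) ∧
  (∀ (n : ℕ) (A B : ℝ) (f : ℝ → ℝ), 0 ≤ A → A ≤ B → (∀ t ∈ Icc (0 : ℝ) 1, 0 ≤ f t) →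
    Pinch n A f → Pinch n B f)

/-- BND (easy). Proof. `Low`: `f 0 = El (1+A) f 0 ≤ El (1+A) f t = (1 + A t^2)^((n+1)/2) f t` and
`(1 + A t^2)^((n+1)/2) ≤ (1+A)^((n+1)/2)`.  `Upp`, `b = 1/(1+A)`: `(1 + (b-1) t^2)^((n+1)/2) f t ≤ f 0` and
`1 + (b-1) t^2 ≥ b`, `b^((n+1)/2) = (1+A)^(-(n+1)/2)`. -/
def BndStmt : Prop :=
  ∀ (n : ℕ) (A : ℝ) (f : ℝ → ℝ), 0 ≤ A → (∀ t ∈ Icc (0 : ℝ) 1, 0 ≤ f t) → Pinch n A f →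
    ∀ t ∈ Icc (0 : ℝ) 1, f 0 ≤ (1 + A) ^ (((n : ℝ) + 1) / 2) * f t ∧
      f t ≤ (1 + A) ^ (((n : ℝ) + 1) / 2) * f 0

/-- ITR (easy, uses CON, SCA, BND). Iteration: `F (m+1) = s_m TT (F m)` on `[0,1]`, `s_m ≥ 0`; then
`Pinch (lam^m A) (F m)`, and `F m` is constant up to the factor `(1 + lam^m A)^((n+1)/2)`, which tends to
`1` if `i + 2 ≤ n` (`lam = (i+2)/(n+1) < 1`).  (`Pinch`, `RA`, `RB` only see the values on `[0,1]`: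
`r c ∈ [0,1]`; `TT f ≥ 0`.) -/
def ItrStmt : Prop :=
  ∀ (n i : ℕ) (C1 C2 A : ℝ) (s : ℕ → ℝ) (F : ℕ → ℝ → ℝ), 4 ≤ n → 1 ≤ i → i + 2 ≤ n → 0 ≤ C1 → 0 ≤ C2 →
    0 ≤ A → (∀ m, 0 ≤ s m) → (∀ t ∈ Icc (0 : ℝ) 1, 0 ≤ F 0 t) →
    (∀ m, ∀ t ∈ Icc (0 : ℝ) 1, F (m + 1) t = s m * TT n i C1 C2 (F m) t) → Pinch n A (F 0) →
    ∀ ε : ℝ, 0 < ε → ∃ M, ∀ m ≥ M, ∀ t ∈ Icc (0 : ℝ) 1,
      F m 0 ≤ (1 + ε) * F m t ∧ F m t ≤ (1 + ε) * F m 0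

end Pool.Agent.REV
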