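import Pool.Agent.REV.StmtsV

set_option autoImplicit false

/-!
# Squad REV, part V3: the one variable theorem for `n = 3`, `i = 2`

The same as part V with `m = 1/2`: weights `(1-r^2)^(1/2)` and `(1-r^2)^(-1/2)` (integrable, not bounded).
Rows with the suffix 3 are copies of the PROVED rows of part V (table rev, ord 601-621, column path) with the small
changes named in the docstring.  New are only YD3, RC3, EQ3, HP3, GA3, TR3, LL3.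
`((3 : ℕ) : ℝ)` should be simplified with `norm_num` / `push_cast` first; `3 - 1 = 2`, `3 - 2 = 1` by `rfl`.
For `s > 1/b`: `psd 3 b s = wb^(1/2) + (bs)^(-2) wb^(-1/2) = s / √(s^2 - b^(-2))`.
-/

namespace Pool.Agent.REV

open Set MeasureTheory Filter
open scoped Topology

/-! ### One density, one step -/

/-- RC3 (easy-medium; uses CrcStmt).  `RB 3 f` is continuous at `c > 0`.  Proof.  `F c = c^3 RB 3 f c =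
∫_0^c s^2 (1-s^2/c^2)^(-1/2) f s ds` (substitution `s = r c`).  For `0 < c ≤ u`, `|f| ≤ M`:
`|F u - F c| ≤ M (∫_c^u s^2 (1-s^2/u^2)^(-1/2) + ∫_0^c s^2 ((1-s^2/c^2)^(-1/2) - (1-s^2/u^2)^(-1/2)))`, the second
integral is `κ c^3 - κ u^3 + ∫_c^u s^2 (1-s^2/u^2)^(-1/2)` with `κ = ∫_0^1 r^2 (1-r^2)^(-1/2)`, so
`|F u - F c| ≤ 2 M u^3 ∫_(c/u)^1 (1-r^2)^(-1/2) dr → 0` (the integral of an integrable function over a shrinking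
interval; `intervalIntegral.continuous_primitive`).  (Use the integral over `[0,1]` in `r`; `c ≤ 1` is not needed.) -/
def Rc3Stmt : Prop :=
  ∀ (f : ℝ → ℝ) (c : ℝ), Measurable f → (∃ C, ∀ t, |f t| ≤ C) → 0 < c → ContinuousAt (RB 3 f) c

/-- YD3 (medium; uses RC3).  `(c RA)' = RB`.  Proof.  For `0 < c ≤ u`: `u RA u - c RA c = ∫_c^u RB v dv`: with
`K(v,s) = √(max 0 (1-s^2/v^2))`, `v RA v = ∫_(s>0) K(v,s) f s`, and for fixed `s`: `∫_c^u k(v,s) dv = K(u,s) - K(c,s)`,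
`k(v,s) = (s^2/v^3) (1-s^2/v^2)^(-1/2) 1_(s<v) ≥ 0` (`K` is continuous in `v`, differentiable for `v ≠ s` with
nonnegative derivative: `intervalIntegral.integral_eq_sub_of_hasDerivAt_of_le` on `[max c s, u]`); Fubini
(`|f| ≤ M`, `k ≥ 0`, total integral finite), `∫_(s) k(v,s) f s ds = RB v`.  Then RC3 and
`intervalIntegral.integral_hasDerivAt_right` (and the same from the left). -/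
def Yd3Stmt : Prop :=
  ∀ (f : ℝ → ℝ) (c : ℝ), Measurable f → (∃ C, ∀ t, |f t| ≤ C) → 0 < c →
    HasDerivAt (fun u => u * RA 3 f u) (RB 3 f c) c

/-- VD3 (easy-medium; uses YD3, RC3).  Copy of VDR. -/
def Vd3Stmt : Prop :=
  ∀ f : ℝ → ℝ, Prf f →
    (∀ b : ℝ, 0 < b → HasDerivAt (yb 3 f) (1 / b ^ 3 * zb 3 f b) b ∧
      HasDerivAt (ph 3 f) (dph 3 f b) b ∧ 0 ≤ zb 3 f b ∧ 0 ≤ dph 3 f b) ∧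
    ContinuousOn (zb 3 f) (Ioi 0) ∧ ContinuousOn (dph 3 f) (Ioi 0)

/-- VM3 (easy-medium; uses VD3, YD3).  Copy of VLM; in addition `zb ≤ M` (`f ≤ M`,
`RB ≤ M ∫_0^1 r^2 (1-r^2)^(-1/2) ≤ M`, the last integral is `π/4`; or: `r^2 (1-r^2)^(-1/2) ≤ (1-r)^(-1/2)/1`,
integral `≤ 2`, then `zb ≤ 2 M`; any constant will do). -/
def Vm3Stmt : Prop :=
  ∀ f : ℝ → ℝ, Prf f →
    MonotoneOn (yb 3 f) (Ici 0) ∧ ContinuousOn (yb 3 f) (Ici 0) ∧ 0 ≤ RA 3 f 1 ∧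
    (∀ b : ℝ, 0 ≤ b → 0 ≤ yb 3 f b ∧ yb 3 f b ≤ RA 3 f 1) ∧
    (∃ M : ℝ, 0 ≤ M ∧ ∀ b : ℝ, 0 ≤ b → yb 3 f b ≤ M * b ∧ yb 3 f b ≤ M ∧ zb 3 f b ≤ M) ∧
    Tendsto (yb 3 f) atTop (𝓝 (RA 3 f 1)) ∧
    IntegrableOn (dph 3 f) (Ioi 0) ∧ ∫ β in Ioi (0 : ℝ), dph 3 f β = RA 3 f 1 ^ 2 ∧
    ∀ B : ℝ, 0 ≤ B → ∫ β in Ioi B, dph 3 f β = RA 3 f 1 ^ 2 - ph 3 f B

/-- VN3 (medium; uses CrcStmt, VD3, VM3).  Copy of VNE (CRC holds for every `n`).  `dph 3 f β = 2 yb zb β^(-3) ≤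
2 M^2 β^(-3)`.  The second integrand has the factor `wb^(-1/2)`, integrable near `β = 1/b` (on `(1/b, 2/b)`:
`wb b β ≥ (bβ - 1)/(bβ) ≥ (bβ-1)/2`). -/
def Vn3Stmt : Prop :=
  ∀ (C σ : ℝ) (f f' : ℝ → ℝ), 0 ≤ C → 0 ≤ σ → Prf f → Prf f' → StU 3 C σ f f' →
    (∀ b : ℝ, 0 < b →
      IntegrableOn (fun β : ℝ => wb b β ^ (1 / 2 : ℝ) * (β * dph 3 f β)) (Ioi (1 / b)) ∧
      yb 3 f' b = σ * c3 3 C * ∫ β in Ioi (1 / b), wb b β ^ (1 / 2 : ℝ) * (β * dph 3 f β) ∧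
      IntegrableOn (fun β : ℝ => wb b β ^ (-(1 / 2) : ℝ) * (β⁻¹ * dph 3 f β)) (Ioi (1 / b)) ∧
      zb 3 f' b = σ * c3 3 C *
        ∫ β in Ioi (1 / b), wb b β ^ (-(1 / 2) : ℝ) * (β⁻¹ * dph 3 f β)) ∧
    H0 3 f' = σ * c3 3 C * RA 3 f 1 ^ 2

/-- VT3 (easy-medium; uses VD3, VM3, VN3).  Copy of VTA. -/
def Vt3Stmt : Prop :=
  ∀ (C σ : ℝ) (f f' : ℝ → ℝ), 0 < C → 0 < σ → Prf f → Prf f' → StU 3 C σ f f' →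
    ∀ B : ℝ, 0 < B →
      IntegrableOn (fun β : ℝ => β * dph 3 f β) (Ioi B) ∧
      σ * c3 3 C * ∫ β in Ioi B, β * dph 3 f β ≤ (4 / 3) ^ (1 / 2 : ℝ) * yb 3 f' (2 / B) ∧
      IntegrableOn (fun s : ℝ => RA 3 f 1 ^ 2 - ph 3 f s) (Ioi B) ∧
      σ * c3 3 C * ∫ s in Ioi B, (RA 3 f 1 ^ 2 - ph 3 f s) ≤
        (4 / 3) ^ (1 / 2 : ℝ) * yb 3 f' (2 / B)

/-- VP3 (easy-medium; uses nothing).  Proof.  For `s > 1/b`: `psd 3 b s = s / √(s^2 - (1/b)^2)` (algebra: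
`wb = (s^2 - b^(-2))/s^2`), antiderivative `√(s^2 - b^(-2)) = s wb^(1/2)`, continuous on `[1/b, ∞)`, derivative
positive.  For `s ≥ 2/b`: `s^2 - b^(-2) ≥ (3/4) s^2`, so `psd ≤ 2`. -/
def Vp3Stmt : Prop :=
  ∀ b : ℝ, 0 < b →
    (∀ s : ℝ, 1 / b < s → psd 3 b s = s / Real.sqrt (s ^ 2 - (1 / b) ^ 2) ∧ 0 ≤ psd 3 b s) ∧
    (∀ s : ℝ, 2 / b ≤ s → psd 3 b s ≤ 2) ∧
    ∀ β : ℝ, 1 / b ≤ β → IntervalIntegrable (psd 3 b) volume (1 / b) β ∧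
      ∫ s in (1 / b)..β, psd 3 b s = β * wb b β ^ (1 / 2 : ℝ)

/-- VE3 (medium; uses VD3, VM3, VN3, VT3, VP3).  Copy of VEO; integrability: on `(1/b, 2/b)` `psd` is integrable and
`RA^2 - ph` is bounded, on `(2/b, ∞)` `psd ≤ 2` and VT3. -/
def Ve3Stmt : Prop :=
  ∀ (C σ : ℝ) (f f' : ℝ → ℝ), 0 < C → 0 < σ → Prf f → Prf f' → StU 3 C σ f f' →
    ∀ b : ℝ, 0 < b →
      IntegrableOn (fun s : ℝ => psd 3 b s * (RA 3 f 1 ^ 2 - ph 3 f s)) (Ioi (1 / b)) ∧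
      yb 3 f' b = σ * c3 3 C * ∫ s in Ioi (1 / b), psd 3 b s * (RA 3 f 1 ^ 2 - ph 3 f s)

/-! ### Two steps -/

/-- VS3 (medium; uses nothing).  Copy of VSW with the exponent `-1/2`; `∫_0^1 (1-u^2)^(-1/2) du = J0 3 < ∞` and the inner
integral is at most `M β J0 3`; the integrability in `β` near `1/s` for almost every `s` is part of Tonelli (the
statement only needs the integrability in `s` of the iterated integral). -/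
def Vs3Stmt : Prop :=
  0 < J0 3 ∧ IntervalIntegrable (fun u : ℝ => (1 - u ^ 2) ^ (-(1 / 2) : ℝ)) volume 0 1 ∧
  J0 3 = (∫ u in (0 : ℝ)..1, (1 - u ^ 2) ^ (-(1 / 2) : ℝ)) ∧
  ∀ (b M : ℝ) (D W : ℝ → ℝ), 0 < b →
    Measurable D → Measurable W → (∀ β : ℝ, 0 < β → 0 ≤ D β) → IntegrableOn D (Ioi 0) →
    (∀ s : ℝ, 0 < s → 0 ≤ W s ∧ W s ≤ M) →
    IntegrableOn (fun s : ℝ => (s ^ 2)⁻¹ * W s *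
      ∫ β in Ioi (1 / s), wb s β ^ (-(1 / 2) : ℝ) * (β⁻¹ * D β)) (Ioi (1 / b)) ∧
    ∫ s in Ioi (1 / b), (s ^ 2)⁻¹ * W s *
        ∫ β in Ioi (1 / s), wb s β ^ (-(1 / 2) : ℝ) * (β⁻¹ * D β) =
      ∫ β in Ioi (0 : ℝ), D β *
        ∫ u in Ioo (0 : ℝ) (min 1 (b / β)), W (1 / (u * β)) * (1 - u ^ 2) ^ (-(1 / 2) : ℝ)

/-- VK3 (medium; uses VD3, VM3, VN3, VS3).  Copy of VKU.  The inner integral `∫_0^x (1-u^2)^(-1/2) du`,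
`x = min 1 (b/β)`, is at most `x J0 3`: the mean of an increasing function over `(0,x)` is at most its mean over
`(0,1)` (substitute `u = x v`: `x ∫_0^1 (1-x^2v^2)^(-1/2) dv ≤ x ∫_0^1 (1-v^2)^(-1/2) dv`). -/
def Vk3Stmt : Prop :=
  ∀ (C σ0 σ1 : ℝ) (f0 f1 f2 : ℝ → ℝ), 0 < C → 0 < σ0 → 0 < σ1 →
    Prf f0 → Prf f1 → Prf f2 → StU 3 C σ0 f0 f1 → StU 3 C σ1 f1 f2 →
    ∀ b : ℝ, 0 < b →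
      yb 3 f2 b ≤ σ0 * σ1 * C * c3 3 C * J0 3 * RA 3 f1 1 *
        ∫ β in Ioi (0 : ℝ), min 1 (b / β) * dph 3 f0 β

/-- VQ3 (easy-medium; uses VD3, VM3).  Copy of VKS with `1` instead of `J0`. -/
def Vq3Stmt : Prop :=
  ∀ (f : ℝ → ℝ) (b : ℝ), Prf f → 0 < b →
    IntegrableOn (fun β : ℝ => min 1 (b / β) * dph 3 f β) (Ioi 0) ∧
    (∀ B : ℝ, 0 < B → ∫ β in Ioi (0 : ℝ), min 1 (b / β) * dph 3 f β ≤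
      ph 3 f B + b / B * RA 3 f 1 ^ 2) ∧
    IntegrableOn (fun β : ℝ => (β ^ 2)⁻¹ * ph 3 f β) (Ioi b) ∧
    ∫ β in Ioi (0 : ℝ), min 1 (b / β) * dph 3 f β ≤ b * ∫ β in Ioi b, (β ^ 2)⁻¹ * ph 3 f β

/-- VL3 (medium; uses VD3, VM3, VN3, VS3).  Copy of VKL. -/
def Vl3Stmt : Prop :=
  ∀ (C σ0 σ1 : ℝ) (f0 f1 f2 : ℝ → ℝ), 0 < C → 0 < σ0 → 0 < σ1 →
    Prf f0 → Prf f1 → Prf f2 → StU 3 C σ0 f0 f1 → StU 3 C σ1 f1 f2 →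
    ∀ ε B : ℝ, 0 < ε → ε ≤ B →
      σ0 * σ1 * C * c3 3 C * J0 3 * (yb 3 f1 (1 / B) * (ph 3 f0 B - ph 3 f0 ε) +
        yb 3 f1 (1 / ε) * ph 3 f0 ε) ≤ RA 3 f2 1

/-! ### The limit (the structure `LD` of part V with `n = 3`) -/

/-- VA3 (medium; uses VM3, VK3, VQ3, VL3).  Copy of VAB: `a = inf y`, `L = σ^2 C c3 J0`; (I) `a ≤ L R a^2`,
(II) `R ≥ L (a (R^2 - a^2) + R a^2)`; `a > 0`: `x = a/R`, `μ = L a R ≥ 1`, `1 ≥ μ (1 - x^2 + x)`, so `x = 1`. -/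
def Va3Stmt : Prop :=
  ∀ (C σ R : ℝ) (F : ℕ → ℕ → ℝ → ℝ) (s : ℕ → ℕ → ℝ) (y : ℝ → ℝ) (D : Set ℝ),
    0 < C → 0 < σ → 0 < R → LD 3 C σ R F s y D →
    (∀ b : ℝ, 0 < b → y b = R) ∨ (∀ ε : ℝ, 0 < ε → ∃ b : ℝ, 0 < b ∧ y b < ε)

/-- VX3 (medium; uses VM3, VK3, VQ3).  Copy of VST. -/
def Vx3Stmt : Prop :=
  ∀ (C σ R : ℝ) (F : ℕ → ℕ → ℝ → ℝ) (s : ℕ → ℕ → ℝ) (y : ℝ → ℝ) (D : Set ℝ),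
    0 < C → 0 < σ → 0 < R → LD 3 C σ R F s y D →
    ∃ D0 : ℝ, 0 < D0 ∧ ∀ b : ℝ, 0 < b → IntegrableOn (fun β : ℝ => (β ^ 2)⁻¹ * y β ^ 2) (Ioi b) ∧
      y b ≤ D0 * (b * ∫ β in Ioi b, (β ^ 2)⁻¹ * y β ^ 2)

/-- BS3 (medium; uses nothing).  Copy of BSV with the exponent `3/4` instead of `1/2`.  Proof.  Let `q > 0` with
`D0 y(q) ≤ 1/8`, `U = ∫_(β>q) β^(-2) y^2`, `M_p = sup_(p ≤ b ≤ q) b^(-3/4) y b`.  For `p ≤ b ≤ q`: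
`y b ≤ D0 b U + (1/8) b M_p ∫_(β>b) β^(-2) β^(3/4) = D0 b U + (1/2) M_p b^(3/4)`, so `M_p ≤ 2 D0 q^(1/4) U =: M`.  So
`y ≤ M b^(3/4)` on `(0,q]`, `β^(-2) y^2 ≤ M^2 β^(-1/2)` integrable at `0`, hence `y b ≤ K b`. -/
def Bs3Stmt : Prop :=
  ∀ (R D0 : ℝ) (y : ℝ → ℝ), 0 < D0 → MonotoneOn y (Ioi 0) →
    (∀ b : ℝ, 0 < b → 0 ≤ y b ∧ y b ≤ R) → (∀ ε : ℝ, 0 < ε → ∃ b : ℝ, 0 < b ∧ y b < ε) →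
    (∀ b : ℝ, 0 < b → IntegrableOn (fun β : ℝ => (β ^ 2)⁻¹ * y β ^ 2) (Ioi b) ∧
      y b ≤ D0 * (b * ∫ β in Ioi b, (β ^ 2)⁻¹ * y β ^ 2)) →
    ∃ K : ℝ, 0 ≤ K ∧ ∀ b : ℝ, 0 < b → y b ≤ K * b

/-- VF3 (medium; uses VM3, VP3, VE3, VT3).  Copy of VEL, and a tail estimate.  Proof.  As VEL: on `(1/b, 2/b)`
dominated convergence with `psd * R_k^2` (`psd` integrable there), on `(2/b, B)` with `psd ≤ 2`.  Last claim: VT3 in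
the limit (`2/B ∉ D`; Fatou): `σ c3 ∫_(s>B) (R^2 - y^2) ≤ 2 y(2/B) ≤ 4 K/B`, and `R^2 - y^2` is nonincreasing:
`B (R^2 - y(2B)^2) ≤ ∫_B^(2B) (R^2 - y^2)`; so `R^2 - y(s)^2 ≤ K1/s^2` (first for almost all `s`, then for all
`s > 0` by monotonicity, with a larger constant), together with `≤ R^2`. -/
def Vf3Stmt : Prop :=
  ∀ (C σ R K : ℝ) (F : ℕ → ℕ → ℝ → ℝ) (s : ℕ → ℕ → ℝ) (y : ℝ → ℝ) (D : Set ℝ),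
    0 < C → 0 < σ → 0 < R → LD 3 C σ R F s y D → 0 ≤ K → (∀ b : ℝ, 0 < b → y b ≤ K * b) →
    (∀ b : ℝ, 0 < b → b ∉ D →
      IntegrableOn (fun s : ℝ => psd 3 b s * (R ^ 2 - y s ^ 2)) (Ioi (1 / b)) ∧
      y b = σ * c3 3 C * ∫ s in Ioi (1 / b), psd 3 b s * (R ^ 2 - y s ^ 2)) ∧
    ∃ K1 : ℝ, 0 ≤ K1 ∧ ∀ s : ℝ, 0 < s → R ^ 2 - y s ^ 2 ≤ K1 * min 1 ((s ^ 2)⁻¹)

/-- EQ3 (medium; uses VP3).  The Abel form, for all `Q > 0`.  Proof.  `Ψ S = R^2 - y(√S)^2` is nonincreasing, `≥ 0`,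
`≤ K1 min 1 S⁻¹`.  For `b ∉ D`, `Q = b^(-2)`: VP3 and `s = √(Q + τ)`, `ds = dτ/(2 s)`:
`∫_(s>1/b) s/√(s^2-Q) (R^2 - y s^2) ds = (1/2) ∫_0^∞ τ^(-1/2) Ψ(Q+τ) dτ`.  The right side `G(Q)` is continuous in `Q > 0`
(dominated convergence: `Ψ` is monotone, continuous off a countable set, `Ψ(Q+τ) ≤ K1 min 1 (Q0+τ)⁻¹`;
`τ^(-1/2) min 1 τ⁻¹` is integrable).  `y(Q^(-1/2))` is monotone and equal to `G(Q)` for `Q` outside a countable set, so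
everywhere on `(0,∞)`. -/
def Eq3Stmt : Prop :=
  ∀ (κ R K1 : ℝ) (y : ℝ → ℝ) (D : Set ℝ), 0 ≤ κ → D.Countable → MonotoneOn y (Ioi 0) →
    (∀ b : ℝ, 0 < b → 0 ≤ y b ∧ y b ≤ R) → 0 ≤ K1 →
    (∀ s : ℝ, 0 < s → R ^ 2 - y s ^ 2 ≤ K1 * min 1 ((s ^ 2)⁻¹)) →
    (∀ b : ℝ, 0 < b → b ∉ D → y b = κ * ∫ s in Ioi (1 / b), psd 3 b s * (R ^ 2 - y s ^ 2)) →
    ∀ Q : ℝ, 0 < Q →
      IntegrableOn (fun τ : ℝ => τ ^ (-(1 / 2) : ℝ) * (R ^ 2 - y (Real.sqrt (Q + τ)) ^ 2)) (Ioi 0) ∧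
      y (Real.sqrt Q)⁻¹ =
        κ / 2 * ∫ τ in Ioi (0 : ℝ), τ ^ (-(1 / 2) : ℝ) * (R ^ 2 - y (Real.sqrt (Q + τ)) ^ 2)

/-- Abel pair: `Ψ` nonincreasing on `(0,∞)`, `0 ≤ Ψ ≤ K1 min 1 S⁻¹`, `A Q = κ ∫ τ^(-1/2) Ψ(Q+τ)` -/
structure Abl (κ K1 : ℝ) (A Ψ : ℝ → ℝ) : Prop where
  anti : AntitoneOn Ψ (Ioi 0)
  nonneg : ∀ S : ℝ, 0 < S → 0 ≤ Ψ S
  bdd : ∀ S : ℝ, 0 < S → Ψ S ≤ K1 * min 1 S⁻¹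
  integ : ∀ Q : ℝ, 0 < Q → IntegrableOn (fun τ : ℝ => τ ^ (-(1 / 2) : ℝ) * Ψ (Q + τ)) (Ioi 0)
  eq : ∀ Q : ℝ, 0 < Q → A Q = κ * ∫ τ in Ioi (0 : ℝ), τ ^ (-(1 / 2) : ℝ) * Ψ (Q + τ)

/-- HP3 (easy-medium; uses nothing).  `A` is Hoelder `1/2`.  Proof.  With `c = (S - Q)`: `A Q - A (Q+h) =
κ (∫_0^h τ^(-1/2) Ψ(Q+τ) dτ - ∫_0^∞ (τ^(-1/2) - (τ+h)^(-1/2)) Ψ(Q+h+τ) dτ) ≤ κ Ψ(Q) ∫_0^h τ^(-1/2) = 2 κ h^(1/2) Ψ Q`. -/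
def Hp3Stmt : Prop :=
  ∀ (κ K1 : ℝ) (A Ψ : ℝ → ℝ), 0 ≤ κ → 0 ≤ K1 → Abl κ K1 A Ψ →
    ∀ Q h : ℝ, 0 < Q → 0 < h →
      0 ≤ A Q - A (Q + h) ∧ A Q - A (Q + h) ≤ 2 * κ * K1 * h ^ (1 / 2 : ℝ) * min 1 Q⁻¹

/-- GA3 (medium; uses nothing).  Gain of regularity, `α = 1/2` or `3/4`.  Proof.  Let `0 < h ≤ 1`, `w = min 1 Q⁻¹`.
`A Q - A(Q+h) = κ ∫_0^∞ τ^(-1/2) (Ψ(Q+τ) - Ψ(Q+h+τ)) dτ`.  Part `τ < h`: `≤ K2 h^α w ∫_0^h τ^(-1/2) = 2 K2 h^(α+1/2) w`.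
Part `τ > h`: `∫_h^∞ τ^(-1/2) Ψ(Q+τ) - ∫_(2h)^∞ (τ-h)^(-1/2) Ψ(Q+τ) = ∫_h^(2h) τ^(-1/2) Ψ(Q+τ) -
∫_(2h)^∞ ((τ-h)^(-1/2) - τ^(-1/2)) Ψ(Q+τ)`; the weights have the same total mass, `∫_h^(2h) τ^(-1/2) =
∫_(2h)^∞ ((τ-h)^(-1/2) - τ^(-1/2)) = 2(√2-1) h^(1/2)`, so subtract `Ψ(Q+h)`; the first term is then `≤ 0` and the rest is
`≤ ∫_(2h)^∞ ((τ-h)^(-1/2) - τ^(-1/2)) (Ψ(Q+h) - Ψ(Q+τ)) ≤ h ∫_(2h)^∞ τ^(-3/2) (Ψ(Q+h) - Ψ(Q+τ))`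
(`(τ-h)^(-1/2) - τ^(-1/2) ≤ h τ^(-3/2)` for `τ ≥ 2h`: it is `h / (√τ √(τ-h) (√τ + √(τ-h)))` and
`√(τ-h) ≥ √τ/√2`, the denominator is `≥ τ^(3/2) (1 + 1/√2)/√2 ≥ τ^(3/2)`).  With
`Ψ(Q+h) - Ψ(Q+τ) ≤ w min (K2 τ^α, K1)` and `∫_(2h)^1 τ^(α-3/2) dτ ≤ 4 h^(-1/4)` for `α = 1/2`
(`∫ τ^(-1) = log (1/(2h)) ≤ 4 h^(-1/4)`), `≤ 4` for `α = 3/4`, and `∫_1^∞ τ^(-3/2) = 2`.  All together
`≤ K3 h^(α+1/4) w`, `K3 = κ (6 K2 + 2 K1)`. -/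
def Ga3Stmt : Prop :=
  ∀ (κ K1 K2 α : ℝ) (A Ψ : ℝ → ℝ), 0 ≤ κ → 0 ≤ K1 → 0 ≤ K2 → (α = 1 / 2 ∨ α = 3 / 4) → Abl κ K1 A Ψ →
    (∀ S S' : ℝ, 0 < S → S ≤ S' → Ψ S - Ψ S' ≤ K2 * (S' - S) ^ α * min 1 S⁻¹) →
    ∃ K3 : ℝ, 0 ≤ K3 ∧ ∀ Q h : ℝ, 0 < Q → 0 < h → h ≤ 1 →
      A Q - A (Q + h) ≤ K3 * h ^ (α + 1 / 4) * min 1 Q⁻¹

/-- TR3 (medium; uses nothing).  Transfer from `A` to `Ψ`, `γ = 1/2` or `3/4`; `A Q = y(Q^(-1/2))`,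
`Ψ S = R^2 - y(√S)^2`.  Proof.  Let `S < S'`, `h = S' - S`, `b = √S`, `b' = √S'`, `δ = 1/S - 1/S' = h/(S S')`:
`Ψ S - Ψ S' = y(b')^2 - y(b)^2 ≤ 2 y(b') (A(1/S') - A(1/S' + δ)) ≤ 2 min(R, K √S') K2 δ^γ' min(1, S')`, `γ' = γ` if `δ ≤ 1`,
`γ' = 1/2` if `δ > 1` (hypothesis).
(i) `S ≥ 1/2`, `δ ≤ 1`: `≤ 2 R K2 h^γ (S S')^(-γ) ≤ 2 R K2 h^γ S^(-2γ)`, and `S^(-2γ) ≤ 2 min(1, S⁻¹)·2`.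
(ii) `S ≥ 1/2`, `δ > 1`: then `S < 1` and `h ≥ S S' ≥ 1/4`; the trivial bound `R^2 ≤ R^2 4^γ h^γ`, `min 1 S⁻¹ = 1`.
(iii) `S < 1/2`, `S' > 2 S`: `Ψ S - Ψ S' ≤ y(b')^2 ≤ min(R^2, K^2 S') ≤ min(R^2, 2 K^2 h) ≤ K' h^γ`.
(iv) `S < 1/2`, `S' ≤ 2 S ≤ 1`, `δ ≤ 1`: `≤ 2 K K2 S'^(3/2) h^γ (S S')^(-γ) ≤ K' h^γ S^(3/2-2γ) ≤ K' h^γ`.
(v) `S < 1/2`, `S' ≤ 2 S`, `δ > 1`: `≤ 2 K K2 S'^(3/2) (h/(S S'))^(1/2) ≤ K' S^(1/2) h^(1/2)`, and `h > S S' ≥ S^2` gives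
`h^(1/2) = h^γ h^(1/2-γ) ≤ h^γ S^(1-2γ)`, so `≤ K' h^γ S^(3/2-2γ) ≤ K' h^γ`. -/
def Tr3Stmt : Prop :=
  ∀ (R K K2 γ : ℝ) (y : ℝ → ℝ), 0 ≤ R → 0 ≤ K → 0 ≤ K2 → (γ = 1 / 2 ∨ γ = 3 / 4) →
    MonotoneOn y (Ioi 0) → (∀ b : ℝ, 0 < b → 0 ≤ y b ∧ y b ≤ R ∧ y b ≤ K * b) →
    (∀ Q h : ℝ, 0 < Q → 0 < h →
      y (Real.sqrt Q)⁻¹ - y (Real.sqrt (Q + h))⁻¹ ≤ K2 * h ^ (1 / 2 : ℝ) * min 1 Q⁻¹ ∧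
      (h ≤ 1 → y (Real.sqrt Q)⁻¹ - y (Real.sqrt (Q + h))⁻¹ ≤ K2 * h ^ γ * min 1 Q⁻¹)) →
    ∃ K3 : ℝ, 0 ≤ K3 ∧ ∀ S S' : ℝ, 0 < S → S ≤ S' →
      (R ^ 2 - y (Real.sqrt S) ^ 2) - (R ^ 2 - y (Real.sqrt S') ^ 2) ≤
        K3 * (S' - S) ^ γ * min 1 S⁻¹

/-- LL3 (medium; uses EQ3, HP3, GA3, TR3).  The Lipschitz estimate.  Proof.  `A Q = y(Q^(-1/2))`,
`Ψ S = R^2 - y(√S)^2` is an Abel pair with `κ/2` (EQ3).  HP3 and TR3 (`γ = 1/2`), GA3 (`α = 1/2`), TR3 (`γ = 3/4`), GA3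
(`α = 3/4`): `A Q - A(Q+h) ≤ K3 h` for `0 < h ≤ 1`, so for all `h > 0` (chain).  Hence for `1 ≤ S ≤ S'`:
`Ψ S - Ψ S' ≤ 2 R (A(1/S') - A(1/S)) ≤ 2 R K3 (S'-S)/S^2`.  For `Q ≥ 1`:
`A Q - A(Q+h) = (κ/2) ∫ τ^(-1/2) (Ψ(Q+τ) - Ψ(Q+h+τ)) ≤ (κ/2) 2 R K3 h ∫_0^∞ τ^(-1/2) (Q+τ)^(-2) dτ`, and the
integral is `≤ 4 Q^(-3/2)` (`(Q+τ)^(-2) ≤ Q^(-2)` for `τ ≤ Q`: `2 Q^(-3/2)`; `≤ τ^(-2)` for `τ > Q`: `(2/3) Q^(-3/2)`).  So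
`A Q - A(Q+h) ≤ K4 h min(1, Q^(-3/2))` for all `Q, h > 0`.  For `b ≤ b' ≤ 2b`, `Q = b'^(-2)`, `h = b^(-2) - b'^(-2) =
(b'-b)(b'+b)/(b^2 b'^2) ≤ 3 (b'-b) b^(-3)`: `y b' - y b ≤ K4 h min(1, b'^3) ≤ 24 K4 (b'-b) min(b^(-3), 1)`. -/
def Ll3Stmt : Prop :=
  ∀ (κ R K K1 : ℝ) (y : ℝ → ℝ) (D : Set ℝ), 0 ≤ κ → 0 ≤ R → 0 ≤ K → D.Countable →
    MonotoneOn y (Ioi 0) →
    (∀ b : ℝ, 0 < b → 0 ≤ y b ∧ y b ≤ R ∧ y b ≤ K * b) → 0 ≤ K1 →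
    (∀ s : ℝ, 0 < s → R ^ 2 - y s ^ 2 ≤ K1 * min 1 ((s ^ 2)⁻¹)) →
    (∀ b : ℝ, 0 < b → b ∉ D → y b = κ * ∫ s in Ioi (1 / b), psd 3 b s * (R ^ 2 - y s ^ 2)) →
    ∃ K' : ℝ, 0 ≤ K' ∧ ∀ b b' : ℝ, 0 < b → b ≤ b' → b' ≤ 2 * b →
      y b' - y b ≤ K' * min 1 ((b ^ 3)⁻¹) * (b' - b)

/-- PD3 (easy-medium; uses nothing).  Copy of VPD (`n - 1 = 2`, `n - 2 = 1`). -/
def Pd3Stmt : Prop :=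
  ∀ (R K K' : ℝ) (y d : ℝ → ℝ), 0 ≤ K → 0 ≤ K' → MonotoneOn y (Ioi 0) →
    ContinuousOn y (Ioi 0) → (∀ b : ℝ, 0 < b → 0 ≤ y b ∧ y b ≤ K * b ∧ y b ≤ R) →
    Tendsto y atTop (𝓝 R) → Measurable d →
    (∀ b : ℝ, 0 < b → 0 ≤ d b ∧ d b ≤ K' * min 1 ((b ^ 3)⁻¹)) →
    (∀ b b' : ℝ, 0 < b → b ≤ b' → y b' - y b = ∫ s in b..b', d s) →
    IntegrableOn (fun β : ℝ => 2 * y β * d β) (Ioi 0) ∧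
    (∫ β in Ioi (0 : ℝ), 2 * y β * d β) = R ^ 2 ∧
    ∀ b : ℝ, 0 < b → (∫ β in Ioi b, 2 * y β * d β) = R ^ 2 - y b ^ 2

/-- VG3 (medium; uses VP3, PD3, CrcStmt).  Copy of VGF: `f x = σ c3 (1-x^2)^(-2) 2 y(β) d(β) β^3`,
`β = √(1-x^2)/x`, bounded: `(1-x^2)^(-2) = (1+β^2)^2 β^(-4)`; `β ≤ 1`: `≤ 4 β^(-1) 2 K β K'`; `β ≥ 1`: `≤ 4 β^3 2 R K' β^(-3)`. -/
def Vg3Stmt : Prop :=
  ∀ (C σ R K K' : ℝ) (y d : ℝ → ℝ) (D : Set ℝ), 0 < C → 0 < σ → 0 < R →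
    0 ≤ K → 0 ≤ K' → D.Countable → MonotoneOn y (Ioi 0) → ContinuousOn y (Ioi 0) →
    (∀ b : ℝ, 0 < b → 0 ≤ y b ∧ y b ≤ K * b ∧ y b ≤ R) → Tendsto y atTop (𝓝 R) → Measurable d →
    (∀ b : ℝ, 0 < b → 0 ≤ d b ∧ d b ≤ K' * min 1 ((b ^ 3)⁻¹)) →
    (∀ b b' : ℝ, 0 < b → b ≤ b' → y b' - y b = ∫ s in b..b', d s) →
    (∀ b : ℝ, 0 < b → b ∉ D →
      IntegrableOn (fun s : ℝ => psd 3 b s * (R ^ 2 - y s ^ 2)) (Ioi (1 / b)) ∧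
      y b = σ * c3 3 C * ∫ s in Ioi (1 / b), psd 3 b s * (R ^ 2 - y s ^ 2)) →
    ∃ f : ℝ → ℝ, Prf f ∧ (∀ b : ℝ, 0 < b → yb 3 f b = y b) ∧ H0 3 f = σ * c3 3 C * R ^ 2

/-- VAL3 (easy-medium; uses VM3, VN3, LmmStmt (proved: Pool.Agent.REV.H95.lmm), VA3, VX3, BS3, VF3, LL3, FtlStmt (proved:
Pool.Agent.REV.H75.ftl), VG3).  Copy of VAL (Pool/Agent/Helper32_REV/VAL.lean) for `n = 3`; instead of VLL, VEL: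
VF3 and LL3 with `κ = σ c3`. -/
def Val3Stmt : Prop :=
  ∀ (C κ0 κ1 R : ℝ) (η : ℝ → ℝ) (F : ℕ → ℕ → ℝ → ℝ) (s : ℕ → ℕ → ℝ),
    0 < C → 0 < κ0 → 0 < κ1 → 0 < R → 0 < η 0 →
    (∀ k j, Prf (F k j)) → (∀ k j, 0 < s k j) →
    (∀ k j, j ≤ 1 → StU 3 C (s k j) (F k j) (F k (j + 1))) →
    (∀ j ≤ 2, ∀ b : ℝ, 0 ≤ b → Tendsto (fun k => κ0 * H0 3 (F k j) +
      κ1 * ∫ t in (0 : ℝ)..b, yb 3 (F k j) t) atTop (𝓝 (η b))) →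
    (∀ j ≤ 2, Tendsto (fun k => κ1 * RA 3 (F k j) 1) atTop (𝓝 R)) →
    Tendsto (fun b => η b / b) atTop (𝓝 R) →
    (∀ b : ℝ, 0 ≤ b → η b = η 0 + R * b) ∨
    ∃ f : ℝ → ℝ, Prf f ∧ ∀ b : ℝ, 0 ≤ b → η b = κ0 * H0 3 f + κ1 * ∫ t in (0 : ℝ)..b, yb 3 f t

end Pool.Agent.REV
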