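import Pool.Agent.REV.DefsS

set_option autoImplicit false

/-!
# Squad REV (MP_bbfd73_gt): constants for the geometric part G2
-/

namespace Pool.Agent.REV

/-- `(n-2)(n-3)...(n-1-i) / (n-2)^i` -/
noncomputable def C1 (n i : ℕ) : ℝ := ((n - 2).descFactorial i : ℝ) / ((n : ℝ) - 2) ^ i

/-- `i (n-2)(n-3)...(n-i) / (n-2)^(i-1)` -/
noncomputable def C2 (n i : ℕ) : ℝ :=
  (i : ℝ) * ((n - 2).descFactorial (i - 1) : ℝ) / ((n : ℝ) - 2) ^ (i - 1)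

/-- `1 / ∫_0^1 (1-x^2)^((n-4)/2) dx` -/
noncomputable def kap (n : ℕ) : ℝ := (∫ x in (0 : ℝ)..1, (1 - x ^ 2) ^ (((n : ℝ) - 4) / 2))⁻¹

/-- the profile of a zonal density: measurable, nonnegative, bounded -/
structure Prf (φ : ℝ → ℝ) : Prop where
  meas : Measurable φ
  nonneg : ∀ t, 0 ≤ φ t
  bdd : ∃ C, ∀ t, φ t ≤ C

end Pool.Agent.REV
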