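import Pool.Agent.REV.StmtsA1

set_option autoImplicit false

/-!
# Squad REV, part A2: a uniform `Pinch` after seven steps (one variable)

Everything is elementary; all integrals are over `[0,1]` (or `[0,c]`), `m = (n-2)/2`, `γ = (n-4)/2 ≥ 0`.
`t`, `c` in `[0,1]`, mostly `c = sqrt (1 - t^2)`.  Facts used everywhere: for `0 ≤ r < 1`, `0 ≤ c ≤ 1`:
`0 < 1 - r^2 ≤ 1 - r^2 c^2 ≤ 1`, so `(1-r^2)^p ≤ (1-r^2c^2)^p` for `p ≥ 0` and `≥` for `p ≤ 0`.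
-/

namespace Pool.Agent.REV

open Set MeasureTheory

/-- admissible functions (only the values on `[0,1]` matter) -/
structure Adm (f : ℝ → ℝ) : Prop where
  meas : Measurable f
  nonneg : ∀ t ∈ Icc (0 : ℝ) 1, 0 ≤ f t
  bdd : ∃ M : ℝ, ∀ t ∈ Icc (0 : ℝ) 1, f t ≤ M

/-- admissible, mass `≤ κ` and `RA n f 1 ≥ η` -/
structure Cls (n : ℕ) (κ η : ℝ) (f : ℝ → ℝ) : Prop where
  adm : Adm f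
  mass : ∫ x in (0 : ℝ)..1, (1 - x ^ 2) ^ (((n : ℝ) - 3) / 2) * f x ≤ κ
  low : η ≤ RA n f 1

/-- `f t ≤ M t^(-α) (1-t^2)^(-β)` on `(0,1)` -/
def StB (α β M : ℝ) (f : ℝ → ℝ) : Prop :=
  ∀ t : ℝ, 0 < t → t < 1 → f t ≤ M * t ^ (-α) * (1 - t ^ 2) ^ (-β)

/-- INT (easy). Proof. Bounded measurable functions on a bounded interval (`r c ∈ [0,1]`, all exponents are
`≥ 0`, so the weights are between `0` and `1`); integrals of nonnegative functions are nonnegative. -/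
def IntStmt : Prop :=
  ∀ (n : ℕ) (f : ℝ → ℝ), 4 ≤ n → Adm f →
    IntervalIntegrable (fun x : ℝ => (1 - x ^ 2) ^ (((n : ℝ) - 3) / 2) * f x) volume 0 1 ∧
    ∀ c : ℝ, 0 ≤ c → c ≤ 1 →
      IntervalIntegrable (fun r : ℝ => (1 - r ^ 2) ^ (((n : ℝ) - 2) / 2) * f (r * c)) volume 0 1 ∧
      IntervalIntegrable (fun r : ℝ => r ^ 2 * (1 - r ^ 2) ^ (((n : ℝ) - 4) / 2) * f (r * c))
        volume 0 1 ∧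
      0 ≤ RA n f c ∧ 0 ≤ RB n f c

/-- CRC (easy). Proof. Substitution `x = r c`
(`intervalIntegral.integral_comp_mul_right` / `mul_integral_comp_mul_right`), `c > 0`. -/
def CrcStmt : Prop :=
  ∀ (n : ℕ) (f : ℝ → ℝ) (c : ℝ), 0 < c → c ≤ 1 →
    c * RA n f c = ∫ x in (0 : ℝ)..c, (1 - x ^ 2 / c ^ 2) ^ (((n : ℝ) - 2) / 2) * f x ∧
    c ^ 3 * RB n f c = ∫ x in (0 : ℝ)..c, x ^ 2 * (1 - x ^ 2 / c ^ 2) ^ (((n : ℝ) - 4) / 2) * f x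

/-- MBD (easy-medium, uses INT, CRC). Proof. `w = (1-x^2)^((n-3)/2)`.  For `0 ≤ x ≤ c`:
`0 ≤ 1 - x^2/c^2 ≤ 1 - x^2 ≤ 1`, so `(1-x^2/c^2)^((n-2)/2) ≤ (1-x^2)^((n-2)/2) ≤ w`; hence
`c RA ≤ ∫_0^c w f ≤ ∫_0^1 w f ≤ κ`.  For `c < 1`, `x ≤ c`:
`x^2 (1-x^2/c^2)^((n-4)/2) ≤ x^2 (1-x^2)^(-1/2) w ≤ c^2 (1-c^2)^(-1/2) w`, so
`c^3 RB ≤ c^2 (1-c^2)^(-1/2) κ`. -/
def MbdStmt : Prop :=
  ∀ (n : ℕ) (f : ℝ → ℝ) (κ c : ℝ), 4 ≤ n → Adm f →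
    ∫ x in (0 : ℝ)..1, (1 - x ^ 2) ^ (((n : ℝ) - 3) / 2) * f x ≤ κ → 0 < c → c ≤ 1 →
    RA n f c ≤ κ / c ∧ (c < 1 → RB n f c ≤ κ / (c * Real.sqrt (1 - c ^ 2)))

/-- YLO (medium, uses INT, CRC). Proof. `m = (n-2)/2 ≥ 1`, `c = sqrt (1-t^2)`, `t0 = min (1/2)
(η / (2 (n-2) κ))`.  `RA f c ≥ c RA f c = ∫_0^c (1-x^2/c^2)^m f`.  Let `u = 1 - x^2`,
`v = max 0 (1 - x^2/c^2)`; `u - v ≤ x^2 t^2/c^2` (for `x ≤ c` equality, for `x > c`: `u ≤ t^2 ≤ x^2 t^2/c^2`)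
and `u - v ≤ u`.  `u^m - v^m ≤ m u^(m-1) (u-v)` (`m ≥ 1`, Bernoulli or mean value), and
`u - v ≤ sqrt (u * (x^2 t^2/c^2)) ≤ u^(1/2) t/c`.  So
`RA f 1 - c RA f c ≤ m (t/c) ∫ (1-x^2)^(m-1/2) f ≤ m (t/c) κ ≤ (n-2) t κ ≤ η/2` (`c ≥ 1/2`). -/
def YloStmt : Prop :=
  ∀ (n : ℕ) (κ η : ℝ), 4 ≤ n → 0 < κ → 0 < η →
    ∃ t0 : ℝ, 0 < t0 ∧ t0 ≤ 1 / 2 ∧ ∀ f : ℝ → ℝ, Cls n κ η f →
      ∀ t : ℝ, 0 ≤ t → t ≤ t0 → η / 2 ≤ RA n f (Real.sqrt (1 - t ^ 2))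

/-- FAC (easy-medium, uses INT, YLO). Proof. With `t0` of YLO: `f' ≥ s C1 (η/2)^i` on `[0,t0]` and
`(1-x^2)^((n-3)/2) ≥ (3/4)^((n-3)/2)` there, so `κ ≥ t0 (3/4)^((n-3)/2) s C1 (η/2)^i`. -/
def FacStmt : Prop :=
  ∀ (n i : ℕ) (C1 C2 κ η : ℝ), 4 ≤ n → 1 ≤ i → i + 2 ≤ n → 0 < C1 → 0 ≤ C2 → 0 < κ → 0 < η →
    ∃ S : ℝ, 0 < S ∧ ∀ (s : ℝ) (f f' : ℝ → ℝ), 0 ≤ s → Cls n κ η f → Cls n κ η f' →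
      (∀ t ∈ Icc (0 : ℝ) 1, f' t = s * TT n i C1 C2 f t) → s ≤ S

/-- PWI (easy). Proof. `integral_rpow` / `intervalIntegral.intervalIntegrable_rpow'`; the second with the
antiderivative `-(1-r^2)^(1-β)/(2(1-β))` (continuous on `[0,1]`, derivative `r (1-r^2)^(-β) ≥ 0` on `(0,1)`:
`intervalIntegral.integrableOn_deriv_of_nonneg` and
`intervalIntegral.integral_eq_sub_of_hasDerivAt_of_le` or the `..._of_tendsto` variant). -/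
def PwiStmt : Prop :=
  (∀ α : ℝ, 0 ≤ α → α < 1 → IntervalIntegrable (fun r : ℝ => r ^ (-α)) volume 0 1 ∧
    ∫ r in (0 : ℝ)..1, r ^ (-α) = 1 / (1 - α)) ∧
  (∀ β : ℝ, 0 ≤ β → β < 1 → IntervalIntegrable (fun r : ℝ => r * (1 - r ^ 2) ^ (-β)) volume 0 1 ∧
    ∫ r in (0 : ℝ)..1, r * (1 - r ^ 2) ^ (-β) = 1 / (2 * (1 - β)))

/-- RAB (easy-medium, uses INT, PWI). Proof. For `0 < r < 1`: `f (r c) ≤ M r^(-α) c^(-α) (1-r^2c^2)^(-β)` and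
`(1-r^2)^((n-2)/2) ≤ (1-r^2c^2)^((n-2)/2) ≤ (1-r^2c^2)^β`, so the integrand is `≤ M c^(-α) r^(-α)`. -/
def RabStmt : Prop :=
  ∀ (n : ℕ) (α β M c : ℝ) (f : ℝ → ℝ), 4 ≤ n → 0 ≤ α → α < 1 → 0 ≤ β → β ≤ ((n : ℝ) - 2) / 2 →
    0 ≤ M → Adm f → StB α β M f → 0 < c → c ≤ 1 → RA n f c ≤ M / (1 - α) * c ^ (-α)

/-- RBL (easy-medium, uses INT, PWI). Proof. For `0 < r < 1`, the integrand is at most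
`M c^(-α) r^(2-α) (1-r^2)^γ (1-r^2c^2)^(-β) ≤ M c^(-α) r (1-r^2c^2)^(γ-β) ≤ M c^(-α) r (1-r^2c^2)^(-1)`
(`γ - β ≥ -1`), and `(1-r^2c^2)^(-1) ≤ (1-c^2)^(-1/8) (1-r^2)^(-7/8)`; PWI with `β = 7/8`: the integral is
`4`. -/
def RblStmt : Prop :=
  ∀ (n : ℕ) (α β M c : ℝ) (f : ℝ → ℝ), 4 ≤ n → 0 ≤ α → α ≤ 1 → 0 ≤ β → β ≤ ((n : ℝ) - 2) / 2 →
    0 ≤ M → Adm f → StB α β M f → 0 < c → c < 1 →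
      RB n f c ≤ 4 * M * c ^ (-α) * (1 - c ^ 2) ^ (-(1 / 8) : ℝ)

/-- RBS (easy-medium, uses INT, PWI). Proof. The integrand is at most
`M c^(-α) r (1-r^2)^(γ-β)` (`(1-r^2c^2)^(-β) ≤ (1-r^2)^(-β)`) and `γ - β ≥ (3n-14)/8 ≥ -1/4`, so
`≤ M c^(-α) r (1-r^2)^(-1/4)`; PWI with `β = 1/4`: the integral is `2/3 ≤ 1`. -/
def RbsStmt : Prop :=
  ∀ (n : ℕ) (α β M c : ℝ) (f : ℝ → ℝ), 4 ≤ n → 0 ≤ α → α ≤ 1 → 0 ≤ β → β ≤ ((n : ℝ) - 2) / 8 →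
    0 ≤ M → Adm f → StB α β M f → 0 < c → c ≤ 1 → RB n f c ≤ M * c ^ (-α)

/-- SGA (medium, uses INT, MBD, RBL). Steps 1 and 2.  Proof. `c = sqrt (1-t^2)`, `0 < t < 1`,
`sqrt (1-c^2) = t`, `c^(-i) = (1-t^2)^(-i/2)`.  (1) MBD: `RA ≤ κ/c`, `RB ≤ κ/(c t)`:
`TT f t ≤ κ^i c^(-i) (C1 + C2/t) ≤ (C1 + C2) κ^i t^(-1) c^(-i)`.  (2) `RA ≤ κ/c` (MBD) and RBL with `α = 1`,
`β = i/2 ≤ (n-2)/2`: `RB ≤ 4 M c^(-1) t^(-1/4)`: `TT f t ≤ C1 κ^i c^(-i) + 4 C2 M κ^(i-1) c^(-i) t^(-1/4)`,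
and `1 ≤ t^(-1/4)`. -/
def SgaStmt : Prop :=
  ∀ (n i : ℕ) (C1 C2 κ η S s M : ℝ) (f : ℝ → ℝ), 4 ≤ n → 1 ≤ i → i + 2 ≤ n → 0 ≤ C1 → 0 ≤ C2 → 0 ≤ κ →
    0 ≤ s → s ≤ S → 0 ≤ M → Cls n κ η f →
    StB 1 ((i : ℝ) / 2) (S * ((C1 + C2) * κ ^ i)) (fun t => s * TT n i C1 C2 f t) ∧
    (StB 1 ((i : ℝ) / 2) M f →
      StB (1 / 4) ((i : ℝ) / 2) (S * (C1 * κ ^ i + 4 * C2 * M * κ ^ (i - 1)))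
        (fun t => s * TT n i C1 C2 f t))

/-- SGB (medium, uses INT, RAB, RBL, RBS). Steps 3, 4, 5.  Proof. `c = sqrt (1-t^2)`, `c^(-i/4) =
(1-t^2)^(-i/8)`.  (3) RAB with `α = 1/4`: `RA ≤ (4/3) M c^(-1/4) ≤ 4 M c^(-1/4)`, RBL:
`RB ≤ 4 M c^(-1/4) t^(-1/4)`: `TT f t ≤ (C1 + C2) (4 M)^i c^(-i/4) t^(-1/4)`.  (4) RAB, and RBS
(`β = i/8 ≤ (n-2)/8`): `RB ≤ M c^(-1/4)`.  (5) `α = 0`: `RA ≤ M`, `RB ≤ M`.  (6) the same with `β = 0`. -/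
def SgbStmt : Prop :=
  ∀ (n i : ℕ) (C1 C2 S s M : ℝ) (f : ℝ → ℝ), 4 ≤ n → 1 ≤ i → i + 2 ≤ n → 0 ≤ C1 → 0 ≤ C2 →
    0 ≤ s → s ≤ S → 0 ≤ M → Adm f →
    (StB (1 / 4) ((i : ℝ) / 2) M f →
      StB (1 / 4) ((i : ℝ) / 8) (S * ((C1 + C2) * (4 * M) ^ i)) (fun t => s * TT n i C1 C2 f t)) ∧
    (StB (1 / 4) ((i : ℝ) / 8) M f →
      StB 0 ((i : ℝ) / 8) (S * ((C1 + C2) * (4 * M) ^ i)) (fun t => s * TT n i C1 C2 f t)) ∧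
    (StB 0 ((i : ℝ) / 8) M f →
      StB 0 0 (S * ((C1 + C2) * (4 * M) ^ i)) (fun t => s * TT n i C1 C2 f t)) ∧
    (StB 0 0 M f →
      StB 0 0 (S * ((C1 + C2) * (4 * M) ^ i)) (fun t => s * TT n i C1 C2 f t))

/-- STG (easy, uses FAC, SGA, SGB). Proof. `F 1 ∈ StB 1 (i/2)`, `F 2 ∈ StB (1/4) (i/2)`,
`F 3 ∈ StB (1/4) (i/8)`, `F 4 ∈ StB 0 (i/8)`, `F 5, F 6 ∈ StB 0 0`, constants by induction; `σ k ≤ S` by FAC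
(`F (k+1)` and the function `t ↦ σ k * TT .. t` agree on `[0,1]`). -/
def StgStmt : Prop :=
  ∀ (n i : ℕ) (C1 C2 κ η : ℝ), 4 ≤ n → 1 ≤ i → i + 2 ≤ n → 0 < C1 → 0 ≤ C2 → 0 < κ → 0 < η →
    ∃ M : ℝ, 0 ≤ M ∧ ∀ (σ : ℕ → ℝ) (F : ℕ → ℝ → ℝ), (∀ k ≤ 6, Cls n κ η (F k)) →
      (∀ k < 6, 0 ≤ σ k ∧ ∀ t ∈ Icc (0 : ℝ) 1, F (k + 1) t = σ k * TT n i C1 C2 (F k) t) →
      (∀ t : ℝ, 0 < t → t < 1 → F 5 t ≤ M) ∧ (∀ t : ℝ, 0 < t → t < 1 → F 6 t ≤ M)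

/-- ANT (medium, uses INT, CRC). Proof. `c ↦ c RA n f c` and `c ↦ c^3 RB n f c` are nondecreasing on `[0,1]`
(CRC for `c > 0`: `1 - x^2/c^2 ≤ 1 - x^2/c'^2` for `c ≤ c'`, exponents `≥ 0`, and the integral over `[c, c']`
is `≥ 0`; at `c = 0` the values are `0`).  With `c = sqrt (1-t^2)`:
`(1-t^2)^((i+2)/2) TT f t = C1 c^2 (c RA)^i + C2 (c^3 RB) (c RA)^(i-1)` (also at `t = 1`).  Second: multiply by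
`(1-t^2)^((n-1-i)/2)`, nonincreasing and `≥ 0` (`El n 0 g t = (1 + (0-1) t^2)^((n+1)/2) g t`). -/
def AntStmt : Prop :=
  ∀ (n i : ℕ) (C1 C2 : ℝ) (f : ℝ → ℝ), 4 ≤ n → 1 ≤ i → i + 1 ≤ n → 0 ≤ C1 → 0 ≤ C2 → Adm f →
    AntitoneOn (fun t : ℝ => (1 - t ^ 2) ^ (((i : ℝ) + 2) / 2) * TT n i C1 C2 f t) (Icc 0 1) ∧
    AntitoneOn (El n 0 (TT n i C1 C2 f)) (Icc 0 1)

/-- MON (medium, uses CvagStmt, CvbgStmt, MragStmt of `Pool.Agent.REV.StmtsA1g` = CVA, CVB, MRA with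
`g ≥ 0`, `0 < 1 + (g-1) c^2`; here `g = 0`). Proof. For `0 < t ≤ 1`, `c = sqrt (1-t^2) < 1`,
`1 + (0-1) c^2 = t^2`: `t RA n f c = RA' n 0 f c`, `t^3 RB n f c = RB' n 0 f c` (CVA, CVB), nonnegative and
antitone in `c` (MRA, as `El n 0 f` is antitone), so monotone in `t`; at `t = 0` the values are `0`.
`t^(i+2) TT f t = C1 t^2 (t RA)^i + C2 (t^3 RB) (t RA)^(i-1)`. -/
def MonStmt : Prop :=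
  ∀ (n i : ℕ) (C1 C2 : ℝ) (f : ℝ → ℝ), 4 ≤ n → 1 ≤ i → 0 ≤ C1 → 0 ≤ C2 →
    (∀ t ∈ Icc (0 : ℝ) 1, 0 ≤ f t) → AntitoneOn (El n 0 f) (Icc 0 1) →
    MonotoneOn (fun t : ℝ => t ^ (i + 2) * TT n i C1 C2 f t) (Icc 0 1)

/-- LPA (easy-medium, uses INT, CRC). Proof. `c = sqrt (1-p^2)`, `d = sqrt (1-q^2)`, `3/4 ≤ d^2 ≤ c^2`.
`m = (n-2)/2 ≥ 1`; for `x ≤ c`: with `u = 1 - x^2/c^2`, `v = max 0 (1 - x^2/d^2)`: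
`u^m - v^m ≤ m (u-v) ≤ m x^2 (1/d^2 - 1/c^2) ≤ m (16/9) (q^2-p^2)` (for `x > d`: `u ≤ x^2/d^2 - x^2/c^2`), and
`m (16/9) ≤ n`; integrate against `f ≤ M` over `[0,c]` (the endpoints do not matter). -/
def LpaStmt : Prop :=
  ∀ (n : ℕ) (M p q : ℝ) (f : ℝ → ℝ), 4 ≤ n → 0 ≤ M → Adm f → (∀ t : ℝ, 0 < t → t < 1 → f t ≤ M) →
    0 ≤ p → p ≤ q → q ≤ 1 / 2 →
    Real.sqrt (1 - p ^ 2) * RA n f (Real.sqrt (1 - p ^ 2)) ≤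
      Real.sqrt (1 - q ^ 2) * RA n f (Real.sqrt (1 - q ^ 2)) + n * M * (q ^ 2 - p ^ 2)

/-- LPB (medium, uses INT, CRC, PWI). Proof. `c`, `d` as in LPA, `γ = (n-4)/2`.  `n = 4` (`γ = 0`,
`x^0 = 1`): the difference is `∫_d^c x^2 f ≤ M (c-d) ≤ M (c^2-d^2) = M (q^2-p^2)` (`c+d ≥ 1`).
`n ≥ 5`: `γ ≥ 1/2`; for `0 ≤ x < c`, `u = 1 - x^2/c^2 ∈ (0,1]`, `v = max 0 (1-x^2/d^2) ≤ u`:
`u^γ - v^γ ≤ max 1 γ * u^(-1/2) (u-v)` (if `γ ≥ 1`: `≤ γ u^(γ-1) (u-v) ≤ γ (u-v)`; if `1/2 ≤ γ < 1`: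
`u^γ (1 - (v/u)^γ) ≤ u^γ (1 - v/u) = u^(γ-1) (u-v)`), and `u - v ≤ (16/9) (q^2-p^2) x^2`; `x^2 x^2 ≤ x`, and
`∫_0^c x (1-x^2/c^2)^(-1/2) = c^2 ≤ 1` (PWI with `β = 1/2` and the substitution `x = r c`);
`max 1 γ * (16/9) ≤ n`. (Equivalent: work with `r = x/c` throughout.) -/
def LpbStmt : Prop :=
  ∀ (n : ℕ) (M p q : ℝ) (f : ℝ → ℝ), 4 ≤ n → 0 ≤ M → Adm f → (∀ t : ℝ, 0 < t → t < 1 → f t ≤ M) →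
    0 ≤ p → p ≤ q → q ≤ 1 / 2 →
    Real.sqrt (1 - p ^ 2) ^ 3 * RB n f (Real.sqrt (1 - p ^ 2)) ≤
      Real.sqrt (1 - q ^ 2) ^ 3 * RB n f (Real.sqrt (1 - q ^ 2)) + n * M * (q ^ 2 - p ^ 2)

/-- LOC (medium, uses INT, CRC, ANT's monotonicity of `c RA`, LPA, LPB). Proof. `Y = c RA`, `Z = c^3 RB`,
`c = sqrt (1-t^2)`; `0 ≤ Y ≤ M`, `0 ≤ Z ≤ M` (the weights are `≤ 1`), `TT = C1 c^(-i) Y^i +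
C2 c^(-(i+2)) Z Y^(i-1)`.  For `p ≤ q ≤ 1/2`, `D = q^2 - p^2`: `Y q ≥ Y p - n M D`, `Z q ≥ Z p - n M D`,
so `Y q ^ i ≥ Y p ^ i - i M^(i-1) n M D` and `Z q Y q^(i-1) ≥ Z p Y p^(i-1) - i M^(i-1) n M D`
(if `Y q ≥ Y p` there is nothing to lose); `c^(-1) ≤ 2`
is nondecreasing in `t`.  Hence `TT q ≥ TT p - K1 D`, `K1 = (C1+C2) 2^(i+2) i n M^i`, and `TT p ≥ C1 h^i`,
so `TT q ≥ TT p (1 - K D)`, `K = K1/(C1 h^i)`.  Take `A = 2 K`, `t1 ≤ t0` with `K t1^2 ≤ 1/2`.  For `B ≥ A`: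
`((1+Bq^2)/(1+Bp^2))^((n+1)/2) ≥ (1+Bq^2)/(1+Bp^2) = 1 + B D/(1+Bp^2)` and
`(1 + B D/(1+Bp^2)) (1 - K D) ≥ 1`, because `B (1 - K q^2) ≥ B/2 ≥ K`. -/
def LocStmt : Prop :=
  ∀ (n i : ℕ) (C1 C2 M h t0 : ℝ), 4 ≤ n → 1 ≤ i → i + 2 ≤ n → 0 < C1 → 0 ≤ C2 → 0 ≤ M → 0 < h →
    0 < t0 → t0 ≤ 1 / 2 →
    ∃ t1 A : ℝ, 0 < t1 ∧ t1 ≤ t0 ∧ 0 ≤ A ∧ ∀ f : ℝ → ℝ, Adm f →
      (∀ t : ℝ, 0 < t → t < 1 → f t ≤ M) →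
      (∀ t : ℝ, 0 ≤ t → t ≤ t0 → h ≤ RA n f (Real.sqrt (1 - t ^ 2))) →
      ∀ B : ℝ, A ≤ B → MonotoneOn (El n (1 + B) (TT n i C1 C2 f)) (Icc 0 t1)

/-- GLU (easy-medium). Proof. On `[t1,1]`: `El n (1+B) g t = (1+Bt^2)^((n+1)/2) t^(-(i+2)) * (t^(i+2) g t)`;
the first factor is nondecreasing on `[t1,1]` (in `x = t^2` the derivative of the logarithm is
`((n+1)/2) B/(1+Bx) - ((i+2)/2)/x`, `≥ 0` iff `(n-1-i) B x ≥ i + 2`).  Glue at `t1`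
(`MonotoneOn.union_right`). -/
def GluStmt : Prop :=
  ∀ (n i : ℕ) (B t1 : ℝ) (g : ℝ → ℝ), 4 ≤ n → 1 ≤ i → i + 2 ≤ n → 0 < t1 → t1 ≤ 1 →
    (i : ℝ) + 2 ≤ B * t1 ^ 2 → (∀ t ∈ Icc (0 : ℝ) 1, 0 ≤ g t) →
    MonotoneOn (El n (1 + B) g) (Icc 0 t1) → MonotoneOn (fun t : ℝ => t ^ (i + 2) * g t) (Icc 0 1) →
    Low n (1 + B) g

/-- LOW (easy, uses INT, YLO, MON, LOC, GLU). Proof. `t0` of YLO, `h = η/2`, `t1`, `A` of LOC,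
`B = max A ((i+2)/t1^2)`; `TT f ≥ 0` by INT; MON needs `El n 0 f` antitone. -/
def LowStmt : Prop :=
  ∀ (n i : ℕ) (C1 C2 κ η M : ℝ), 4 ≤ n → 1 ≤ i → i + 2 ≤ n → 0 < C1 → 0 ≤ C2 → 0 < κ → 0 < η → 0 ≤ M →
    ∃ B : ℝ, 0 ≤ B ∧ ∀ f : ℝ → ℝ, Cls n κ η f → (∀ t : ℝ, 0 < t → t < 1 → f t ≤ M) →
      AntitoneOn (El n 0 f) (Icc 0 1) → Low n (1 + B) (TT n i C1 C2 f)

/-- SVN (easy, uses STG, ANT, LOW, STA). Uniform `Pinch` after seven steps.  Proof. `M` of STG, `B` of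
LOW.  `F 5`, `F 6` are multiples on `[0,1]` of `TT (F 4)`, `TT (F 5)`, so `El n 0 (F 5)`, `El n 0 (F 6)` are
antitone (ANT), and `F 5, F 6 ≤ M` on `(0,1)`.  So `F 6`, `F 7` are multiples of functions with
`Low n (1+B)` (LOW), and STA with `d = B` gives `Upp n (1/(1 + lam B)) (F 7)`; weaken `1/(1+lam B)` to
`1/(1+B)` (as in SCA).  Only the values on `[0,1]` matter. -/
def SvnStmt : Prop :=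
  ∀ (n i : ℕ) (C1 C2 κ η : ℝ), 4 ≤ n → 1 ≤ i → i + 2 ≤ n → 0 < C1 → 0 ≤ C2 → 0 < κ → 0 < η →
    ∃ B : ℝ, 0 ≤ B ∧ ∀ (σ : ℕ → ℝ) (F : ℕ → ℝ → ℝ), (∀ k ≤ 7, Cls n κ η (F k)) →
      (∀ k < 7, 0 ≤ σ k ∧ ∀ t ∈ Icc (0 : ℝ) 1, F (k + 1) t = σ k * TT n i C1 C2 (F k) t) →
      Pinch n B (F 7)

end Pool.Agent.REV
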