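import Pool.Agent.REV.StmtsU
import Pool.Agent.REV.StmtsA2
import Pool.Agent.REV.DefsG

set_option autoImplicit false

/-!
# Squad REV, part V: `i = n - 1` without a density hypothesis (one variable)

COORDINATES.  `m = (n-2)/2 ≥ 1`.  `b ∈ (0, ∞)` is the slope `c / t` of the direction `t e + c m` (`e` the
axis), `cb b = b / √(1+b^2) = c`.  For a profile `f` the function `yb n f b = c RA n f c` is (up to a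
constant) the derivative of `b ↦ hz (zon e f) (e + b m)`; it is nondecreasing in `b`, `yb → RA n f 1` for
`b → ∞`.  `ph = yb^(n-1)`, `dph = ph'`.  Substitution used several times: `x = 1/√(1+β^2)`, `β ∈ (0,∞)`,
`√(1-x^2) = cb β`, `dx = -β (1+β^2)^(-3/2) dβ`; `x < cb b` iff `β > 1/b`, and
`1 - x^2/(cb b)^2 = (β^2/(1+β^2)) (1 - (bβ)^(-2))`.
-/

namespace Pool.Agent.REV

open Set MeasureTheory Filter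
open scoped Topology

/-- `b / √(1+b^2)` -/
noncomputable def cb (b : ℝ) : ℝ := b / Real.sqrt (1 + b ^ 2)

/-- `c RA n f c`, `c = cb b` -/
noncomputable def yb (n : ℕ) (f : ℝ → ℝ) (b : ℝ) : ℝ := cb b * RA n f (cb b)

/-- `c^3 RB n f c`, `c = cb b` -/
noncomputable def zb (n : ℕ) (f : ℝ → ℝ) (b : ℝ) : ℝ := cb b ^ 3 * RB n f (cb b)

/-- `yb^(n-1)` -/
noncomputable def ph (n : ℕ) (f : ℝ → ℝ) (b : ℝ) : ℝ := yb n f b ^ (n - 1)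

/-- the derivative of `ph` -/
noncomputable def dph (n : ℕ) (f : ℝ → ℝ) (b : ℝ) : ℝ :=
  ((n : ℝ) - 1) * yb n f b ^ (n - 2) * (((n : ℝ) - 2) / b ^ 3 * zb n f b)

/-- the height functional: `hz (zon e f) e` up to a constant -/
noncomputable def H0 (n : ℕ) (f : ℝ → ℝ) : ℝ :=
  ∫ x in (0 : ℝ)..1, x * (1 - x ^ 2) ^ (((n : ℝ) - 3) / 2) * f x

/-- `∫_0^1 (1-u^2)^((n-4)/2) du ≤ 1` -/
noncomputable def J0 (n : ℕ) : ℝ := ∫ u in (0 : ℝ)..1, (1 - u ^ 2) ^ (((n : ℝ) - 4) / 2)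

/-- `C / ((n-1)(n-2))` -/
noncomputable def c3 (n : ℕ) (C : ℝ) : ℝ := C / (((n : ℝ) - 1) * ((n : ℝ) - 2))

/-- one step for `i = n - 1` -/
def StU (n : ℕ) (C σ : ℝ) (f f' : ℝ → ℝ) : Prop :=
  ∀ t ∈ Icc (0 : ℝ) 1, f' t = σ * TT n (n - 1) 0 C f t

/-- `1 - (b β)^(-2)` -/
noncomputable def wb (b β : ℝ) : ℝ := 1 - ((b * β) ^ 2)⁻¹

/-- derivative in `s` of `s (1 - (b s)^(-2))^m` -/
noncomputable def psd (n : ℕ) (b s : ℝ) : ℝ :=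
  wb b s ^ (((n : ℝ) - 2) / 2) +
    ((n : ℝ) - 2) * ((b * s) ^ 2)⁻¹ * wb b s ^ (((n : ℝ) - 4) / 2)

/-! ### One density, one step -/

/-- VDR (easy-medium; uses YdrStmt, RbcStmt of StmtsU).  Proof.  `cb' b = (1+b^2)^(-3/2)`, chain rule with
YDR at `c = cb b > 0`: derivative `(n-2) RB(cb b) (1+b^2)^(-3/2)`, and `cb b ^ 3 / b^3 = (1+b^2)^(-3/2)`.
`ph' = dph` by the power rule.  Continuity of `zb` by RBC (`cb` continuous), so `dph` is continuous on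
`(0,∞)`. -/
def VdrStmt : Prop :=
  ∀ (n : ℕ) (f : ℝ → ℝ), 4 ≤ n → Prf f →
    (∀ b : ℝ, 0 < b → HasDerivAt (yb n f) (((n : ℝ) - 2) / b ^ 3 * zb n f b) b ∧
      HasDerivAt (ph n f) (dph n f b) b ∧ 0 ≤ zb n f b ∧ 0 ≤ dph n f b) ∧
    ContinuousOn (zb n f) (Ioi 0) ∧ ContinuousOn (dph n f) (Ioi 0)

/-- VLM (easy-medium; uses VDR, YdrStmt).  Proof.  `RA ≥ 0`; nondecreasing: nonnegative derivative on `(0,∞)` and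
`yb 0 = 0`; `0 ≤ RA ≤ M` (`f ≤ M`, weight `≤ 1`), so `yb b ≤ M cb b ≤ M b`, which gives continuity at `0`; `cb b → 1`
for `b → ∞` and `c RA c` is continuous at `1` (YDR), so `yb → RA 1`, so `yb ≤ RA 1`.  `dph` is integrable on `(0,∞)`
with integral `(RA 1)^(n-1)` (`integrableOn_Ioi_deriv_of_nonneg`, `integral_Ioi_of_hasDerivAt_of_nonneg`), and
on `(B, ∞)` with integral `(RA 1)^(n-1) - ph B`. -/
def VlmStmt : Prop :=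
  ∀ (n : ℕ) (f : ℝ → ℝ), 4 ≤ n → Prf f →
    MonotoneOn (yb n f) (Ici 0) ∧ ContinuousOn (yb n f) (Ici 0) ∧ 0 ≤ RA n f 1 ∧
    (∀ b : ℝ, 0 ≤ b → 0 ≤ yb n f b ∧ yb n f b ≤ RA n f 1) ∧
    (∃ M : ℝ, 0 ≤ M ∧ ∀ b : ℝ, 0 ≤ b → yb n f b ≤ M * b) ∧
    Tendsto (yb n f) atTop (𝓝 (RA n f 1)) ∧
    IntegrableOn (dph n f) (Ioi 0) ∧ ∫ β in Ioi (0 : ℝ), dph n f β = RA n f 1 ^ (n - 1) ∧
    ∀ B : ℝ, 0 ≤ B → ∫ β in Ioi B, dph n f β = RA n f 1 ^ (n - 1) - ph n f B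

/-- VNE (medium; uses CrcStmt (StmtsA2), VDR).  The next density.  Proof.  CRC at `c = cb b`:
`yb n f' b = ∫_0^c (1 - x^2/c^2)^m f' x dx`, substitution `x = 1/√(1+β^2)`
(`MeasureTheory.integral_image_eq_integral_abs_deriv_smul` on `Ioi (1/b)`, image `Ioo 0 c`).  Integrability directly:
`0 ≤ yb, zb ≤ M` (`f ≤ M`), so `dph ≤ (n-1)(n-2) M^(n-1) β^(-3)`.  `f' x = σ C RB(cb β) RA(cb β)^(n-2)` (`√(1-x^2) = cb β`),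
`(1-x^2/c^2)^m = (cb β)^(n-2) wb^m`, `RB = zb/(cb β)^3`, `(cb β)^(n-2) RA^(n-2) = yb^(n-2)`,
`β (1+β^2)^(-3/2) (cb β)^(-3) = β^(-2)`: the integrand is `σ C β^(-2) zb yb^(n-2) wb^m = σ c3 wb^m β dph`.
Second: `x^2 (1-x^2/c^2)^(m-1) = (1+β^2)^(-1) (cb β)^(n-4) wb^(m-1) = β^(-2) (cb β)^(n-2) wb^(m-1)`.  Third: the
same substitution, `x (1-x^2)^((n-3)/2) β (1+β^2)^(-3/2) = (cb β)^(n+1) β^(-3)`, so the integrand is `σ c3 dph`,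
and VLM. -/
def VneStmt : Prop :=
  ∀ (n : ℕ) (C σ : ℝ) (f f' : ℝ → ℝ), 4 ≤ n → 0 ≤ C → 0 ≤ σ → Prf f → Prf f' → StU n C σ f f' →
    (∀ b : ℝ, 0 < b →
      IntegrableOn (fun β : ℝ => wb b β ^ (((n : ℝ) - 2) / 2) * (β * dph n f β)) (Ioi (1 / b)) ∧
      yb n f' b = σ * c3 n C *
        ∫ β in Ioi (1 / b), wb b β ^ (((n : ℝ) - 2) / 2) * (β * dph n f β) ∧
      IntegrableOn (fun β : ℝ => wb b β ^ (((n : ℝ) - 4) / 2) * (β⁻¹ * dph n f β)) (Ioi (1 / b)) ∧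
      zb n f' b = σ * c3 n C *
        ∫ β in Ioi (1 / b), wb b β ^ (((n : ℝ) - 4) / 2) * (β⁻¹ * dph n f β)) ∧
    H0 n f' = σ * c3 n C * RA n f 1 ^ (n - 1)

/-- VTA (easy-medium; uses VDR, VLM, VNE).  Tail.  Proof.  `0 < σ c3`.  VNE at `b = 2/B`: for `β > B` (so
`β > 1/b = B/2`): `wb ≥ 3/4`, so `yb n f' (2/B) ≥ σ c3 (3/4)^m ∫_(β>B) β dph` (integrability from VNE:
`β dph ≤ (4/3)^m wb^m β dph`).  Second: `∫_(s>B) (R^(n-1) - ph s) ds = ∫_(s>B) ∫_(β>s) dph = ∫_(β>B) (β-B) dph`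
(Tonelli), `≤ ∫_(β>B) β dph`. -/
def VtaStmt : Prop :=
  ∀ (n : ℕ) (C σ : ℝ) (f f' : ℝ → ℝ), 4 ≤ n → 0 < C → 0 < σ → Prf f → Prf f' → StU n C σ f f' →
    ∀ B : ℝ, 0 < B →
      IntegrableOn (fun β : ℝ => β * dph n f β) (Ioi B) ∧
      σ * c3 n C * ∫ β in Ioi B, β * dph n f β ≤ (4 / 3) ^ (((n : ℝ) - 2) / 2) * yb n f' (2 / B) ∧
      IntegrableOn (fun s : ℝ => RA n f 1 ^ (n - 1) - ph n f s) (Ioi B) ∧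
      σ * c3 n C * ∫ s in Ioi B, (RA n f 1 ^ (n - 1) - ph n f s) ≤
        (4 / 3) ^ (((n : ℝ) - 2) / 2) * yb n f' (2 / B)

/-- VLI (medium; uses VDR, VLM, VNE, VTA).  Proof.  VNE at `b'` and `b`; for `β > 1/b'` with
`w' = wb b' β ∈ [0,1]`, `w = max 0 (wb b β) ≤ w'`: `w'^m - w^m ≤ m (w' - w) ≤ m β^(-2) (b^(-2) - b'^(-2))`.  So
`yb b' - yb b ≤ σ c3 m (b^(-2) - b'^(-2)) ∫_(β>1/b') β^(-1) dph`.  (1) `β^(-1) ≤ b'^2 β` and VTA with `B = 1/b'`.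
(2) `∫_(β>1/b') β^(-1) dph = ∫_(β>1/b') dph ∫_(s>β) s^(-2) ds ≤ ∫_(s>1/b') s^(-2) ph s ds` (Tonelli,
`∫_(1/b')^s dph ≤ ph s`). -/
def VliStmt : Prop :=
  ∀ (n : ℕ) (C σ : ℝ) (f f' : ℝ → ℝ), 4 ≤ n → 0 < C → 0 < σ → Prf f → Prf f' → StU n C σ f f' →
    ∀ b b' : ℝ, 0 < b → b ≤ b' →
      yb n f' b' - yb n f' b ≤ ((n : ℝ) - 2) / 2 * ((b ^ 2)⁻¹ - (b' ^ 2)⁻¹) *
        (b' ^ 2 * ((4 / 3) ^ (((n : ℝ) - 2) / 2) * yb n f' (2 * b'))) ∧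
      IntegrableOn (fun β : ℝ => (β ^ 2)⁻¹ * ph n f β) (Ioi (1 / b')) ∧
      yb n f' b' - yb n f' b ≤ σ * c3 n C * (((n : ℝ) - 2) / 2) * ((b ^ 2)⁻¹ - (b' ^ 2)⁻¹) *
        ∫ β in Ioi (1 / b'), (β ^ 2)⁻¹ * ph n f β

/-- VPS (easy-medium; uses nothing).  The function `ψ_b(s) = s wb(b,s)^m` on `[1/b, ∞)`.  Proof.  Derivative for
`s > 1/b` (`HasDerivAt.rpow_const`), `ψ_b(1/b) = 0`, `ψ_b` continuous on `[1/b, ∞)`, the derivative is nonnegative, so it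
is integrable on bounded intervals with `∫_(1/b)^β psd = ψ_b(β)`
(`intervalIntegral.integral_eq_sub_of_hasDerivAt_of_le`, `integrableOn_deriv_of_nonneg`).  Bound:
`0 ≤ wb ≤ 1`, `(bs)^(-2) ≤ 1`, both exponents `≥ 0`: `psd ≤ 1 + (n-2)`. -/
def VpsStmt : Prop :=
  ∀ (n : ℕ) (b : ℝ), 4 ≤ n → 0 < b →
    (∀ s : ℝ, 1 / b < s → 0 ≤ psd n b s ∧ psd n b s ≤ n) ∧
    ∀ β : ℝ, 1 / b ≤ β → IntervalIntegrable (psd n b) volume (1 / b) β ∧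
      ∫ s in (1 / b)..β, psd n b s = β * wb b β ^ (((n : ℝ) - 2) / 2)

/-- VEO (medium; uses VDR, VLM, VNE, VTA, VPS).  Proof.  VNE and
`β wb^m = ∫_(1/b)^β psd` (VPS), Tonelli: `∫_(β>1/b) (∫_(1/b)^β psd(s) ds) dph(β) dβ =
∫_(s>1/b) psd(s) (∫_(β>s) dph) ds`, `∫_(β>s) dph = R^(n-1) - ph s` (VLM).  Integrability: `psd ≤ n` (VPS) and
VTA. -/
def VeoStmt : Prop :=
  ∀ (n : ℕ) (C σ : ℝ) (f f' : ℝ → ℝ), 4 ≤ n → 0 < C → 0 < σ → Prf f → Prf f' → StU n C σ f f' →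
    ∀ b : ℝ, 0 < b →
      IntegrableOn (fun s : ℝ => psd n b s * (RA n f 1 ^ (n - 1) - ph n f s)) (Ioi (1 / b)) ∧
      yb n f' b = σ * c3 n C *
        ∫ s in Ioi (1 / b), psd n b s * (RA n f 1 ^ (n - 1) - ph n f s)

/-! ### Two steps -/

/-- VSW (medium; uses nothing).  Swap.  Proof.  `μ := (n-4)/2 ≥ 0`.  All integrands are `≥ 0` where they are
integrated; by Tonelli (`integral_integral_swap` after integrability on the product, or `lintegral_lintegral_swap`)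
the left side is `∫_(β>0) D(β) β^(-1) (∫_(s > max(1/b, 1/β)) s^(-2) W(s) wb(s,β)^μ ds) dβ`, and the inner integral is
`β ∫_(0<u<min(1,b/β)) W(1/(uβ)) (1-u^2)^μ du` by the substitution `s = 1/(uβ)` (`wb(s,β) = 1 - u^2`,
`s^(-2) ds = β du`; `integral_image_eq_integral_abs_deriv_smul`).  `W` is bounded on `(1/b,∞)`, so everything is
finite: the inner integral is `≤ β sup W`, and `D` is integrable. -/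
def VswStmt : Prop :=
  ∀ (n : ℕ) (b M : ℝ) (D W : ℝ → ℝ), 4 ≤ n → 0 < b →
    Measurable D → Measurable W → (∀ β : ℝ, 0 < β → 0 ≤ D β) → IntegrableOn D (Ioi 0) →
    (∀ s : ℝ, 0 < s → 0 ≤ W s ∧ W s ≤ M) →
    IntegrableOn (fun s : ℝ => (s ^ 2)⁻¹ * W s *
      ∫ β in Ioi (1 / s), wb s β ^ (((n : ℝ) - 4) / 2) * (β⁻¹ * D β)) (Ioi (1 / b)) ∧
    ∫ s in Ioi (1 / b), (s ^ 2)⁻¹ * W s *
        ∫ β in Ioi (1 / s), wb s β ^ (((n : ℝ) - 4) / 2) * (β⁻¹ * D β) =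
      ∫ β in Ioi (0 : ℝ), D β *
        ∫ u in Ioo (0 : ℝ) (min 1 (b / β)), W (1 / (u * β)) * (1 - u ^ 2) ^ (((n : ℝ) - 4) / 2)

/-- VKU (medium; uses VDR, VLM, VNE, VSW).  Upper bound of the double step.  Proof.  VNE (step `f1 → f2`):
`yb f2 b = σ1 C ∫_(s>1/b) wb^m s^(-2) zb f1 s yb f1 s^(n-2)` (`c3 β dph = C β^(-2) zb yb^(n-2)`), `wb^m ≤ 1`,
`yb f1 ≤ R1`, and `zb f1 s = σ0 c3 ∫_(β>1/s) wb^((n-4)/2) β^(-1) dph f0`: VSW with `W = 1`, `D = dph f0` (made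
measurable by an indicator of `Ioi 0`): `yb f2 b ≤ σ1 C R1^(n-2) σ0 c3 ∫_(β>0) dph f0 β ∫_(0<u<min(1,b/β)) (1-u^2)^((n-4)/2)`,
the inner integral is `≤ min (J0) (b/β)`.  `J0 ≤ 1`. -/
def VkuStmt : Prop :=
  ∀ (n : ℕ) (C σ0 σ1 : ℝ) (f0 f1 f2 : ℝ → ℝ), 4 ≤ n → 0 < C → 0 < σ0 → 0 < σ1 →
    Prf f0 → Prf f1 → Prf f2 → StU n C σ0 f0 f1 → StU n C σ1 f1 f2 →
    ∀ b : ℝ, 0 < b →
      yb n f2 b ≤ σ0 * σ1 * C * c3 n C * RA n f1 1 ^ (n - 2) *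
        ∫ β in Ioi (0 : ℝ), min (J0 n) (b / β) * dph n f0 β

/-- VKS (easy-medium; uses VDR, VLM).  Proof.  (1) `min ≤ J0` on `(0,B]`, `min ≤ b/β ≤ b/B` on `(B,∞)`, VLM.
(2) `J0 ≤ 1`, `min 1 (b/β) = b ∫_(s > max(b,β)) s^(-2) ds`, Tonelli: `= b ∫_(s>b) s^(-2) (∫_(0<β<s) dph) ds`, and
`∫_(0<β<s) dph = ph s` (`ph 0 = 0`). -/
def VksStmt : Prop :=
  ∀ (n : ℕ) (f : ℝ → ℝ) (b : ℝ), 4 ≤ n → Prf f → 0 < b →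
    IntegrableOn (fun β : ℝ => min (J0 n) (b / β) * dph n f β) (Ioi 0) ∧
    (∀ B : ℝ, 0 < B → ∫ β in Ioi (0 : ℝ), min (J0 n) (b / β) * dph n f β ≤
      J0 n * ph n f B + b / B * RA n f 1 ^ (n - 1)) ∧
    IntegrableOn (fun β : ℝ => (β ^ 2)⁻¹ * ph n f β) (Ioi b) ∧
    ∫ β in Ioi (0 : ℝ), min (J0 n) (b / β) * dph n f β ≤
      b * ∫ β in Ioi b, (β ^ 2)⁻¹ * ph n f β

/-- VKL (medium; uses VDR, VLM, VNE, VSW).  Lower bound of the double step at `b = ∞`.  Proof.  As VKU, for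
`b ≥ 1`: `yb f2 b = σ1 C ∫_(s>1/b) wb(b,s)^m s^(-2) zb f1 s yb f1 s^(n-2)`; let `b → ∞` (monotone convergence or
Fatou; `wb(b,s)^m → 1`, `yb f2 b ≤ RA f2 1`): for every `b0 > 0`,
`RA f2 1 ≥ σ1 C ∫_(s>1/b0) s^(-2) zb f1 s yb f1 s^(n-2)`, and by VSW with `W = yb f1 ^(n-2)` (cut off outside
`Ioi 0`) `= σ0 σ1 C c3 ∫_(β>0) dph f0 β ∫_(0<u<min(1,b0/β)) yb f1 (1/(uβ))^(n-2) (1-u^2)^((n-4)/2)`.  For
`β ≤ B ≤ b0` the inner domain is `(0,1)` and `yb f1 (1/(uβ)) ≥ yb f1 (1/β)`; so the inner integral is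
`≥ J0 yb f1 (1/ε)^(n-2)` for `β ≤ ε` and `≥ J0 yb f1 (1/B)^(n-2)` for `ε < β ≤ B`. -/
def VklStmt : Prop :=
  ∀ (n : ℕ) (C σ0 σ1 : ℝ) (f0 f1 f2 : ℝ → ℝ), 4 ≤ n → 0 < C → 0 < σ0 → 0 < σ1 →
    Prf f0 → Prf f1 → Prf f2 → StU n C σ0 f0 f1 → StU n C σ1 f1 f2 →
    ∀ ε B : ℝ, 0 < ε → ε ≤ B →
      σ0 * σ1 * C * c3 n C * J0 n * (yb n f1 (1 / B) ^ (n - 2) * (ph n f0 B - ph n f0 ε) +
        yb n f1 (1 / ε) ^ (n - 2) * ph n f0 ε) ≤ RA n f2 1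

/-! ### The limit -/

/-- nondecreasing nonnegative functions on `[0,∞)` whose integrals converge to `E` -/
def Lmt (E : ℝ → ℝ) (Y : ℕ → ℝ → ℝ) : Prop :=
  (∀ k, MonotoneOn (Y k) (Ici 0)) ∧ (∀ k, ∀ b : ℝ, 0 ≤ b → 0 ≤ Y k b) ∧
    ∀ b : ℝ, 0 ≤ b → Tendsto (fun k => ∫ s in (0 : ℝ)..b, Y k s) atTop (𝓝 (E b))

/-- LMM (medium; uses nothing).  Proof.  For `0 ≤ b < b'`: `(b'-b) Y_k(b) ≤ ∫_b^b' Y_k ≤ (b'-b) Y_k(b')`; in the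
limit the slopes `S(b,b') = (E b' - E b)/(b'-b)` satisfy `S(b,b') ≤ S(b',b'')`, they are `≥ 0`.  `y b := inf_(b'>b) S(b,b')`
(`b ≥ 0`); `y b ≤ S(b,b') ≤ y b'` for `b < b'`, so `y` is nondecreasing, `≥ 0`.  For every `Y` with `Lmt E Y` and `b > 0`:
`limsup Y_k b ≤ S(b,b')` for all `b' > b`, so `≤ y b`; `liminf Y_k b ≥ S(b'',b) ≥ y b''` for all `b'' < b`.  So
`Y_k b → y b` at the points of continuity; `D` = discontinuities, countable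
(`MonotoneOn.countable_not_continuousWithinAt`).  `E b = ∫_0^b y`: dominated convergence (`Y_k ≤ Y_k b`, bounded in
`k` by `limsup ≤ y b`), `Y_k → y` a.e. -/
def LmmStmt : Prop :=
  ∀ (E : ℝ → ℝ) (Y0 : ℕ → ℝ → ℝ), Lmt E Y0 →
    ∃ (y : ℝ → ℝ) (D : Set ℝ), D.Countable ∧ MonotoneOn y (Ioi 0) ∧ (∀ b : ℝ, 0 < b → 0 ≤ y b) ∧
      (∀ b : ℝ, 0 ≤ b → IntervalIntegrable y volume 0 b ∧ E b = ∫ s in (0 : ℝ)..b, y s) ∧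
      ∀ Y : ℕ → ℝ → ℝ, Lmt E Y → ∀ b : ℝ, 0 < b → b ∉ D →
        Tendsto (fun k => Y k b) atTop (𝓝 (y b))

/-- The limit data: `Y k j = yb (F k j)`, `σ k j → σ`, radii `RA (F k j) 1 → R`, `y` the limit off the
countable set `D`, `j = 0, 1, 2`. -/
structure LD (n : ℕ) (C σ R : ℝ) (F : ℕ → ℕ → ℝ → ℝ) (s : ℕ → ℕ → ℝ) (y : ℝ → ℝ) (D : Set ℝ) :
    Prop where
  prf : ∀ k j, Prf (F k j)
  spos : ∀ k j, 0 < s k j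
  st : ∀ k j, j ≤ 1 → StU n C (s k j) (F k j) (F k (j + 1))
  slim : ∀ j ≤ 1, Tendsto (fun k => s k j) atTop (𝓝 σ)
  rlim : ∀ j ≤ 2, Tendsto (fun k => RA n (F k j) 1) atTop (𝓝 R)
  cnt : D.Countable
  mono : MonotoneOn y (Ioi 0)
  nonneg : ∀ b : ℝ, 0 < b → 0 ≤ y b
  ylim : ∀ j ≤ 2, ∀ b : ℝ, 0 < b → b ∉ D → Tendsto (fun k => yb n (F k j) b) atTop (𝓝 (y b))
  top : Tendsto y atTop (𝓝 R)

/-- VAB (medium; uses VLM, VKU, VKS, VKL).  The alternative.  Proof.  `y ≤ R`.  `a := inf y`, `L = σ^2 C c3 J0`,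
`0 ≤ a ≤ R`.  (I) VKU, VKS (1) in the limit: `y b ≤ σ^2 C c3 R^(n-2) (J0 y(B)^(n-1) + (b/B) R^(n-1))` for
`b, B ∉ D`; `b → 0`, then `B → 0`: `a ≤ L R^(n-2) a^(n-1)`.  (II) VKL in the limit
(`ε, B, 1/ε, 1/B ∉ D`), then `B → ∞`, `ε → 0`: `R ≥ L (a^(n-2) (R^(n-1) - a^(n-1)) + R^(n-2) a^(n-1))`.  If `a > 0`:
`x = a/R ∈ (0,1]`, `μ = L (aR)^(n-2) ≥ 1` by (I); (II) divided by `R`: `1 ≥ μ (1 - x^(n-1) + x) ≥ 1 - x^(n-1) + x`,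
so `x^(n-1) ≥ x`, `x = 1`, `y = R` on `(0,∞)`. -/
def VabStmt : Prop :=
  ∀ (n : ℕ) (C σ R : ℝ) (F : ℕ → ℕ → ℝ → ℝ) (s : ℕ → ℕ → ℝ) (y : ℝ → ℝ) (D : Set ℝ), 4 ≤ n →
    0 < C → 0 < σ → 0 < R → LD n C σ R F s y D →
    (∀ b : ℝ, 0 < b → y b = R) ∨ (∀ ε : ℝ, 0 < ε → ∃ b : ℝ, 0 < b ∧ y b < ε)

/-- VST (medium; uses VLM, VKU, VKS).  Proof.  VKU, VKS (2): `yb F2 b ≤ s0 s1 C c3 R1^(n-2) b ∫_(β>b) β^(-2) ph F0 β`;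
dominated convergence (`ph ≤ (sup_k RA)^(n-1)`, `β^(-2)` integrable on `(b,∞)`) for `b ∉ D`; for `b ∈ D` take
`b' > b`, `b' ∉ D`, `b' → b`.  `y` is measurable on `Ioi 0` (monotone). -/
def VstStmt : Prop :=
  ∀ (n : ℕ) (C σ R : ℝ) (F : ℕ → ℕ → ℝ → ℝ) (s : ℕ → ℕ → ℝ) (y : ℝ → ℝ) (D : Set ℝ), 4 ≤ n →
    0 < C → 0 < σ → 0 < R → LD n C σ R F s y D →
    ∃ D0 : ℝ, 0 < D0 ∧ ∀ b : ℝ, 0 < b → IntegrableOn (fun β : ℝ => (β ^ 2)⁻¹ * y β ^ (n - 1)) (Ioi b) ∧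
      y b ≤ D0 * (b * ∫ β in Ioi b, (β ^ 2)⁻¹ * y β ^ (n - 1))

/-- BSV (medium; uses nothing).  Proof.  `k = n - 1 ≥ 3`.  Let `q > 0` be such that `D0 y(q)^(k-1) ≤ 1/8`
(inf `y` is `0`), `U = ∫_(β>q) β^(-2) y^k ≤ R^k/q`.  For `p ∈ (0,q)` let
`M_p = sup_(p ≤ b ≤ q) b^(-1/2) y b ≤ R p^(-1/2)`.  For `p ≤ b ≤ q`:
`y b ≤ D0 b (U + ∫_(b<β≤q) β^(-2) y^(k-1)(q) y β dβ) ≤ D0 b U + (1/8) b M_p ∫_(β>b) β^(-3/2) = D0 b U + (1/4) M_p b^(1/2)`,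
so `b^(-1/2) y b ≤ D0 q^(1/2) U + M_p/4`, `M_p ≤ (4/3) D0 q^(1/2) U =: M` independent of `p`.  So `y b ≤ M b^(1/2)` on
`(0,q]`, `β^(-2) y^k ≤ M^k β^(k/2-2)`, integrable at `0` (`k/2 - 2 ≥ -1/2`): `∫_(β>0) β^(-2) y^k < ∞`, `y b ≤ C b`. -/
def BsvStmt : Prop :=
  ∀ (n : ℕ) (R D0 : ℝ) (y : ℝ → ℝ), 4 ≤ n → 0 < D0 → MonotoneOn y (Ioi 0) →
    (∀ b : ℝ, 0 < b → 0 ≤ y b ∧ y b ≤ R) → (∀ ε : ℝ, 0 < ε → ∃ b : ℝ, 0 < b ∧ y b < ε) →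
    (∀ b : ℝ, 0 < b → IntegrableOn (fun β : ℝ => (β ^ 2)⁻¹ * y β ^ (n - 1)) (Ioi b) ∧
      y b ≤ D0 * (b * ∫ β in Ioi b, (β ^ 2)⁻¹ * y β ^ (n - 1))) →
    ∃ K : ℝ, 0 ≤ K ∧ ∀ b : ℝ, 0 < b → y b ≤ K * b

/-- VLL (medium; uses VLM, VLI).  Proof.  `Y_k = yb (F k 1)`.  First inequality of VLI in the limit (`b, b', 2b' ∉ D`),
`y(2b') ≤ 2 K b'`: `y b' - y b ≤ K1 (b^(-2) - b'^(-2)) b'^3`.  Second:
`∫_(β>1/b') β^(-2) ph ≤ ...` converges (dominated, `ph ≤ sup^(n-1)`) to `∫_(β>1/b') β^(-2) y^(n-1) ≤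
∫_(β>0) β^(-2) min(R^(n-1), (Kβ)^(n-1)) =: K2 < ∞` (`n - 1 ≥ 2`).  So for `b, b' ∉ D`, `b ≤ b' ≤ 2b`:
`y b' - y b ≤ K3 (b^(-2) - b'^(-2)) min(1, b'^3) ≤ K4 min(1, b^(-3)) (b' - b)`
(`b^(-2) - b'^(-2) = (b'-b)(b'+b)/(b^2 b'^2) ≤ 3 (b'-b) b^(-3)`, `b'^3 ≤ 8 b^3`).  For
`b` or `b'` in `D`: approximate from outside (`y` monotone). -/
def VllStmt : Prop :=
  ∀ (n : ℕ) (C σ R K : ℝ) (F : ℕ → ℕ → ℝ → ℝ) (s : ℕ → ℕ → ℝ) (y : ℝ → ℝ) (D : Set ℝ), 4 ≤ n →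
    0 < C → 0 < σ → 0 < R → LD n C σ R F s y D → 0 ≤ K → (∀ b : ℝ, 0 < b → y b ≤ K * b) →
    ∃ K' : ℝ, 0 ≤ K' ∧ ∀ b b' : ℝ, 0 < b → b ≤ b' → b' ≤ 2 * b →
      y b' - y b ≤ K' * min 1 ((b ^ 3)⁻¹) * (b' - b)

/-- VEL (medium; uses VLM, VPS, VEO, VTA).  Proof.  VEO for `F k 0 → F k 1`, `b ∉ D`:
on `(1/b, B)` dominated convergence (`psd ≤ n`, `0 ≤ R_k^(n-1) - ph ≤ R_k^(n-1)`), the tail
`s c3 ∫_(s>B) psd (R_k^(n-1) - ph) ≤ n (4/3)^m yb (F k 1) (2/B) → n (4/3)^m y(2/B) ≤ n (4/3)^m 2K/B` (VTA, `2/B ∉ D`); Fatou for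
the limit tail.  So `y b = σ c3 ∫_(s>1/b) psd (R^(n-1) - y^(n-1))` for `b ∉ D`; the integral with `B = ∞` is finite.
(Only `b ∉ D` is claimed.) -/
def VelStmt : Prop :=
  ∀ (n : ℕ) (C σ R K : ℝ) (F : ℕ → ℕ → ℝ → ℝ) (s : ℕ → ℕ → ℝ) (y : ℝ → ℝ) (D : Set ℝ), 4 ≤ n →
    0 < C → 0 < σ → 0 < R → LD n C σ R F s y D → 0 ≤ K → (∀ b : ℝ, 0 < b → y b ≤ K * b) →
    ∀ b : ℝ, 0 < b → b ∉ D →
      IntegrableOn (fun s : ℝ => psd n b s * (R ^ (n - 1) - y s ^ (n - 1))) (Ioi (1 / b)) ∧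
      y b = σ * c3 n C * ∫ s in Ioi (1 / b), psd n b s * (R ^ (n - 1) - y s ^ (n - 1))

/-- FTL (easy-medium; uses nothing).  Proof.  `y` is locally Lipschitz on `(0,∞)` (chain the hypothesis), so it is
absolutely continuous on compact intervals: `d := |deriv y|` or `max 0 (deriv y)` on `Ioi 0`, `0` elsewhere
(`AbsolutelyContinuousOnInterval` / `LipschitzOnWith` FTC), or: the Stieltjes measure of `y` is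
`≤ K' * volume` locally, `d` = its density.  At points of differentiability `0 ≤ y' ≤ K' min 1 (b^(-3))`; elsewhere set
`d = 0`. -/
def FtlStmt : Prop :=
  ∀ (K' : ℝ) (y : ℝ → ℝ), 0 ≤ K' → MonotoneOn y (Ioi 0) →
    (∀ b b' : ℝ, 0 < b → b ≤ b' → b' ≤ 2 * b → y b' - y b ≤ K' * min 1 ((b ^ 3)⁻¹) * (b' - b)) →
    ContinuousOn y (Ioi 0) ∧
    ∃ d : ℝ → ℝ, Measurable d ∧ (∀ b : ℝ, 0 < b → 0 ≤ d b ∧ d b ≤ K' * min 1 ((b ^ 3)⁻¹)) ∧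
      ∀ b b' : ℝ, 0 < b → b ≤ b' → y b' - y b = ∫ s in b..b', d s

/-- VPD (easy-medium; uses nothing).  Proof.  `y` is bounded, continuous, with density `d`; the function `y^(n-1)` has the
density `(n-1) y^(n-2) d` (absolutely continuous; e.g. integration by parts / Fubini induction on the power: if
`g' = dg`, `h' = dh` in the integrated sense then `(gh)' = g dh + h dg`).  Let `b' → ∞`: `R^(n-1) - y(b)^(n-1) =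
∫_(β>b) (n-1) y^(n-2) d`, integrable because `0 ≤ d ≤ K' min 1 β^(-3)`; let `b → 0`
(`y ≤ K b`). -/
def VpdStmt : Prop :=
  ∀ (n : ℕ) (R K K' : ℝ) (y d : ℝ → ℝ), 4 ≤ n → 0 ≤ K → 0 ≤ K' → MonotoneOn y (Ioi 0) →
    ContinuousOn y (Ioi 0) → (∀ b : ℝ, 0 < b → 0 ≤ y b ∧ y b ≤ K * b ∧ y b ≤ R) →
    Tendsto y atTop (𝓝 R) → Measurable d →
    (∀ b : ℝ, 0 < b → 0 ≤ d b ∧ d b ≤ K' * min 1 ((b ^ 3)⁻¹)) →
    (∀ b b' : ℝ, 0 < b → b ≤ b' → y b' - y b = ∫ s in b..b', d s) →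
    IntegrableOn (fun β : ℝ => ((n : ℝ) - 1) * y β ^ (n - 2) * d β) (Ioi 0) ∧
    (∫ β in Ioi (0 : ℝ), ((n : ℝ) - 1) * y β ^ (n - 2) * d β) = R ^ (n - 1) ∧
    ∀ b : ℝ, 0 < b →
      (∫ β in Ioi b, ((n : ℝ) - 1) * y β ^ (n - 2) * d β) = R ^ (n - 1) - y b ^ (n - 1)

/-- VGF (medium; uses VPS, VPD, CrcStmt).  The density.  Proof.  For `x ∈ (0,1)`, `β = √(1-x^2)/x` put
`f x = σ c3 (1-x^2)^(-(n+1)/2) (n-1) y(β)^(n-2) d(β) β^3`, `f = 0` elsewhere.  Bounded: `(1-x^2)^(-1/2) = √(1+β^2)/β`,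
`(1+β^2)^((n+1)/2) β^(-(n+1)) β^3 y^(n-2) d`: for `β ≤ 1` `≤ 2^((n+1)/2) β^(2-n) (Kβ)^(n-2) K'`; for `β ≥ 1`
`≤ 2^((n+1)/2) β^3 R^(n-2) K' β^(-3)`.  Measurable: `y` restricted to `Ioi 0` is monotone (use an indicator).
`yb n f b`: CRC and the substitution `x = 1/√(1+β^2)` as in VNE: `yb n f b = σ c3 ∫_(β>1/b) wb^m β (n-1) y^(n-2) d dβ`,
then `β wb^m = ∫_(1/b)^β psd` (VPS), Tonelli and VPD:
`= σ c3 ∫_(s>1/b) psd(s) (R^(n-1) - y(s)^(n-1)) ds = y b` by hypothesis (first for `b ∉ D`, then for all `b > 0`: `yb n f` and `y`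
are continuous on `(0,∞)`, `D` countable).  `H0 n f = σ c3 ∫_(β>0) (n-1) y^(n-2) d = σ c3 R^(n-1)`. -/
def VgfStmt : Prop :=
  ∀ (n : ℕ) (C σ R K K' : ℝ) (y d : ℝ → ℝ) (D : Set ℝ), 4 ≤ n → 0 < C → 0 < σ → 0 < R →
    0 ≤ K → 0 ≤ K' → D.Countable → MonotoneOn y (Ioi 0) → ContinuousOn y (Ioi 0) →
    (∀ b : ℝ, 0 < b → 0 ≤ y b ∧ y b ≤ K * b ∧ y b ≤ R) → Tendsto y atTop (𝓝 R) → Measurable d →
    (∀ b : ℝ, 0 < b → 0 ≤ d b ∧ d b ≤ K' * min 1 ((b ^ 3)⁻¹)) →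
    (∀ b b' : ℝ, 0 < b → b ≤ b' → y b' - y b = ∫ s in b..b', d s) →
    (∀ b : ℝ, 0 < b → b ∉ D →
      IntegrableOn (fun s : ℝ => psd n b s * (R ^ (n - 1) - y s ^ (n - 1))) (Ioi (1 / b)) ∧
      y b = σ * c3 n C * ∫ s in Ioi (1 / b), psd n b s * (R ^ (n - 1) - y s ^ (n - 1))) →
    ∃ f : ℝ → ℝ, Prf f ∧ (∀ b : ℝ, 0 < b → yb n f b = y b) ∧ H0 n f = σ * c3 n C * R ^ (n - 1)

/-- VAL (easy-medium; uses VLM, VNE, LMM, VAB, VST, BSV, VLL, VEL, FTL, VGF).  **The one variable theorem.**  Here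
`η b = h_K(e + b m)`, `κ1, κ0 > 0` the constants of `hz (zon e φ) (e + b m) = κ0 H0 φ + κ1 ∫_0^b yb φ`.
Proof.  `E b = (η b - η 0)/κ1`, `Y k = yb (F k j)` satisfies `Lmt E Y` for `j = 0,1,2` (hypothesis at `b` and at `0`; VLM).
LMM gives `y`, `D`.  `s k j → σ := η 0 / (κ0 c3 (R/κ1)^(n-1))` for `j ≤ 1`: VNE, `κ0 H0 (F k (j+1)) = κ0 s c3 RA(F k j)1^(n-1) → η 0`.
`y → R/κ1`: `y` is nondecreasing and `∫_0^b y / b = (η b - η 0)/(κ1 b) → R/κ1`.  So `LD n C σ (R/κ1) F s y D`.  VAB: if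
`y = R/κ1`: `η b = η 0 + R b`.  Otherwise VST, BSV, VLL, FTL, VEL, VGF: `f` with `yb n f = y` on `(0,∞)` and
`κ0 H0 f = η 0`, so `η b = η 0 + κ1 ∫_0^b y = κ0 H0 f + κ1 ∫_0^b yb n f`. -/
def ValStmt : Prop :=
  ∀ (n : ℕ) (C κ0 κ1 R : ℝ) (η : ℝ → ℝ) (F : ℕ → ℕ → ℝ → ℝ) (s : ℕ → ℕ → ℝ), 4 ≤ n →
    0 < C → 0 < κ0 → 0 < κ1 → 0 < R → 0 < η 0 →
    (∀ k j, Prf (F k j)) → (∀ k j, 0 < s k j) →
    (∀ k j, j ≤ 1 → StU n C (s k j) (F k j) (F k (j + 1))) →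
    (∀ j ≤ 2, ∀ b : ℝ, 0 ≤ b → Tendsto (fun k => κ0 * H0 n (F k j) +
      κ1 * ∫ t in (0 : ℝ)..b, yb n (F k j) t) atTop (𝓝 (η b))) →
    (∀ j ≤ 2, Tendsto (fun k => κ1 * RA n (F k j) 1) atTop (𝓝 R)) →
    Tendsto (fun b => η b / b) atTop (𝓝 R) →
    (∀ b : ℝ, 0 ≤ b → η b = η 0 + R * b) ∨
    ∃ f : ℝ → ℝ, Prf f ∧ ∀ b : ℝ, 0 ≤ b → η b = κ0 * H0 n f + κ1 * ∫ t in (0 : ℝ)..b, yb n f t

end Pool.Agent.REV
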