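import Pool.Agent.REV.DefsS

set_option autoImplicit false

/-!
# Squad REV, part A1, general forms: `g ≥ 0`, `q = 1 + (g-1) c^2 > 0`

The rows TAU, CHV, CVA, CVB, MRA of StmtsA1.lean, with `g = 0` (then `c < 1`) included.
`D ρ = 1 + (g-1) c^2 (1-ρ^2) = ρ^2 + q (1-ρ^2) + ...` is positive for `ρ` in `[0,1]`.
-/

namespace Pool.Agent.REV

open Set

/-- the admissible `c` -/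
def Sg (g : ℝ) : Set ℝ := {c | 0 ≤ c ∧ c ≤ 1 ∧ 0 < 1 + (g - 1) * c ^ 2}

/-- TAUG -/
def TaugStmt : Prop :=
  ∀ g : ℝ, 0 ≤ g →
    (∀ c ρ : ℝ, c ∈ Sg g → 0 ≤ ρ → ρ ≤ 1 →
      0 < 1 + (g - 1) * c ^ 2 * (1 - ρ ^ 2) ∧ ta g c ρ ∈ Icc (0 : ℝ) 1) ∧
    (∀ c c' ρ : ℝ, c ∈ Sg g → c' ∈ Sg g → c ≤ c' → 0 ≤ ρ → ρ ≤ 1 → ta g c ρ ≤ ta g c' ρ) ∧
    (∀ c ρ ρ' : ℝ, c ∈ Sg g → 0 ≤ ρ → ρ ≤ ρ' → ρ' ≤ 1 → ta g c ρ ≤ ta g c ρ')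

/-- CHVG -/
def ChvgStmt : Prop :=
  ∀ g c : ℝ, 0 < 1 + (g - 1) * c ^ 2 → ∀ F : ℝ → ℝ,
    ∫ r in (0 : ℝ)..1, F r =
      ∫ ρ in (0 : ℝ)..1, (1 + (g - 1) * c ^ 2) *
        (1 + (g - 1) * c ^ 2 * (1 - ρ ^ 2)) ^ (-(3 / 2) : ℝ) *
        F (ρ / Real.sqrt (1 + (g - 1) * c ^ 2 * (1 - ρ ^ 2)))

/-- CVAG -/
def CvagStmt : Prop :=
  ∀ (n : ℕ) (g c : ℝ) (f : ℝ → ℝ), 0 < 1 + (g - 1) * c ^ 2 →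
    RA n f c = (1 + (g - 1) * c ^ 2) ^ (-(1 / 2) : ℝ) * RA' n g f c

/-- CVBG -/
def CvbgStmt : Prop :=
  ∀ (n : ℕ) (g c : ℝ) (f : ℝ → ℝ), 0 < 1 + (g - 1) * c ^ 2 →
    RB n f c = (1 + (g - 1) * c ^ 2) ^ (-(3 / 2) : ℝ) * RB' n g f c

/-- MRAG -/
def MragStmt : Prop :=
  ∀ (n : ℕ) (g : ℝ) (f : ℝ → ℝ), 4 ≤ n → 0 ≤ g → (∀ t ∈ Icc (0 : ℝ) 1, 0 ≤ f t) →
    (∀ c ∈ Sg g, 0 ≤ RA' n g f c ∧ 0 ≤ RB' n g f c) ∧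
    (Low n g f → MonotoneOn (RA' n g f) (Sg g) ∧ MonotoneOn (RB' n g f) (Sg g)) ∧
    (Upp n g f → AntitoneOn (RA' n g f) (Sg g) ∧ AntitoneOn (RB' n g f) (Sg g))

end Pool.Agent.REV
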