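import Pool.Agent.BPH.Stmts

set_option autoImplicit false

/-!
# Squad REV, part G: the step of BPH has an explicit density (Blaschke-Petkantschin)

`n = finrank ℝ E`.  Everything here is for arbitrary densities, no symmetry.  All facts of
`Pool/Agent/BPH/Stmts.lean` are proved there (`Pool.Agent.BPH.sph_facts : SPH`, `gwa : GWAStmt`,
`gwb gwa : GWB`, `spi sph_facts : SPIStmt`, `ppm : PPMStmt`, `haa : HAAStmt`, `uni sph_facts : UNI`
in `BPH/{Sph,Gwa,Gwb,Spi,PpmB,Haa,Uni}.lean`) and may be imported and used freely; see also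
`BPH/Fob.lean` (`exists_iso`, `mS_map`, `integral_iso`, `integral_right`), `BPH/Avg.lean`
(`perp_map`, `pp_map`, `meas_nrm`, `norm_nrm`), `BPH/Tex.lean` (`tex_mS_meas`, `tex_mS_bdd`),
`BPH/PpmB.lean` (`po_formula`, `pp_cns`, `pp_zero`, `measurable_po'`), `BPH/Bkk.lean`,
`BPH/Foa.lean` (`foa_ext`).
-/

open MeasureTheory Module Set Filter
open scoped RealInnerProductSpace Pointwise Topology ENNReal

namespace Pool.Agent.REV

open Pool.Agent.BPH Pool.Agent.Helper55_PB Pool.Agent.Helper28_PB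

section defs

variable {E : Type} [NormedAddCommGroup E] [InnerProductSpace ℝ E] [FiniteDimensional ℝ E]
  [MeasurableSpace E] [BorelSpace E]

/-- mean over `i` independent uniform unit vectors of the subspace `U` -/
noncomputable def mP (U : Submodule ℝ E) (i : ℕ) (Ψ : (Fin i → E) → ℝ) : ℝ :=
  ∫ x, Ψ (fun l => nrm (U.starProjection (x l))) ∂sphP E i

/-- the density of the step, up to a constant: mean of `gw ^ 2 ∏ f` over the unit sphere of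
`u^⊥` -/
noncomputable def QQ (i : ℕ) (f : E → ℝ) (u : E) : ℝ :=
  mP (ℝ ∙ u)ᗮ i (fun w => gw w ^ 2 * ∏ l, f (w l))

end defs

/-- bounded measurable functions -/
def BM {α : Type} [MeasurableSpace α] (g : α → ℝ) : Prop := Measurable g ∧ ∃ C, ∀ x, |g x| ≤ C

/-- the weight integral `∫_V ∫_0^∞ 1_{r² + |z|² < 1} r ^ k Γ(r / s, z / s)`, `s = √(r² + |z|²)` -/
noncomputable def Jw {V : Type} [NormedAddCommGroup V] [InnerProductSpace ℝ V] [MeasurableSpace V]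
    [BorelSpace V] [FiniteDimensional ℝ V] (k : ℕ) (Γ : ℝ × V → ℝ) : ℝ :=
  ∫ z : V, ∫ r in Ioi (0 : ℝ), if r ^ 2 + ‖z‖ ^ 2 < 1 then
    r ^ k * Γ (r / Real.sqrt (r ^ 2 + ‖z‖ ^ 2), (Real.sqrt (r ^ 2 + ‖z‖ ^ 2))⁻¹ • z) else 0

/-- (MSU) (easy; uses nothing).  The mean over the unit sphere of `U` is the mean with respect to
`sph U`.  PROOF.  `haa` for the space `U`: `lam`; a unit vector `y : U` (`U ≠ ⊥`); `UNI.sub`:
`∫ h, φ (h y) ∂lam = mS U φ`, `UNI.all` in the space `U` for `fun y => φ (y : E)`: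
`∫ h, φ (h y) ∂lam = ∫ y : U, φ y ∂sph U`. -/
def MsuStmt : Prop :=
  ∀ {E : Type} [NormedAddCommGroup E] [InnerProductSpace ℝ E] [FiniteDimensional ℝ E]
    [MeasurableSpace E] [BorelSpace E] (U : Submodule ℝ E), U ≠ ⊥ → ∀ φ : E → ℝ, Tst φ →
    mS U φ = ∫ y : U, φ (y : E) ∂sph U

/-- (RAD) (easy-medium; uses nothing).  In the unit ball radius and direction are independent.
PROOF.  First claim: `SPH.ball` with `R = 1` (for `F + C ≥ 0` and `ENNReal.ofReal`, or by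
`sph E = map nrm (cond ..)`).  Second claim: for `‖x‖ < 1` `1 - ‖x‖ = ∫ t in 0..1, 1_{‖x‖ < t}`, so by
Fubini `∫ x in ball 0 1, (1 - ‖x‖) * F (nrm x) = ∫ t in 0..1, ∫ x in ball 0 t, F (nrm x)
= (∫ t in 0..1, t ^ n) vol(ball 0 1) ∫ F dsph` (`SPH.ball`, `Measure.addHaar_ball`), so
`c = vol(ball 0 1) (1 - 1/(n+1)) > 0` (`Nontrivial E`: `n ≥ 1`). -/
def RadStmt : Prop :=
  ∀ (E : Type) [NormedAddCommGroup E] [InnerProductSpace ℝ E] [FiniteDimensional ℝ E]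
    [MeasurableSpace E] [BorelSpace E] [Nontrivial E],
    (∀ F : E → ℝ, Tst F → ∫ x in Metric.ball (0 : E) 1, F (nrm x) =
      (volume (Metric.ball (0 : E) 1)).toReal * ∫ x, F x ∂sph E) ∧
    ∃ c : ℝ, 0 < c ∧ ∀ F : E → ℝ, Tst F →
      ∫ x in Metric.ball (0 : E) 1, ‖x‖ * F (nrm x) = c * ∫ x, F x ∂sph E

/-- (DEC) (easy-medium; uses nothing).  Orthogonal decomposition.  PROOF.  `(y, z) ↦ A y + B z` is a
linear isometry from `WithLp 2 (X × V)` (Pythagoras), surjective by the dimensions, so a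
`LinearIsometryEquiv` (`LinearIsometry.toLinearIsometryEquiv`), which preserves the volume
(`LinearIsometryEquiv.measurePreserving`), and so does `WithLp.volume_preserving_toLp`; then
`integral_prod` / `integral_prod_symm`. -/
def DecStmt : Prop :=
  ∀ (E X V : Type) [NormedAddCommGroup E] [InnerProductSpace ℝ E] [FiniteDimensional ℝ E]
    [MeasurableSpace E] [BorelSpace E] [NormedAddCommGroup X] [InnerProductSpace ℝ X]
    [FiniteDimensional ℝ X] [MeasurableSpace X] [BorelSpace X] [NormedAddCommGroup V]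
    [InnerProductSpace ℝ V] [FiniteDimensional ℝ V] [MeasurableSpace V] [BorelSpace V]
    (A : X →ₗᵢ[ℝ] E) (B : V →ₗᵢ[ℝ] E), (∀ y z, ⟪A y, B z⟫ = 0) →
    finrank ℝ X + finrank ℝ V = finrank ℝ E → ∀ F : E → ℝ, Integrable F →
    ∫ x, F x = ∫ z : V, ∫ y : X, F (A y + B z)

/-- (RLE) (medium; uses DEC).  The law of the two components in the ball.
PROOF.  DEC for the integrable function `x ↦ 1_ball(x) ‖x‖ ^ q Ψ(nrm x)`.  For `x = A y + B z`, `s = ‖x‖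
= √(‖y‖² + ‖z‖²)`: `nrm x = A (s⁻¹ y) + B (s⁻¹ z)`, so for `s ≠ 0` `‖x‖ ^ q Ψ(nrm x) = s ^ q ‖y/s‖ ^ q Γ(‖y‖/s, z/s)
= ‖y‖ ^ q Γ(‖y‖ / s, z / s)`; this is a radial function of `y`: Mathlib's
`MeasureTheory.integral_fun_norm_addHaar` (polar coordinates in `X`, `Nontrivial X`). -/
def RleStmt : Prop :=
  ∀ (E X V : Type) [NormedAddCommGroup E] [InnerProductSpace ℝ E] [FiniteDimensional ℝ E]
    [MeasurableSpace E] [BorelSpace E] [NormedAddCommGroup X] [InnerProductSpace ℝ X]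
    [FiniteDimensional ℝ X] [MeasurableSpace X] [BorelSpace X] [Nontrivial X]
    [NormedAddCommGroup V] [InnerProductSpace ℝ V] [FiniteDimensional ℝ V] [MeasurableSpace V]
    [BorelSpace V] (A : X →ₗᵢ[ℝ] E) (B : V →ₗᵢ[ℝ] E), (∀ y z, ⟪A y, B z⟫ = 0) →
    finrank ℝ X + finrank ℝ V = finrank ℝ E → ∀ (q : ℕ) (Ψ : E → ℝ) (Γ : ℝ × V → ℝ), Tst Ψ → BM Γ →
    (∀ y z, ‖y‖ ^ 2 + ‖z‖ ^ 2 = 1 → Ψ (A y + B z) = ‖y‖ ^ q * Γ (‖y‖, z)) →
    ∫ x in Metric.ball (0 : E) 1, ‖x‖ ^ q * Ψ (nrm x) =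
      finrank ℝ X * (volume (Metric.ball (0 : X) 1)).toReal * Jw (finrank ℝ X - 1 + q) Γ

/-- (RLW) (medium; uses MSU, RAD, RLE).  Comparison of `u0^⊥` and `E`, `u0 ∈ U`.
PROOF.  `k = dim U`.  On unit vectors `‖P_U x‖ = min ‖P_U x‖ 1`, and with the minimum the function is
bounded (`mS` and `sph` see only vectors of norm `0` or `1`, a.e. unit vectors).  Right side: RLE for `E`,
`X = U`, `V = Uᗮ` (inclusions), `q = 0`, and RAD (first): `vol(ball E) ∫ Γ(‖P_U a‖, a - P_U a) dsph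
= k κ(U) J_(k-1)(Γ)`.  Left side: MSU for `W = (ℝ ∙ u0)ᗮ`, RAD (second) in the space `W`, and RLE for the
space `W`, `X = U ⊓ W` (dimension `k - 1 ≥ 1`), `V = Uᗮ` (`Uᗮ ≤ W`), `q = 1`:
`c ∫ ‖P_U a‖ Γ dsph_W = (k-1) κ(X) J_(k-1)(Γ)` (for `a ∈ W` the component in `U ⊓ W` is `P_U a`).  All
constants are positive. -/
def RlwStmt : Prop :=
  ∀ {E : Type} [NormedAddCommGroup E] [InnerProductSpace ℝ E] [FiniteDimensional ℝ E]
    [MeasurableSpace E] [BorelSpace E] (U : Submodule ℝ E), 2 ≤ finrank ℝ U →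
    ∀ u0 ∈ U, ‖u0‖ = 1 → ∃ c : ℝ, 0 < c ∧ ∀ Γ : ℝ × E → ℝ, BM Γ →
    mS (ℝ ∙ u0)ᗮ (fun a => ‖U.starProjection a‖ *
        Γ (‖U.starProjection a‖, a - U.starProjection a)) =
      c * ∫ a, Γ (‖U.starProjection a‖, a - U.starProjection a) ∂sph E

/-- (PAI) (easy-medium; uses nothing).  The law of a random orthonormal pair.  PROOF.  There is a
linear isometry `T` of `E` with `T y1' = y1`, `T y2' = y2` (extend the isometry between the spans of the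
orthonormal pairs, `LinearIsometry.extend`, or two reflections), and
`∫ F(g) dlam = ∫ F(g ∘ T) dlam` (`integral_right` in `BPH/Fob.lean` / `IsHaarO.right`). -/
def PaiStmt : Prop :=
  ∀ {E : Type} [NormedAddCommGroup E] [InnerProductSpace ℝ E] [FiniteDimensional ℝ E]
    [MeasurableSpace E] [BorelSpace E] (lam : Measure (E →L[ℝ] E)), IsHaarO lam →
    ∀ y1 y2 y1' y2' : E, ‖y1‖ = 1 → ‖y2‖ = 1 → ⟪y1, y2⟫ = 0 → ‖y1'‖ = 1 → ‖y2'‖ = 1 →
    ⟪y1', y2'⟫ = 0 → ∀ Φ : E × E → ℝ, BM Φ →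
    ∫ g, Φ (g y1, g y2) ∂lam = ∫ g, Φ (g y1', g y2') ∂lam

/-- the averaged function of two components -/
noncomputable def Gam {E : Type} [NormedAddCommGroup E] [InnerProductSpace ℝ E]
    [FiniteDimensional ℝ E] (U : Submodule ℝ E) (lam : Measure (U →L[ℝ] U)) (y1 y2 : U)
    (Θ : E × E → ℝ) (p : ℝ × E) : ℝ :=
  ∫ h, Θ (p.1 • ((h y1 : U) : E) + p.2, ((h y2 : U) : E)) ∂lam

/-- (GAM) (easy; uses nothing).  `Gam` is bounded and measurable.  PROOF.  Joint measurability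
(`foa_meas` in `BPH/Foa.lean`), `StronglyMeasurable.integral_prod_right'`. -/
def GamStmt : Prop :=
  ∀ {E : Type} [NormedAddCommGroup E] [InnerProductSpace ℝ E] [FiniteDimensional ℝ E]
    [MeasurableSpace E] [BorelSpace E] (U : Submodule ℝ E) (lam : Measure (U →L[ℝ] U)),
    IsHaarO lam → ∀ (y1 y2 : U) (Θ : E × E → ℝ), BM Θ → BM (Gam U lam y1 y2 Θ)

/-- (LLL) (medium-strong; uses PAI).  The left side of the exchange formula.
PROOF.  For an isometry `h` of `U` let `H = h ⊕ id` be its extension by the identity on `Uᗮ`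
(`LinearIsometry.extend` is not explicit: define `H x = h (P_U x) + (x - P_U x)`, a linear isometry,
surjective).  `F(u) = mS (ℝ ∙ u)ᗮ (fun a => ‖P_U a‖ Θ(a, u))`.  By UNI.sub (`F` is bounded and measurable:
`measurable_po'`) `mS U F = ∫ h, F(h y2) dlam`.  For `lam`-almost every `h` (an isometry) `F(h y2) =
mS (ℝ ∙ H y2)ᗮ (..) = mS (ℝ ∙ y2)ᗮ (fun a => ‖P_U (H a)‖ Θ(H a, h y2))` (`mS_map` in `BPH/Fob.lean`, the image
of `(ℝ ∙ y2)ᗮ` is `(ℝ ∙ H y2)ᗮ`), `P_U (H a) = h (P_U a)` has the norm `‖P_U a‖`,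
`H a = ‖P_U a‖ h(η) + (a - P_U a)` with `η = nrm (P_U a)`, orthogonal to `y2` for `a ∈ (ℝ ∙ y2)ᗮ` (`y2 ∈ U`).
Fubini; for `P_U a ≠ 0` PAI (in the space `U`, pairs `(η, y2)` and `(y1, y2)`) gives
`∫ h, Θ(‖P_U a‖ h η + (a - P_U a), h y2) = Gam .. (‖P_U a‖, a - P_U a)`; for `P_U a = 0` the factor
`‖P_U a‖` is `0`. -/
def LllStmt : Prop :=
  ∀ {E : Type} [NormedAddCommGroup E] [InnerProductSpace ℝ E] [FiniteDimensional ℝ E]
    [MeasurableSpace E] [BorelSpace E] (U : Submodule ℝ E) (lam : Measure (U →L[ℝ] U)),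
    IsHaarO lam → ∀ y1 y2 : U, ‖y1‖ = 1 → ‖y2‖ = 1 → ⟪y1, y2⟫ = 0 →
    ∀ Θ : E × E → ℝ, BM Θ →
    mS U (fun u => mS (ℝ ∙ u)ᗮ (fun a => ‖U.starProjection a‖ * Θ (a, u))) =
      mS (ℝ ∙ (y2 : E))ᗮ (fun a => ‖U.starProjection a‖ *
        Gam U lam y1 y2 Θ (‖U.starProjection a‖, a - U.starProjection a))

/-- (LLR) (medium-strong; uses PAI).  The right side of the exchange formula.
PROOF.  `F(a) = mS (U ⊓ (ℝ ∙ a)ᗮ) (fun u => Θ(a, u))`.  For every isometry `h` of `U`, with `H = h ⊕ id`: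
`∫ F dsph = ∫ F(H a) dsph` (`SPH.iso`), `F(H a) = mS (U ⊓ (ℝ ∙ a)ᗮ) (fun u => Θ(H a, H u))` (`H` maps
`U ⊓ (ℝ ∙ a)ᗮ` onto `U ⊓ (ℝ ∙ H a)ᗮ`).  Average over `h`, Fubini (measurability: for `P_U a ≠ 0` the
projection to `U ⊓ (ℝ ∙ a)ᗮ` is `x ↦ po (P_U a) (P_U x)`, because `⟪u, a⟫ = ⟪u, P_U a⟫` for `u ∈ U`; `P_U a ≠ 0`
for almost all `a`, `SPH.null` for `Uᗮ`):
`= ∫ a, mS (U ⊓ (ℝ ∙ a)ᗮ) (fun u => ∫ h, Θ(‖P_U a‖ h η + (a - P_U a), h u))`, `η = nrm (P_U a)`; for a unit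
vector `u ∈ U ⊓ (ℝ ∙ a)ᗮ` the pair `(η, u)` is orthonormal and PAI replaces it by `(y1, y2)`; the mean
of the constant is the constant (`U ⊓ (ℝ ∙ a)ᗮ` has dimension `≥ 1`, almost all directions are unit
vectors, `bkk_ae` in `BPH/Bkk.lean`). -/
def LlrStmt : Prop :=
  ∀ {E : Type} [NormedAddCommGroup E] [InnerProductSpace ℝ E] [FiniteDimensional ℝ E]
    [MeasurableSpace E] [BorelSpace E] (U : Submodule ℝ E) (lam : Measure (U →L[ℝ] U)),
    IsHaarO lam → ∀ y1 y2 : U, ‖y1‖ = 1 → ‖y2‖ = 1 → ⟪y1, y2⟫ = 0 →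
    ∀ Θ : E × E → ℝ, BM Θ →
    ∫ a, mS (U ⊓ (ℝ ∙ a)ᗮ) (fun u => Θ (a, u)) ∂sph E =
      ∫ a, Gam U lam y1 y2 Θ (‖U.starProjection a‖, a - U.starProjection a) ∂sph E

/-- (LLS) (easy-medium; uses RLW, GAM, LLL, LLR).  The exchange formula, with a constant which
depends on `dim U` only.  PROOF.  HAA for the space `U`, an orthonormal pair `y1, y2` of `U`
(`2 ≤ dim U`), LLL, RLW (`u0 = y2`, `Γ = Gam ..`, GAM), LLR: the formula with a constant `c(U) > 0`.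
`Θ = 1`: `c(U) = mS U (fun u => mS (ℝ ∙ u)ᗮ (fun a => ‖P_U a‖))` (the right side is the mean of `1`).  This
number is the same for `T U`, `T` an isometry of `E` (`mS_map` twice, `P_(TU) (T a) = T (P_U a)`), and any
two subspaces of the same dimension are related by an isometry (`exists_iso`). -/
def LlsStmt : Prop :=
  ∀ (E : Type) [NormedAddCommGroup E] [InnerProductSpace ℝ E] [FiniteDimensional ℝ E]
    [MeasurableSpace E] [BorelSpace E] (k : ℕ), 2 ≤ k → ∃ c : ℝ, 0 < c ∧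
    ∀ U : Submodule ℝ E, finrank ℝ U = k → ∀ Θ : E × E → ℝ, BM Θ →
    mS U (fun u => mS (ℝ ∙ u)ᗮ (fun a => ‖U.starProjection a‖ * Θ (a, u))) =
      c * ∫ a, mS (U ⊓ (ℝ ∙ a)ᗮ) (fun u => Θ (a, u)) ∂sph E

/-- the Blaschke-Petkantschin formula for `i` vectors -/
def BPf (E : Type) [NormedAddCommGroup E] [InnerProductSpace ℝ E] [FiniteDimensional ℝ E]
    [MeasurableSpace E] [BorelSpace E] (i : ℕ) : Prop :=
  ∃ c : ℝ, 0 < c ∧ ∀ Ψ : (Fin i → E) × E → ℝ, BM Ψ →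
    ∫ u, mP (ℝ ∙ u)ᗮ i (fun w => gw w * Ψ (w, u)) ∂sph E =
      c * ∫ v, mS (perp v) (fun u => Ψ (v, u)) ∂sphP E i

/-- (BP0) (easy; uses nothing).  `i = 0`.  PROOF.  `gw w = 1` (empty determinant), `perp v = ⊤`, all
families are equal (`Subsingleton`), `sphP E 0` is a probability measure, `nrm x = x` a.e. -/
def Bp0Stmt : Prop :=
  ∀ (E : Type) [NormedAddCommGroup E] [InnerProductSpace ℝ E] [FiniteDimensional ℝ E]
    [MeasurableSpace E] [BorelSpace E] [Nontrivial E], BPf E 0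

/-- (MPS) (easy-medium; uses nothing).  One vector more.  PROOF.  `sphP E (i+1)` is the image of
`(sph E).prod (sphP E i)` under `cns` (`measurePreserving_piFinSuccAbove`, see `BPH/Spi.lean`, `BPH/Zfu.lean`),
Fubini. -/
def MpsStmt : Prop :=
  ∀ {E : Type} [NormedAddCommGroup E] [InnerProductSpace ℝ E] [FiniteDimensional ℝ E]
    [MeasurableSpace E] [BorelSpace E] (i : ℕ),
    (∀ (U : Submodule ℝ E) (Ψ : (Fin (i + 1) → E) → ℝ), Measurable Ψ → (∃ C, ∀ v, (∀ l, ‖v l‖ ≤ 1) →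
      |Ψ v| ≤ C) → mP U (i + 1) Ψ = mP U i (fun w => mS U (fun a => Ψ (cns a w)))) ∧
    (∀ G : (Fin (i + 1) → E) → ℝ, BM G → ∫ v, G v ∂sphP E (i + 1) =
      ∫ v, ∫ a, G (cns a v) ∂sph E ∂sphP E i)

/-- (BPS) (medium-strong; uses LLS, MPS).  The induction step.
PROOF.  `gw (cns a w) = gw w ‖pp w a‖` (GWA).  MPS: `mP (ℝ ∙ u)ᗮ (i+1) (gw Ψ(·, u)) =
mP (ℝ ∙ u)ᗮ i (fun w => gw w * Ψ'(w, u))`, `Ψ'(w, u) = mS (ℝ ∙ u)ᗮ (fun a => ‖pp w a‖ Ψ(cns a w, u))`, bounded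
(`‖pp w a‖ ≤ ‖a‖ ≤ 1` for `a` normalized) and measurable (PPM, `measurable_po'`).  BPf i:
`= c ∫ v, mS (perp v) (fun u => Ψ'(v, u)) dsphP E i`.  For almost every `v` (SPI) `dim (perp v) = n - i ≥ 2`
(`geo_finrank_perp` in `BPH/Geo.lean`), LLS with `U = perp v`, `Θ(a, u) = Ψ(cns a v, u)`:
`mS (perp v) (Ψ'(v, ·)) = c' ∫ a, mS (perp v ⊓ (ℝ ∙ a)ᗮ) (Ψ(cns a v, ·))`, and
`perp v ⊓ (ℝ ∙ a)ᗮ = perp (cns a v)`; MPS (second; the function `v ↦ mS (perp v) (Ψ(v, ·))` is measurable,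
`tex_mS_meas`) puts the two integrals together. -/
def BpsStmt : Prop :=
  ∀ (E : Type) [NormedAddCommGroup E] [InnerProductSpace ℝ E] [FiniteDimensional ℝ E]
    [MeasurableSpace E] [BorelSpace E] (i : ℕ), i + 2 ≤ finrank ℝ E → BPf E i → BPf E (i + 1)

/-- (BPI) (easy; uses BP0, BPS).  The Blaschke-Petkantschin formula for `i ≤ n - 1`. -/
def BpiStmt : Prop :=
  ∀ (E : Type) [NormedAddCommGroup E] [InnerProductSpace ℝ E] [FiniteDimensional ℝ E]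
    [MeasurableSpace E] [BorelSpace E] (i : ℕ), i + 1 ≤ finrank ℝ E → BPf E i

/-- (QME) (easy-medium; uses nothing).  PROOF.  Joint measurability of `(u, x) ↦ po u x`
(`measurable_po'`, `(ℝ ∙ u)ᗮ.starProjection x = po u x` by definition), `gw` continuous (`GWB.cont`),
`0 ≤ gw ≤ ∏ ‖w l‖ ≤ 1` for the normalized vectors, `f ≤ C`. -/
def QmeStmt : Prop :=
  ∀ {E : Type} [NormedAddCommGroup E] [InnerProductSpace ℝ E] [FiniteDimensional ℝ E]
    [MeasurableSpace E] [BorelSpace E] [Nontrivial E] (i : ℕ) (f : E → ℝ), Dens f →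
    Measurable (QQ i f) ∧ (∀ u, 0 ≤ QQ i f u) ∧ ∀ C : ℝ, 0 ≤ C → (∀ x, f x ≤ C) →
      ∀ u, QQ i f u ≤ C ^ i

/-- (DEQ) (medium; uses BPI, QME).  **The next density is explicit.**
PROOF.  `c = 1 / c_BP`.  BPf with `Ψ(v, u) = 1_{‖v l‖ ≤ 1 for all l} gw v ∏ f (v l) φ(u)` (bounded, measurable;
the indicator is `1` on normalized vectors and `sphP`-a.e.): the left side is `∫ φ QQ i f dsph`, the right side
is `c_BP ∫ v, (gw v * ∏ f (v l)) * mS (perp v) φ`.  So `f' = c QQ i f / ZZ i f` satisfies IsStep, and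
`φ = 1` gives `∫ f' = 1` (`mS (perp v) 1 = 1`, the right side is `c_BP ZZ i f`); `ZZ i f > 0` by ZFU.pos. -/
def DeqStmt : Prop :=
  ∀ (E : Type) [NormedAddCommGroup E] [InnerProductSpace ℝ E] [FiniteDimensional ℝ E]
    [MeasurableSpace E] [BorelSpace E] (i : ℕ), 1 ≤ i → i + 1 ≤ finrank ℝ E →
    ∃ c : ℝ, 0 < c ∧ ∀ f : E → ℝ, Dens f →
      Dens (fun x => c * QQ i f x / ZZ i f) ∧ IsStep i f (fun x => c * QQ i f x / ZZ i f)

/-! ### A zonal start density -/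

/-- the mean of `f` over the two parallels at the heights `± τ` -/
noncomputable def av {E : Type} [NormedAddCommGroup E] [InnerProductSpace ℝ E]
    [FiniteDimensional ℝ E] [MeasurableSpace E] [BorelSpace E] (e : E) (f : E → ℝ) (τ : ℝ) : ℝ :=
  mS (ℝ ∙ e)ᗮ (fun θ => (f (τ • e + Real.sqrt (1 - τ ^ 2) • θ) +
    f ((-τ) • e + Real.sqrt (1 - τ ^ 2) • θ)) / 2)

/-- (AVM) (easy-medium; uses nothing).  PROOF.  Joint measurability, bounds. -/
def AvmStmt : Prop :=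
  ∀ {E : Type} [NormedAddCommGroup E] [InnerProductSpace ℝ E] [FiniteDimensional ℝ E]
    [MeasurableSpace E] [BorelSpace E] (e : E) (f : E → ℝ), Measurable f → (∀ x, 0 ≤ f x) →
    ∀ C : ℝ, (∀ x, f x ≤ C) → Measurable (av e f) ∧ ∀ τ, 0 ≤ av e f τ ∧ av e f τ ≤ C

/-- (AVI) (medium; uses AVM).  The averaged density as a mean over the group.
PROOF.  `W = (ℝ ∙ e)ᗮ` (dimension `≥ 1`), `lam` Haar on `W` (HAA).  For an isometry `h` of `W` let
`H x = ⟪x, e⟫ • e + h (P_W x)` and `H' x = - ⟪x, e⟫ • e + h (P_W x)` (isometries of `E`).  For a unit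
vector `x` with `P_W x ≠ 0`: `x = τ e + √(1-τ²) η`, `η = nrm (P_W x)`, and UNI.sub for
`θ ↦ (f (τ e + √(1-τ²) θ) + f (-τ e + ..)) / 2` gives `av e f τ = ∫ h, (f (H x) + f (H' x)) / 2 dlam`.
`|τ|` instead of `τ`: the definition is symmetric.  So for a bounded measurable `g`
`∫ g(x) av e f |⟪e, x⟫| dsph = ∫ h, ∫ x, g(x) (f (H x) + f (H' x)) / 2 dsph dlam
= ∫ h, ∫ x, (g (H⁻¹ x) + g (H'⁻¹ x)) / 2 * f x dsph dlam` (Fubini, `SPH.iso`).  If `a ≤ ∫ g(T x) f(x) dsph ≤ b`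
for all isometries `T` with `T e = e` or `T e = -e`, the result is between `a` and `b`. -/
def AviStmt : Prop :=
  ∀ {E : Type} [NormedAddCommGroup E] [InnerProductSpace ℝ E] [FiniteDimensional ℝ E]
    [MeasurableSpace E] [BorelSpace E], 2 ≤ finrank ℝ E → ∀ e : E, ‖e‖ = 1 →
    ∀ f : E → ℝ, Measurable f → (∀ x, 0 ≤ f x) → (∃ C, ∀ x, f x ≤ C) →
    ∀ g : E → ℝ, Tst g → ∀ a b : ℝ,
    (∀ T : E ≃ₗᵢ[ℝ] E, (T e = e ∨ T e = -e) →
      a ≤ ∫ x, g (T x) * f x ∂sph E ∧ ∫ x, g (T x) * f x ∂sph E ≤ b) →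
    a ≤ ∫ x, g x * av e f |⟪e, x⟫| ∂sph E ∧ ∫ x, g x * av e f |⟪e, x⟫| ∂sph E ≤ b

/-- (AVE) (easy-medium; uses AVM, AVI).  **Zonal start density.**
PROOF.  STA (`BPH/Sta.lean`: `sta_of`) gives `f`, `t`, `C`; `φ = av e f`.  `Dens`: AVM, AVI with `g = 1`,
`a = b = 1`.  Sandwich: AVI with `g x = min |⟪w, x⟫| ‖w‖` (`tst_min` in `BPH/Kit.lean`; on unit vectors it is
`|⟪w, x⟫|`): `∫ g (T x) f x dsph = hz f (T⁻¹ w)`, and `supportFn K (T⁻¹ w) = supportFn K w` by the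
hypothesis, so `a = e^(-δ) supportFn K w / t`, `b = e^δ supportFn K w / t`. -/
def AveStmt : Prop :=
  ∀ {E : Type} [NormedAddCommGroup E] [InnerProductSpace ℝ E] [FiniteDimensional ℝ E]
    [MeasurableSpace E] [BorelSpace E] [Nontrivial E] (K : Set E),
    2 ≤ finrank ℝ E → CC K →
    (0 : E) ∈ interior K → ZApp (supportFn K) → ∀ e : E, ‖e‖ = 1 →
    (∀ T : E ≃ₗᵢ[ℝ] E, (T e = e ∨ T e = -e) → ∀ w : E,
      supportFn K (T w) = supportFn K w) →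
    ∃ C : ℝ, 1 ≤ C ∧ ∀ δ : ℝ, 0 < δ → δ ≤ 1 → ∃ (φ : ℝ → ℝ) (t : ℝ),
      Dens (fun x : E => φ |⟪e, x⟫|) ∧ 0 < t ∧ (∀ τ, 0 ≤ φ τ) ∧
      (∀ τ, φ τ ≤ C / δ ^ finrank ℝ E) ∧
      ∀ w : E, Real.exp (-δ) * (t * hz (fun x : E => φ |⟪e, x⟫|) w) ≤
          supportFn K w ∧
        supportFn K w ≤
          Real.exp δ * (t * hz (fun x : E => φ |⟪e, x⟫|) w)

end Pool.Agent.REV
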