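import Pool.Agent.REV.StmtsA1

set_option autoImplicit false

/-!
# Squad REV, part U: `i = n - 1`, an exact fixed density is constant

For `i = n - 1` the step is `TT n (n-1) 0 C f t = C RB(c) RA(c)^(n-2)`, `c = sqrt (1 - t^2)`.  The
contraction factor of StmtsA1 is `1`, so a fixed density needs a strictness argument.  All rows are real
analysis in one variable.  Standing notation: `q = 1 + (g-1) c^2`, `a = 1 + A`, `b = 1 / (1 + A)`;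
`1 + (a-1) (1-c^2) = a (1 + (b-1) c^2)` and `1 + (b-1) (1-c^2) = b (1 + (a-1) c^2)`.

Proved rows of part A1 may be imported: `Pool.Agent.Helper65_REV.TAU : H65.tau : TauStmt`,
`Helper5_REV.CVA : H5.cva`, `Helper69_REV.MRA : H69.mra`, `Helper65_REV.STA : H65.sta` (see table rev).
-/

namespace Pool.Agent.REV

open Set Filter
open scoped Topology

/-- the derivative of `r (1 - r^2)^((n-2)/2)` -/
noncomputable def kk (n : ℕ) (r : ℝ) : ℝ :=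
  (1 - r ^ 2) ^ (((n : ℝ) - 2) / 2) -
    ((n : ℝ) - 2) * (r ^ 2 * (1 - r ^ 2) ^ (((n : ℝ) - 4) / 2))

/-- an exact positive continuous fixed density for `i = n - 1` -/
structure FixU (n : ℕ) (C : ℝ) (f : ℝ → ℝ) : Prop where
  cont : ContinuousOn f (Icc 0 1)
  pos : ∀ t ∈ Icc (0 : ℝ) 1, 0 < f t
  eq : ∀ t ∈ Icc (0 : ℝ) 1,
    f t = C * (RB n f (Real.sqrt (1 - t ^ 2)) * RA n f (Real.sqrt (1 - t ^ 2)) ^ (n - 2))

/-- KKI (easy-medium; uses nothing).  PROOF.  Continuity: the exponents are `≥ 0`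
(`Real.continuous_rpow_const` / `ContinuousOn.rpow_const`).  Second: `(1-r^2)^((n-2)/2) = (1-r^2) (1-r^2)^((n-4)/2)`
(for `r < 1` `Real.rpow_add`; for `r = 1` the left side is `0^((n-2)/2) = 0` and the factor `1 - r^2` is `0`).
Third: `k r = r (1-r^2)^((n-2)/2)` is continuous on `[0,1]` and has the derivative `kk n r` for `0 < r < 1`
(`HasDerivAt.rpow_const`): `intervalIntegral.integral_eq_sub_of_hasDerivAt_of_le` (or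
`integral_eq_sub_of_hasDeriv_right_of_le`), `k 0 = 0`. -/
def KkiStmt : Prop :=
  ∀ n : ℕ, 4 ≤ n → ContinuousOn (kk n) (Icc 0 1) ∧
    (∀ r ∈ Icc (0 : ℝ) 1,
      kk n r = (1 - r ^ 2) ^ (((n : ℝ) - 4) / 2) * (1 - ((n : ℝ) - 1) * r ^ 2)) ∧
    ∀ x ∈ Icc (0 : ℝ) 1, ∫ r in (0 : ℝ)..x, kk n r = x * (1 - x ^ 2) ^ (((n : ℝ) - 2) / 2)

/-- KSN (medium; uses KKI).  PROOF.  Let `r0 = 1 / sqrt (n-1)`, so `r1 ≤ r2 ≤ r0 < 1`.  By KKI `kk n r ≥ 0` for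
`r ≤ r0` and `kk n r ≤ 0` for `r0 ≤ r ≤ 1`, and `∫_0^1 kk n = 0` (`0 ^ ((n-2)/2) = 0`).  So
`∫ kk γ = ∫_0^1 kk (γ r - γ r0) dr` and the integrand is `≥ 0` everywhere; for `r ≤ r1` it is
`≥ kk n r (γ r1 - γ r2)` (`γ r ≥ γ r1`, `γ r2 ≥ γ r0`).  So
`∫ ≥ (γ r1 - γ r2) ∫_0^(r1) kk n = (γ r1 - γ r2) r1 (1 - r1^2)^((n-2)/2)`.  `γ` is integrable on `[0,1]`
(`AntitoneOn.intervalIntegrable`), the product with the continuous `kk n` too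
(`IntervalIntegrable.continuousOn_mul`). -/
def KsnStmt : Prop :=
  ∀ (n : ℕ) (γ : ℝ → ℝ), 4 ≤ n → AntitoneOn γ (Icc 0 1) →
    ∀ r1 r2 : ℝ, 0 ≤ r1 → r1 ≤ r2 → ((n : ℝ) - 1) * r2 ^ 2 ≤ 1 →
      r1 * (1 - r1 ^ 2) ^ (((n : ℝ) - 2) / 2) * (γ r1 - γ r2) ≤
        ∫ r in (0 : ℝ)..1, kk n r * γ r

/-- KST (easy-medium; uses KKI).  PROOF.  With `r0 = 1 / sqrt (n-1)` as in KSN
`∫ kk γ = ∫_0^1 kk (γ r - γ r0) dr`, the integrand `F` is continuous and `≥ 0` on `[0,1]`.  There is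
`r ∈ (0,1)` with `F r > 0`: otherwise `γ r = γ r0` for all `r ∈ (0,1)`, `r ≠ r0` (`kk n r ≠ 0` there by KKI), and by
continuity `γ` is constant on `[0,1]`.  Now `intervalIntegral.integral_pos`. -/
def KstStmt : Prop :=
  ∀ (n : ℕ) (γ : ℝ → ℝ), 4 ≤ n → AntitoneOn γ (Icc 0 1) → ContinuousOn γ (Icc 0 1) →
    (∃ x ∈ Icc (0 : ℝ) 1, ∃ y ∈ Icc (0 : ℝ) 1, γ x ≠ γ y) →
      0 < ∫ r in (0 : ℝ)..1, kk n r * γ r

/-- JEL (easy; uses nothing).  PROOF.  `ρ -> ta g c ρ` is continuous on `[0,1]` with values in `[0,1]`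
(`TauStmt`, proved: import `Pool.Agent.Helper65_REV.TAU`), so `El n g f (ta g c ρ)` is continuous on `[0,1]`
(`1 + (g-1) τ^2 > 0` on `[0,1]`), the two integrals exist; `intervalIntegral.integral_sub`. -/
def JelStmt : Prop :=
  ∀ (n : ℕ) (g c : ℝ) (f : ℝ → ℝ), 4 ≤ n → 0 < g → 0 ≤ c → c ≤ 1 → ContinuousOn f (Icc 0 1) →
    ContinuousOn (fun ρ => El n g f (ta g c ρ)) (Icc 0 1) ∧
    ∫ ρ in (0 : ℝ)..1, kk n ρ * El n g f (ta g c ρ) =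
      RA' n g f c - ((n : ℝ) - 2) * RB' n g f c

/-- MXL (easy-medium; uses nothing).  The kernel of `c RA`.  PROOF.  `β = (n-2)/2 ≥ 1`.
For `v, w ≤ 1`: `|max v 0 ^ β - max w 0 ^ β| ≤ β |v - w|` (on `[0,1]` the derivative of `v^β` is `≤ β`; `max · 0` is
`1`-Lipschitz).  With `v = 1 - s^2/u^2`, `w = 1 - s^2/u'^2`, `u, u' ≥ c/2`, `s ≤ 2 c`:
`|v - w| = s^2 (u + u') |u - u'| / (u^2 u'^2)`, `s^2 ≤ 4 c^2`,
`(u + u')/(u^2 u'^2) = 1/(u u'^2) + 1/(u^2 u') ≤ 16/c^3`, so `L = 64 β / c`.  Derivative: for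
`s < c` the maximum is `1 - s^2/u^2 > 0` near `u = c`, for `s > c` it is `0` near `u = c`. -/
def MxlStmt : Prop :=
  ∀ (n : ℕ) (c : ℝ), 4 ≤ n → 0 < c →
    (∃ L : ℝ, 0 ≤ L ∧ ∀ s u u' : ℝ, 0 ≤ s → s ≤ 2 * c → c / 2 ≤ u → c / 2 ≤ u' →
      |max (1 - s ^ 2 / u ^ 2) 0 ^ (((n : ℝ) - 2) / 2) -
        max (1 - s ^ 2 / u' ^ 2) 0 ^ (((n : ℝ) - 2) / 2)| ≤ L * |u - u'|) ∧
    ∀ s : ℝ, 0 ≤ s → s ≠ c →
      HasDerivAt (fun u : ℝ => max (1 - s ^ 2 / u ^ 2) 0 ^ (((n : ℝ) - 2) / 2))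
        (if s < c then ((n : ℝ) - 2) / c ^ 3 * (s ^ 2 * (1 - s ^ 2 / c ^ 2) ^ (((n : ℝ) - 4) / 2))
          else 0) c

/-- CRA (easy; uses nothing).  PROOF.  `s = r c`
(`intervalIntegral.integral_comp_mul_right` or `mul_integral_comp_mul_right`); on `(c, 2 c0)` the integrand of the
first is `0` (`1 - s^2/c^2 < 0`, `0 ^ ((n-2)/2) = 0`), on `(0, c)` the maximum is `1 - s^2/c^2`. -/
def CraStmt : Prop :=
  ∀ (n : ℕ) (f : ℝ → ℝ) (c d : ℝ), 4 ≤ n → Measurable f → (∃ C, ∀ t, |f t| ≤ C) → 0 < c → c ≤ d →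
    c * RA n f c = ∫ s in (0 : ℝ)..d, max (1 - s ^ 2 / c ^ 2) 0 ^ (((n : ℝ) - 2) / 2) * f s ∧
    c ^ 3 * RB n f c = ∫ s in (0 : ℝ)..d,
      (if s < c then s ^ 2 * (1 - s ^ 2 / c ^ 2) ^ (((n : ℝ) - 4) / 2) else 0) * f s

/-- YDR (medium; uses MXL, CRA).  `(c RA)' = (n-2) RB`.  PROOF.  Near `c` (`c/2 < u < 2 c`)
`u RA(u)` is the first integral of CRA with `d = 2 c`.  `hasDerivAt_integral_of_dominated_loc_of_lip` with the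
bound `L C` of MXL and the derivative of MXL for `s ≠ c` (almost all `s`); the derivative is
`(n-2)/c^3` times the second integral of CRA, `= (n-2) RB n f c`. -/
def YdrStmt : Prop :=
  ∀ (n : ℕ) (f : ℝ → ℝ) (c : ℝ), 4 ≤ n → Measurable f → (∃ C, ∀ t, |f t| ≤ C) → 0 < c →
    HasDerivAt (fun u => u * RA n f u) (((n : ℝ) - 2) * RB n f c) c

/-- RBC (easy-medium; uses CRA).  PROOF.  Second integral of CRA with `d = 2 c`: dominated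
convergence (`intervalIntegral.continuousAt_of_dominated_interval` or `MeasureTheory.continuousAt_of_dominated`); for
`0 < s < d`, `s ≠ c` the integrand is continuous in `u` at `u = c`; bound `(2 c)^2 C`. -/
def RbcStmt : Prop :=
  ∀ (n : ℕ) (f : ℝ → ℝ) (c : ℝ), 4 ≤ n → Measurable f → (∃ C, ∀ t, |f t| ≤ C) → 0 < c →
    ContinuousAt (RB n f) c

/-- RCT (easy-medium; uses nothing).  PROOF.  Dominated convergence in the definitions: for `0 < r < 1` and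
`c ∈ [0,1]` `r c < 1`, so `f (r c')` tends to `f (r c)` for `c' -> c` within `[0,1]`; the bound is `C`.  Second part: for
`f` continuous on `[0,1]` replace `f` by `t ↦ f (max 0 (min t 1))`, which is continuous and bounded on the whole line;
`RA`, `RB` at `c ∈ [0,1]` do not change. -/
def RctStmt : Prop :=
  ∀ (n : ℕ) (f : ℝ → ℝ), 4 ≤ n →
    (Measurable f → (∃ C, ∀ t, |f t| ≤ C) → ContinuousOn f (Ico 0 1) →
      ContinuousOn (RA n f) (Icc 0 1) ∧ ContinuousOn (RB n f) (Icc 0 1)) ∧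
    (ContinuousOn f (Icc 0 1) →
      ContinuousOn (RA n f) (Icc 0 1) ∧ ContinuousOn (RB n f) (Icc 0 1))

/-- RPO (easy-medium; uses nothing).  PROOF.  The integrands are continuous on `[0,1]` and positive on `(0,1)`
(`intervalIntegral.intervalIntegral_pos_of_pos_on` or `integral_pos`); the weights are `≤ 1` and `≥ 0`. -/
def RpoStmt : Prop :=
  ∀ (n : ℕ) (f : ℝ → ℝ) (M : ℝ), 4 ≤ n → ContinuousOn f (Icc 0 1) →
    (∀ t ∈ Icc (0 : ℝ) 1, 0 < f t ∧ f t ≤ M) →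
    ∀ c ∈ Icc (0 : ℝ) 1, 0 < RA n f c ∧ 0 < RB n f c ∧ RA n f c ≤ M ∧ RB n f c ≤ M

/-- YMO (medium; uses YDR, RPO).  PROOF.  Replace `f` by `t ↦ f (max 0 (min t 1))` (continuous, bounded; `RA`,
`RB` at `c ∈ [0,1]` do not change).  `P(c) = c RA(c)`, `P' = (n-2) RB` on `(0,1)` and at `c = 1` (YDR);
`N(c) = (1 + (g-1) c^2) RA(c)^2 = P^2 (1/c^2 + (g-1))`,
`N' = 2 P P' (1/c^2 + g - 1) - 2 P^2/c^3 = (2 RA / c) ((1 + (g-1) c^2) (n-2) RB - RA)`.  Sign of the derivative: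
`monotoneOn_of_deriv_nonneg` / `antitoneOn_of_deriv_nonpos` on `Icc c1 c2`. -/
def YmoStmt : Prop :=
  ∀ (n : ℕ) (f : ℝ → ℝ) (g c1 c2 : ℝ), 4 ≤ n → ContinuousOn f (Icc 0 1) →
    (∀ t ∈ Icc (0 : ℝ) 1, 0 < f t) → 0 < c1 → c2 ≤ 1 →
    ((∀ c ∈ Icc c1 c2, RA n f c ≤ (1 + (g - 1) * c ^ 2) * (((n : ℝ) - 2) * RB n f c)) →
      MonotoneOn (fun c => (1 + (g - 1) * c ^ 2) * RA n f c ^ 2) (Icc c1 c2)) ∧
    ((∀ c ∈ Icc c1 c2, (1 + (g - 1) * c ^ 2) * (((n : ℝ) - 2) * RB n f c) ≤ RA n f c) →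
      AntitoneOn (fun c => (1 + (g - 1) * c ^ 2) * RA n f c ^ 2) (Icc c1 c2))

/-- WLM (easy-medium; uses nothing).  PROOF.  `κ = b/(1-b)`, `κ1 = b1/(1-b1)`, `d = κ1 - κ > 0`,
`s = (n-2) d κ / ((n+1) κ1)`, `0 < s < d`, `a' = 1 + 1/(κ+s)`; `1 + 1/κ = 1/b`, so `1 < a' < 1/b`.
The logarithm of the function has the derivative
`((n+1)/2)/(κ+s+x) - (3/2)/(κ+x) - ((n-2)/2)/(κ1+x)`, which is `≥ 0`: with `u = κ + x`, `v = u + d` it is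
`((n-2)/2) u d ≥ s ((3/2) v + ((n-2)/2) u)`, and the right side is `≤ s ((n+1)/2) v`,
`v = u + d ≤ u (1 + d/κ) = u κ1/κ`. -/
def WlmStmt : Prop :=
  ∀ (n : ℕ) (b b1 : ℝ), 4 ≤ n → 0 < b → b < b1 → b1 < 1 → ∃ a' : ℝ, 1 ≤ a' ∧ a' < 1 / b ∧
    MonotoneOn (fun x : ℝ => (1 + (a' - 1) * x) ^ (((n : ℝ) + 1) / 2) *
      ((b + (1 - b) * x) ^ (-(3 / 2) : ℝ) * (b1 + (1 - b1) * x) ^ (-(((n : ℝ) - 2) / 2))))
      (Icc 0 1)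

/-- ELC (easy-medium; uses CVA, CVB).  PROOF.  Let `El n g f = K` on `[0,1]`.  `RA' n g f c = K α`,
`RB' n g f c = K β` for all `c ∈ [0,1]` (`ta g c ρ ∈ [0,1]`, TAU is proved) with constants `α, β`.  By CVA, CVB and
the equation of `f` at `t`, `c^2 = 1 - t^2`, `q = 1 + (g-1) c^2`:
`f t = C K β (K α)^(n-2) q^(-3/2) (q^(-1/2))^(n-2) = C' q^(-(n+1)/2)`.  Also `f t = K (1 + (g-1) t^2)^(-(n+1)/2)`.
`t = 0`: `K = C' g^(-(n+1)/2)`; `t = 1`: `K g^(-(n+1)/2) = C'`.  `K = f 0 > 0`, so `g^(n+1) = 1`, `g = 1`. -/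
def ElcStmt : Prop :=
  ∀ (n : ℕ) (C g : ℝ) (f : ℝ → ℝ), 4 ≤ n → FixU n C f → 0 < g →
    (∀ t ∈ Icc (0 : ℝ) 1, El n g f t = El n g f 0) → g = 1

/-- SAL (medium; uses KST, JEL, CVA, CVB, ELC).  PROOF.  `g = 1 + A`, `c = 1`: `γ ρ = - El n g f (ta g 1 ρ)` is
antitone (TAU) and continuous (JEL) on `[0,1]`.  It is not constant: `ta g 1 0 = 0`, `ta g 1 1 = 1`, `ta g 1` is
continuous, so it takes all values of `[0,1]`; if `γ` is constant, then `El n g f` is constant on `[0,1]` and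
`g = 1` by ELC.  KST and JEL: `RA' - (n-2) RB' < 0` at `c = 1`.  CVA, CVB (`q = g`): `RA = g^(-1/2) RA'`,
`RB = g^(-3/2) RB'`, so `RA < g (n-2) RB`. -/
def SalStmt : Prop :=
  ∀ (n : ℕ) (C A : ℝ) (f : ℝ → ℝ), 4 ≤ n → FixU n C f → 0 < A → Low n (1 + A) f →
    RA n f 1 < (1 + A) * (((n : ℝ) - 2) * RB n f 1)

/-- SBD (medium-strong; uses SAL, YMO, RCT, RPO, MRA, CVB).  Strict decrease of `El_b f` near `0`, `a = 1 + A`,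
`b = 1/a`.  PROOF.  By SAL choose `a'` with `1 ≤ a' < a` and `RA(1) < a' (n-2) RB(1)` (the mean of `a` and
`max 1 (RA(1)/((n-2) RB(1)))`).  By RCT there is `c1 ∈ (0,1)` with `RA(c) ≤ (1 + (a'-1) c^2) (n-2) RB(c)` on `[c1,1]`, so
(YMO) `N(c) = (1 + (a'-1) c^2) RA(c)^2` is nondecreasing on `[c1,1]`.  `RB'_a(c) = q_a^(3/2) RB(c)` (CVB,
`q_a = 1 + (a-1) c^2`) is nondecreasing (MRA).  For `τ ∈ [0, δ]`, `δ = sqrt (1 - c1^2)`, `c = sqrt (1-τ^2) ∈ [c1,1]`: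
`1 + (b-1) τ^2 = q_a(c)/a`, `(n+1)/2 = 3/2 + (n-2)/2`, so
`El n b f τ = (q_a/a)^((n+1)/2) C RB(c) RA(c)^(n-2)
 = C a^(-(n+1)/2) RB'_a(c) N(c)^((n-2)/2) (q_a(c)/q_(a')(c))^((n-2)/2)`.
For `τ1 ≤ τ2` (`c(τ2) ≤ c(τ1)`) let `R = (q_a/q_(a'))(c(τ2)) / (q_a/q_(a'))(c(τ1))`.  `0 < R ≤ 1` and
`R^((n-2)/2) ≤ R`, so `El_b(τ2) ≤ El_b(τ1) R`.  With `X = c(τ2)^2 ≤ X1 = c(τ1)^2`, `X1 - X = τ2^2 - τ1^2`:
`1 - R = (a - a') (X1 - X) / D`,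
`D = (1 + (a'-1) X) (1 + (a-1) X1) ≤ a^2`.  `El_b(τ1) ≥ El_b(δ) > 0`.  So `ε = El_b(δ) (a - a')/a^2`. -/
def SbdStmt : Prop :=
  ∀ (n : ℕ) (C A : ℝ) (f : ℝ → ℝ), 4 ≤ n → FixU n C f → 0 < C → 0 < A → Low n (1 + A) f →
    ∃ δ ε : ℝ, 0 < δ ∧ δ ≤ 1 ∧ 0 < ε ∧ ∀ τ1 τ2 : ℝ, 0 ≤ τ1 → τ1 ≤ τ2 → τ2 ≤ δ →
      ε * (τ2 ^ 2 - τ1 ^ 2) ≤ El n (1 / (1 + A)) f τ1 - El n (1 / (1 + A)) f τ2

/-- SMB (medium-strong; uses KSN, JEL, CVA, CVB, RPO).  PROOF.  `b < 1`, `γ ρ = El n b f (ta b c ρ)` is antitone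
(TAU).  `r2 = min (1/sqrt (n-1)) (δ sqrt b)`, `r1 = r2/2`; `D ρ = 1 + (b-1) c^2 (1-ρ^2) ∈ [b,1]`, so
`τj = ta b c rj = rj c/sqrt (D rj)`, `τ2 ≤ r2 c/sqrt b ≤ δ`, `τ1 ≤ τ2`,
`τ2^2 - τ1^2 = c^2 (r2^2/D2 - r1^2/D1) = c^2 (r2^2 - r1^2) (1 + (b-1) c^2)/(D1 D2) ≥ c^2 (3/4) r2^2 b`.  KSN and the
hypothesis: `∫ kk γ ≥ e1 c^2`, `e1 = r1 (1-r1^2)^((n-2)/2) ε (3/4) r2^2 b > 0`, for all `c ∈ [0,1]`.  JEL:
`RA'_b ≥ (n-2) RB'_b + e1 c^2`.  CVA, CVB: `RA'_b = q^(1/2) RA`, `RB'_b = q^(3/2) RB`, `q = 1 + (b-1) c^2 ∈ [b,1]`: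
`RA ≥ q (n-2) RB + e1 c^2` (`q^(-1/2) ≥ 1`).  `RB ≤ M` (RPO, `M = max f` on `[0,1]`), so
`b1 = b + min (e1/((n-2) M)) ((1-b)/2)`. -/
def SmbStmt : Prop :=
  ∀ (n : ℕ) (b δ ε : ℝ) (f : ℝ → ℝ), 4 ≤ n → ContinuousOn f (Icc 0 1) →
    (∀ t ∈ Icc (0 : ℝ) 1, 0 < f t) → 0 < b → b < 1 → Upp n b f → 0 < δ → δ ≤ 1 → 0 < ε →
    (∀ τ1 τ2 : ℝ, 0 ≤ τ1 → τ1 ≤ τ2 → τ2 ≤ δ →
      ε * (τ2 ^ 2 - τ1 ^ 2) ≤ El n b f τ1 - El n b f τ2) →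
    ∃ b1 : ℝ, b < b1 ∧ b1 < 1 ∧ ∀ c ∈ Icc (0 : ℝ) 1,
      (1 + (b1 - 1) * c ^ 2) * (((n : ℝ) - 2) * RB n f c) ≤ RA n f c

/-- IMP (medium-strong; uses YMO, RCT, RPO, WLM, MRA, CVB).  PROOF.  YMO (second part, `g = b1`, all `c1 > 0`) and
the continuity of `RA` at `0` (RCT): `N(c) = (1 + (b1-1) c^2) RA(c)^2` is antitone on `[0,1]`.
`RB'_b(c) = q^(3/2) RB(c)`, `q = 1 + (b-1) c^2` (CVB) is antitone (MRA).  `c^2 = 1 - t^2`, `x = t^2`: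
`q = b + (1-b) x`, `1 + (b1-1) c^2 = b1 + (1-b1) x`.  With `a'` and `W` of WLM
`El n a' f t = (1 + (a'-1) x)^((n+1)/2) C RB RA^(n-2) = C W(x) RB'_b(c) N(c)^((n-2)/2)`, a product of nonnegative
nondecreasing functions of `t`.  `A' = a' - 1`. -/
def ImpStmt : Prop :=
  ∀ (n : ℕ) (C b b1 : ℝ) (f : ℝ → ℝ), 4 ≤ n → FixU n C f → 0 < C → 0 < b → b < b1 → b1 < 1 →
    Upp n b f →
    (∀ c ∈ Icc (0 : ℝ) 1, (1 + (b1 - 1) * c ^ 2) * (((n : ℝ) - 2) * RB n f c) ≤ RA n f c) →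
    ∃ A' : ℝ, 0 ≤ A' ∧ 1 + A' < 1 / b ∧ Low n (1 + A') f

/-- FCO (easy-medium; uses STA, SBD, SMB, IMP).  **A fixed density with a finite comparison is constant.**
PROOF.  `S = {A ≥ 0 | Low n (1+A) f}` is nonempty, bounded below and closed (`El n (1+A) f t` is continuous in `A`,
`ge_of_tendsto`), let `A = sInf S ∈ S`.  `f = TT n (n-1) 0 C f` on `[0,1]`, so STA (`i = n-1`, `(i+2)/(n+1) = 1`) gives
`Upp n (1/(1+A)) f`.  If `A > 0`: SBD, SMB (`b = 1/(1+A)`), IMP give a smaller element, contradiction.  So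
`A = 0`; `El n 1 f = f`: `f` is monotone and antitone on `[0,1]`. -/
def FcoStmt : Prop :=
  ∀ (n : ℕ) (C A : ℝ) (f : ℝ → ℝ), 4 ≤ n → FixU n C f → 0 < C → 0 ≤ A → Low n (1 + A) f →
    ∀ t ∈ Icc (0 : ℝ) 1, f t = f 0

/-- FIX (medium; uses YDR, RBC, RCT).  **From a bounded density to an exact continuous fixed density.**
`f1 = TT n (n-1) 0 D φ`, `f2 = TT n (n-1) 0 D f1`.  PROOF.  `RA φ`, `RB φ` are continuous at every `c > 0` (YDR, RBC),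
so `f1` is continuous on `[0,1)`; it is measurable (parametric integral) and bounded.  The hypothesis and YDR
(uniqueness of derivatives on `(0,1)`, continuity of `RB` at `1`): `RB φ = κ RB f1` on `(0,1]`.
So `f1 = κ^(n-1) f2` on `[0,1)` (`c > 0`), and `RA f1 = κ^(n-1) RA f2`, `RB f1 = κ^(n-1) RB f2` on `[0,1]` (`r c < 1` for
`r < 1`), `f2 = D RB f1 RA f1^(n-2) = D κ^((n-1)^2) RB f2 RA f2^(n-2)`.  Continuity of `f2` on `[0,1]`: RCT for `f1`.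
Positivity: `RA φ 1 > 0` implies that `φ` is not a.e. `0` on `(0,1)`, so `RB φ 1 > 0`, `f1 0 > 0`, `f1 > 0` near `0`, so
`RA f1 c > 0` for `c ∈ (0,1]`, so `RA φ c > 0`, `φ` is not a.e. `0` on `(0,c)`, `RB φ c > 0`, `f1 > 0` on
`[0,1)`, `RA f1, RB f1 > 0` on `[0,1]`, `f2 > 0` on `[0,1]`. -/
def FixStmt : Prop :=
  ∀ (n : ℕ) (D κ : ℝ) (φ : ℝ → ℝ), 4 ≤ n → 0 < D → 0 < κ → Measurable φ → (∀ t, 0 ≤ φ t) →
    (∃ M, ∀ t, φ t ≤ M) → 0 < RA n φ 1 →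
    (∀ c ∈ Ioc (0 : ℝ) 1, RA n φ c = κ * RA n (TT n (n - 1) 0 D φ) c) →
    (∃ C : ℝ, 0 < C ∧ FixU n C (TT n (n - 1) 0 D (TT n (n - 1) 0 D φ))) ∧
    ∃ k : ℝ, 0 < k ∧ ∀ t ∈ Ico (0 : ℝ) 1,
      TT n (n - 1) 0 D φ t = k * TT n (n - 1) 0 D (TT n (n - 1) 0 D φ) t

end Pool.Agent.REV
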