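import Pool.Agent.REV.StmtsU
import Pool.Agent.REV.StmtsV3

set_option autoImplicit false

/-!
# Squad REV, part P3: `n = 3`, `i = 2`: for a fixed density `c^3 RB(c)` is nondecreasing

For `n ≥ 4` this is true for every density; for `n = 3` it is false in general, and for a FIXED density it is
proved here by a contraction argument.

`b` = slope (`t = (1+b^2)^(-1/2)`, `c = b (1+b^2)^(-1/2)`, `1/b = √(1-c^2)/c`).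
`U s = (1+s^2)^(-2) f((1+s^2)^(-1/2))`, `V k = ∫_0^∞ U(√(k^2+τ^2)) dτ`, `W k = ∫_0^∞ τ^2 U(√(k^2+τ^2)) dτ`.
Then `c^3 RB = V(1/b)`, `c RA = W(1/b)`, and a fixed density has `U b = C b^(-4) V(1/b) W(1/b)`.

THE ARGUMENT.  Let `b^(p+4) U b` be nondecreasing (true for some `p`, if `f` is Lipschitz in `t^2`).
Scaling: `s^(-2p) U s` is nonincreasing (PUP).  If `s^(-q) U` is nonincreasing, then `k^(-m) V k` is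
nonincreasing with `m = q/2 - q/(4(1+q)) < q/2` (PDN, PDL).  `W` is nonincreasing for free (PWM).  So
`b^(m+4) U b` is nondecreasing with `q = 2p`, `m < p`.  Hence `p = 0`, `U` is nonincreasing, `V` is nonincreasing.

Rows HKE HRB HRA HSM HST HLX: a fixed density is Lipschitz in `t^2` (Hoelder exponents `0 → 1/2 → 3/4 → 1`).
-/

namespace Pool.Agent.REV

open Set MeasureTheory Filter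
open scoped Topology

/-- `(1+s^2)^(-2) f((1+s^2)^(-1/2))` -/
noncomputable def uU (f : ℝ → ℝ) (s : ℝ) : ℝ :=
  ((1 + s ^ 2) ^ 2)⁻¹ * f (Real.sqrt (1 + s ^ 2))⁻¹

/-- `∫_0^∞ U(√(k^2+τ^2)) dτ` -/
noncomputable def vV (U : ℝ → ℝ) (k : ℝ) : ℝ :=
  ∫ τ in Ioi (0 : ℝ), U (Real.sqrt (k ^ 2 + τ ^ 2))

/-- `∫_0^∞ τ^2 U(√(k^2+τ^2)) dτ` -/
noncomputable def wW (U : ℝ → ℝ) (k : ℝ) : ℝ :=
  ∫ τ in Ioi (0 : ℝ), τ ^ 2 * U (Real.sqrt (k ^ 2 + τ ^ 2))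

/-- the data of `U` -/
structure UU (M : ℝ) (U : ℝ → ℝ) : Prop where
  cont : ContinuousOn U (Ici 0)
  pos : ∀ s : ℝ, 0 ≤ s → 0 < U s
  le : ∀ s : ℝ, 0 ≤ s → U s ≤ M * ((1 + s ^ 2) ^ 2)⁻¹

/-- the fixed point equation for `U` -/
def UEq (C : ℝ) (U : ℝ → ℝ) : Prop :=
  ∀ b : ℝ, 0 < b → U b = C * ((b ^ 4)⁻¹ * (vV U (1 / b) * wW U (1 / b)))

/-- PIN (easy-medium; uses nothing).  Proof.  `(1 + k^2 + τ^2)^(-2) ≤ (1+τ^2)^(-1)` and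
`τ^2 (1+k^2+τ^2)^(-2) ≤ (1+τ^2)^(-1)` (`integrable_inv_one_add_sq`); measurable because continuous on `Ioi 0`.
Positive: the integrands are positive on `Ioi 0` (`setIntegral_pos_iff_support_of_nonneg_ae`). -/
def PinStmt : Prop :=
  ∀ (M : ℝ) (U : ℝ → ℝ), UU M U → ∀ k : ℝ, 0 ≤ k →
    IntegrableOn (fun τ : ℝ => U (Real.sqrt (k ^ 2 + τ ^ 2))) (Ioi 0) ∧
    IntegrableOn (fun τ : ℝ => τ ^ 2 * U (Real.sqrt (k ^ 2 + τ ^ 2))) (Ioi 0) ∧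
    0 < vV U k ∧ 0 < wW U k

/-- PUB (easy; uses nothing).  Proof.  `(√(1+s^2))⁻¹ ∈ (0,1]` is continuous in `s`; `M` = maximum of `f`. -/
def PubStmt : Prop :=
  ∀ f : ℝ → ℝ, ContinuousOn f (Icc 0 1) → (∀ t ∈ Icc (0 : ℝ) 1, 0 < f t) → ∃ M : ℝ, UU M (uU f)

/-- PFO (medium; uses nothing).  The formulas for `RA`, `RB`.  Proof.  Substitution `r = (1 + c^2 τ^2)^(-1/2)`,
`τ ∈ (0,∞)`, `r ∈ (0,1)` (`integral_image_eq_integral_abs_deriv_smul`): `dr = - c^2 τ (1+c^2τ^2)^(-3/2) dτ`,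
`1 - r^2 = c^2 τ^2/(1+c^2τ^2)`, so `r^2 (1-r^2)^(-1/2) |dr| = c (1+c^2τ^2)^(-2) dτ` and
`(1-r^2)^(1/2) |dr| = c^3 τ^2 (1+c^2τ^2)^(-2) dτ`; `c^4 (1+c^2τ^2)^(-2) = (c^(-2) + τ^2)^(-2)`,
`r c = (c^(-2)+τ^2)^(-1/2)`, and `c^(-2) = 1 + k^2` for `k = √(1-c^2)/c`. -/
def PfoStmt : Prop :=
  ∀ f : ℝ → ℝ, ContinuousOn f (Icc 0 1) → ∀ c ∈ Ioc (0 : ℝ) 1,
    c ^ 3 * RB 3 f c = vV (uU f) (Real.sqrt (1 - c ^ 2) / c) ∧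
    c * RA 3 f c = wW (uU f) (Real.sqrt (1 - c ^ 2) / c)

/-- PEQ (easy-medium; uses PFO).  The fixed point equation.  Proof.  `t = (√(1+b^2))⁻¹`,
`c = √(1-t^2) = b t`, `√(1-c^2)/c = t/c = 1/b`; `uU f b = t^4 f t = C t^4 RB RA = C (t/c)^4 (c^3 RB) (c RA)`
(`FixU.eq`, `n - 2 = 1`). -/
def PeqStmt : Prop := ∀ (C : ℝ) (f : ℝ → ℝ), FixU 3 C f → UEq C (uU f)

/-- PST (easy-medium; uses nothing).  The start.  Proof.  `h > 0` the minimum of `f`, `p = K/h`.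
`b^4 uU f b = (b^2/(1+b^2))^2 f t`, the first factor is nondecreasing.  For `b ≤ b' = λ b`:
`t^2 - t'^2 = b^2 (λ^2-1)/((1+b^2)(1+λ^2b^2)) ≤ (λ-1)/(λ+1)` (`(1+b^2)(1+λ^2b^2) ≥ (1+λ)^2 b^2`) `≤ (λ-1)/λ ≤ log λ`,
so `f t ≤ f t' + K log λ ≤ f t' (1 + p log λ) ≤ λ^p f t'`. -/
def PstStmt : Prop :=
  ∀ (K : ℝ) (f : ℝ → ℝ), 0 ≤ K → ContinuousOn f (Icc 0 1) → (∀ t ∈ Icc (0 : ℝ) 1, 0 < f t) →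
    (∀ x ∈ Icc (0 : ℝ) 1, ∀ z ∈ Icc (0 : ℝ) 1, |f x - f z| ≤ K * |x ^ 2 - z ^ 2|) →
    ∃ p : ℝ, 0 ≤ p ∧ MonotoneOn (fun b : ℝ => b ^ (p + 4) * uU f b) (Ioi 0)

/-- PUP (medium; uses PIN).  Scaling.  Proof.  `λ = b'/b ≥ 1`, `k = 1/b`, `k' = 1/b' = k/λ`.  The hypothesis at
`s/λ ≤ s`: `U (s/λ) ≤ λ^(p+4) U s` for `s > 0`.  Substitution `τ → τ/λ` (`integral_comp_mul_left_Ioi`):
`V k' = λ⁻¹ ∫ U(√(k^2+τ^2)/λ) dτ ≤ λ^(p+3) V k`, `W k' = λ^(-3) ∫ τ^2 U(√(k^2+τ^2)/λ) ≤ λ^(p+1) W k`.  So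
`U b' = C b'^(-4) V k' W k' ≤ C b^(-4) λ^(-4) λ^(2p+4) V k W k = λ^(2p) U b`. -/
def PupStmt : Prop :=
  ∀ (C M p : ℝ) (U : ℝ → ℝ), 0 < C → 0 ≤ p → UU M U → UEq C U →
    MonotoneOn (fun b : ℝ => b ^ (p + 4) * U b) (Ioi 0) →
    ∀ b b' : ℝ, 0 < b → b ≤ b' → U b' ≤ (b' / b) ^ (2 * p) * U b

/-- PDJ (easy-medium; uses nothing).  Proof.  `T = q θ^2`; the left side is
`q T (T+2q-1)/((q+T)(1+T)^2)`.  `T/(1+T)^2 ≤ 1/4`.  If `q ≤ 1`: `T+2q-1 ≤ T+q`, so it is `≤ q/4`.  If `q ≥ 1`: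
`(T+2q-1)/(T+q) = 1 + (q-1)/(T+q) ≤ 2 - 1/q`, so it is `≤ q/2 - 1/4`.  Both are `≤ q/2 - q/(4(1+q))`. -/
def PdjStmt : Prop :=
  ∀ q θ : ℝ, 0 < q →
    q / ((1 + θ ^ 2) * (1 + q * θ ^ 2)) - q * (1 - q * θ ^ 2) / (1 + q * θ ^ 2) ^ 2 ≤
      q / 2 - q / (4 * (1 + q))

/-- PDN (medium-strong; uses PDJ, PIN).  One infinitesimal step.  Proof.
`g τ = τ - ε q k^2 τ/(k^2 + q τ^2)`, `g' τ = 1 - ε q k^2 (k^2 - q τ^2)/(k^2+qτ^2)^2 ≥ 1 - ε q > 0`, `g 0 = 0`,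
`g → ∞`.  With `θ = τ/k`: `g τ = k (θ + ε ξ)`, `ξ = -qθ/(1+qθ^2)`, `g' = 1 + ε ξ'`,
`ξ' = -q(1-qθ^2)/(1+qθ^2)^2`, `1 + θ ξ = 1/(1+qθ^2)`, `ξ^2 ≤ q/4`.
`V(k(1+ε)) = ∫_0^∞ U(√(k^2(1+ε)^2 + (g τ)^2)) g' τ dτ` (`integral_comp_mul_deriv_Ioi` or
`integral_image_eq_integral_abs_deriv_smul`).  `σ0 = √(k^2+τ^2)`, `σ1 = √(k^2(1+ε)^2+(g τ)^2)`:
`σ1^2 = σ0^2 + k^2 (2ε/(1+qθ^2) + ε^2 (1+ξ^2)) ≥ σ0^2`, so `U σ1 ≤ (σ1^2/σ0^2)^(q/2) U σ0` and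
`(σ1^2/σ0^2)^(q/2) ≤ exp((q/2) (2ε/(1+qθ^2) + ε^2(1+ξ^2))/(1+θ^2))`, `1 + ε ξ' ≤ exp(ε ξ')`.  By PDJ the product is
`≤ exp(m ε + (q/2)(1+q/4) ε^2) ≤ exp(m ε + q (1+q) ε^2)`. -/
def PdnStmt : Prop :=
  ∀ (M q : ℝ) (U : ℝ → ℝ), 0 < q → UU M U →
    (∀ s s' : ℝ, 0 < s → s ≤ s' → U s' ≤ (s' / s) ^ q * U s) →
    ∀ k ε : ℝ, 0 < k → 0 < ε → ε * (1 + q) ≤ 1 →
      vV U (k * (1 + ε)) ≤
        Real.exp ((q / 2 - q / (4 * (1 + q))) * ε + q * (1 + q) * ε ^ 2) * vV U k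

/-- PDL (easy-medium; uses PDN, PIN).  Proof.  `λ = k'/k > 1`, `δ = (log λ)/N`, `ε = exp δ - 1`, `0 < ε ≤ δ + δ^2 ≤ 2 δ`
for `δ ≤ 1`.  PDN `N` times: `V k' ≤ exp(N (m (δ+δ^2) + 4 q(1+q) δ^2)) V k`, and the exponent tends to `m log λ` for
`N → ∞` (`ge_of_tendsto` / `le_of_tendsto`). -/
def PdlStmt : Prop :=
  ∀ (M q : ℝ) (U : ℝ → ℝ), 0 < q → UU M U →
    (∀ s s' : ℝ, 0 < s → s ≤ s' → U s' ≤ (s' / s) ^ q * U s) →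
    ∀ k k' : ℝ, 0 < k → k ≤ k' → vV U k' ≤ (k' / k) ^ (q / 2 - q / (4 * (1 + q))) * vV U k

/-- PWM (easy-medium; uses PIN).  `W` is nonincreasing for every `U`.  Proof.  `0 ≤ k < k'`, `d = k'^2 - k^2 > 0`.
`W k ≥ ∫_(τ > √d) τ^2 U(√(k^2+τ^2)) dτ = ∫_0^∞ ρ √(ρ^2+d) U(√(k'^2+ρ^2)) dρ` (substitution `τ = √(ρ^2+d)`,
`dτ = ρ/τ dρ`) `≥ ∫_0^∞ ρ^2 U(√(k'^2+ρ^2)) dρ = W k'`. -/
def PwmStmt : Prop := ∀ (M : ℝ) (U : ℝ → ℝ), UU M U → AntitoneOn (wW U) (Ici 0)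

/-- PZR (medium; uses PIN, PUP, PDL, PWM).  **The contraction argument.**  Proof.
`P = {p ≥ 0 | b^(p+4) U b nondecreasing on (0,∞)}`, `p0 = sInf P ∈ P` (for `b ≤ b'` the inequality passes to the
limit in `p`).  If `p0 > 0`: PUP, PDL with `q = 2 p0`, `m = q/2 - q/(4(1+q)) ∈ (0, p0)`: for `b ≤ b'`
`V(1/b) ≤ (b'/b)^m V(1/b')` and `W(1/b) ≤ W(1/b')` (PWM), so `b^4 U b = C V(1/b) W(1/b) ≤ (b'/b)^m b'^4 U b'`,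
`m ∈ P`, contradiction.  So `p0 = 0`, and PUP with `p = 0`. -/
def PzrStmt : Prop :=
  ∀ (C M p : ℝ) (U : ℝ → ℝ), 0 < C → 0 ≤ p → UU M U → UEq C U →
    MonotoneOn (fun b : ℝ => b ^ (p + 4) * U b) (Ioi 0) → AntitoneOn U (Ioi 0)

/-- PMB (easy-medium; uses PIN, PUB, PFO, PEQ, PST, PZR, HLX).  **The result of this part.**  Proof.  `U = uU f` is
nonincreasing on `(0,∞)` (PUB, PEQ, HLX, PST, PZR), so `V` is nonincreasing on `[0,∞)` (pointwise, integrable by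
PIN); `c ↦ √(1-c^2)/c` is nonincreasing on `(0,1]`; PFO.  At `c = 0` the function is `0`, and it is `≥ 0`. -/
def PmbStmt : Prop :=
  ∀ (C : ℝ) (f : ℝ → ℝ), FixU 3 C f → 0 < C → MonotoneOn (fun c => c ^ 3 * RB 3 f c) (Icc 0 1)

/-! ### Regularity of a fixed density -/

/-- the pairs of exponents of the bootstrap -/
def Exq (α γ : ℝ) : Prop :=
  (α = 0 ∧ γ = 1 / 2) ∨ (α = 1 / 4 ∧ γ = 3 / 4) ∨ (α = 3 / 4 ∧ γ = 1)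

/-- HKE (medium; uses nothing).  Kernel estimate.  Proof.  `0 ≤ u^(-1/2) - (u+δ)^(-1/2) ≤ u^(-1/2)` and
`≤ (δ/2) u^(-3/2)` (mean value theorem, or `(√(u+δ) - √u)/(√u √(u+δ)) = δ/(√u √(u+δ) (√u+√(u+δ))) ≤ δ/(2 u^(3/2))`).
`α = 3/4`: `≤ (δ/2) ∫_0^1 u^(-3/4) = 2 δ`.  `α = 0`, `1/4`: on `(0, δ)` the first bound:
`∫_0^δ u^(α-1/2) = δ^(α+1/2)/(α+1/2) ≤ 2 δ^γ`; on `(δ, 1)` the second: `(δ/2) ∫_δ^∞ u^(α-3/2) = (δ^(α+1/2)/2)/(1/2-α) ≤ 2 δ^γ`.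
(If `X ≤ δ` only the first part.) -/
def HkeStmt : Prop :=
  ∀ α γ : ℝ, Exq α γ → ∀ X δ : ℝ, 0 < X → X ≤ 1 → 0 < δ →
    IntervalIntegrable (fun u : ℝ => (u ^ (-(1 / 2) : ℝ) - (u + δ) ^ (-(1 / 2) : ℝ)) * u ^ α)
      volume 0 X ∧
    ∫ u in (0 : ℝ)..X, (u ^ (-(1 / 2) : ℝ) - (u + δ) ^ (-(1 / 2) : ℝ)) * u ^ α ≤ 4 * δ ^ γ

/-- HRB (medium-strong; uses HKE).  `RB` away from the pole.  Proof.  `X = c^2`, `h w = √w f(√w)`: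
`X RB(√X) = (1/2) ∫_0^X (X-w)^(-1/2) h w dw` (substitution `w = r^2 X`).  For `1/2 ≤ X < X' ≤ 1`, `δ = X' - X`:
`2 (X' RB(√X') - X RB(√X)) = ∫_0^X ((X'-w)^(-1/2) - (X-w)^(-1/2)) (h w - h X) dw +
∫_X^X' (X'-w)^(-1/2) (h w - h X) dw + h X (2 √X' - 2 √X)`.  `|h w - h X| ≤ |f √w - f √X| + M |√w - √X| ≤
(L + 2 M) |w - X|^α` (`|√w - √X| ≤ |w-X|/√X ≤ 2 |w-X|`, `|w - X| ≤ 1`).  First integral: HKE with `u = X - w`; second: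
`≤ (L+2M) δ^α 2 δ^(1/2) ≤ 2 (L+2M) δ^γ` (`δ ≤ 1`, `α + 1/2 ≥ γ`); third `≤ 4 M δ`.  Then divide by `X`, `X'`
(`|RB| ≤ 2 M`). -/
def HrbStmt : Prop :=
  ∀ (α γ M L : ℝ) (f : ℝ → ℝ), Exq α γ → ContinuousOn f (Icc 0 1) → 0 ≤ L →
    (∀ t ∈ Icc (0 : ℝ) 1, |f t| ≤ M) →
    (∀ x ∈ Icc (0 : ℝ) 1, ∀ z ∈ Icc (0 : ℝ) 1, |f x - f z| ≤ L * |x ^ 2 - z ^ 2| ^ α) →
    ∃ K : ℝ, 0 ≤ K ∧ ∀ c c' : ℝ, 0 ≤ c → 0 ≤ c' → 1 / 2 ≤ c ^ 2 → 1 / 2 ≤ c' ^ 2 → c ≤ 1 → c' ≤ 1 →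
      |RB 3 f c - RB 3 f c'| ≤ K * |c ^ 2 - c' ^ 2| ^ γ

/-- HRA (easy-medium; uses Yd3Stmt).  `RA` away from the pole.  Proof.  Replace `f` by
`t ↦ f (max 0 (min t 1))` (continuous, bounded; `RA`, `RB` at `c ∈ [0,1]` do not change).  `(c RA)' = RB` (YD3),
`|RB| ≤ 2 M` (`r^2 (1-r^2)^(-1/2) ≤ (1-r)^(-1/2)`, `∫_0^1 (1-r)^(-1/2) = 2`), so `|c RA c - c' RA c'| ≤ 2 M |c - c'|`
(mean value theorem), `|RA| ≤ M`; divide by `c ≥ 1/2`; `|c - c'| ≤ |c^2 - c'^2|` as `c + c' ≥ 1`. -/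
def HraStmt : Prop :=
  ∀ (M : ℝ) (f : ℝ → ℝ), ContinuousOn f (Icc 0 1) → (∀ t ∈ Icc (0 : ℝ) 1, |f t| ≤ M) →
    ∃ K : ℝ, 0 ≤ K ∧ ∀ c c' : ℝ, 0 ≤ c → 0 ≤ c' → 1 / 2 ≤ c ^ 2 → 1 / 2 ≤ c' ^ 2 → c ≤ 1 → c' ≤ 1 →
      |RA 3 f c - RA 3 f c'| ≤ K * |c ^ 2 - c' ^ 2|

/-- HSM (easy-medium; uses nothing).  Near the pole.  Proof.  For `c, c' ∈ [0,a]`, `r ∈ [0,1]`: `r c, r c' ∈ [0,a]`,
`|f(rc) - f(rc')| ≤ L |r^2 (c^2 - c'^2)|^γ ≤ L |c^2-c'^2|^γ`; the weights are `≥ 0` and integrable with integral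
`≤ 1`, `≤ 2` (`r^2 (1-r^2)^(-1/2) ≤ (1-r)^(-1/2)`). -/
def HsmStmt : Prop :=
  ∀ (γ L a : ℝ) (f : ℝ → ℝ), 0 ≤ γ → 0 ≤ L → 0 ≤ a → a ≤ 1 → ContinuousOn f (Icc 0 1) →
    (∀ x ∈ Icc (0 : ℝ) a, ∀ z ∈ Icc (0 : ℝ) a, |f x - f z| ≤ L * |x ^ 2 - z ^ 2| ^ γ) →
    ∀ c ∈ Icc (0 : ℝ) a, ∀ c' ∈ Icc (0 : ℝ) a,
      |RA 3 f c - RA 3 f c'| ≤ 2 * L * |c ^ 2 - c' ^ 2| ^ γ ∧
      |RB 3 f c - RB 3 f c'| ≤ 2 * L * |c ^ 2 - c' ^ 2| ^ γ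

/-- HST (medium; uses HRB, HRA, HSM).  The step of the bootstrap.  Proof.  `M` = maximum of `f`, `|RA| ≤ M`,
`|RB| ≤ 2 M`, `a = √(1/2)`.  For `t, t' ∈ [0,a]`: `c^2 = 1 - t^2 ≥ 1/2`, `|c^2 - c'^2| = |t^2 - t'^2|`, HRB, HRA (with
`|x| ≤ |x|^γ` for `|x| ≤ 1`) and `f t = C RB RA` (`|ab - a'b'| ≤ |a-a'| |b| + |a'| |b-b'|`).  For
`t, t' ∈ [a,1]`: `c, c' ∈ [0,a]`, HSM with the constant just found.  For `t ≤ a ≤ t'`: triangle inequality through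
`a` (`(a^2-t^2)^γ, (t'^2-a^2)^γ ≤ (t'^2-t^2)^γ`). -/
def HstStmt : Prop :=
  ∀ (α γ C L : ℝ) (f : ℝ → ℝ), Exq α γ → FixU 3 C f → 0 < C → 0 ≤ L →
    (∀ x ∈ Icc (0 : ℝ) 1, ∀ z ∈ Icc (0 : ℝ) 1, |f x - f z| ≤ L * |x ^ 2 - z ^ 2| ^ α) →
    ∃ L' : ℝ, 0 ≤ L' ∧
      ∀ x ∈ Icc (0 : ℝ) 1, ∀ z ∈ Icc (0 : ℝ) 1, |f x - f z| ≤ L' * |x ^ 2 - z ^ 2| ^ γ

/-- HLX (easy; uses HST).  Proof.  `α = 0` with `L = 2 M` (`x ^ 0 = 1`); `|x|^(1/2) ≤ |x|^(1/4)` for `|x| ≤ 1`; then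
`α = 1/4`, `α = 3/4`. -/
def HlxStmt : Prop :=
  ∀ (C : ℝ) (f : ℝ → ℝ), FixU 3 C f → 0 < C →
    ∃ K : ℝ, 0 ≤ K ∧
      ∀ x ∈ Icc (0 : ℝ) 1, ∀ z ∈ Icc (0 : ℝ) 1, |f x - f z| ≤ K * |x ^ 2 - z ^ 2|

end Pool.Agent.REV
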