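import Pool.Agent.REV.StmtsG2
import Pool.Agent.REV.Ifc

set_option autoImplicit false

/-!
# Squad REV, part G3: the step on zonal densities is `TT`; the interfaces `G1Stmt`, `G2Stmt`,
`LawStmt` of `Ifc.lean`; slicing along the axis and the directional derivative of `hz (zon e φ)`

`n = finrank ℝ E`.  The facts of squad BPH are PROVED and may be imported directly, see the head of
`StmtsG.lean`.
-/

open MeasureTheory Module Set Filter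
open scoped RealInnerProductSpace Pointwise Topology ENNReal

namespace Pool.Agent.REV

open Pool.Agent.BPH Pool.Agent.Helper55_PB Pool.Agent.Helper28_PB

/-! ### The step -/

/-- (ZQQ) (medium; uses MOB, ZSM, LWU).  **`QQ` of a zonal density.**
PROOF.  `c = √(1 - ⟪e, u⟫^2) = ‖po u e‖ > 0` (`po_formula`), `e' = nrm (po u e)` (a unit vector orthogonal
to `u`, `po u e = c • e'`).  For `x` in `u^⊥`: `⟪e, x⟫ = ⟪po u e, x⟫ = c ⟪e', x⟫`.  So on unit vectors of `u^⊥` the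
density is `zon e φ x = ψ ⟪e', x⟫` with `ψ s = φ (min |c s| 1)` (bounded measurable), hence
`QQ i (zon e φ) u = QQ i (fun x => ψ ⟪e', x⟫) u` (a.e. equality of the integrands: `nrm (po u (x l))` is in
`u^⊥` always).  ZSM: `SM ψ u e' a b`.  LWU (for `s^2 ψ s`, `(1-s^2) ψ s` with `s` replaced by `min s 1` to be
bounded; on unit vectors `|⟪e', x⟫| ≤ 1`): `a = kap n * ∫_0^1 s^2 (1-s^2)^((n-4)/2) φ (c s) ds = kap n * RB n φ c`,
`b = kap n * RA n φ c / (n-2)` (`(1-s^2) (1-s^2)^((n-4)/2) = (1-s^2)^((n-2)/2)` on `(0,1)`).  MOB: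
`QQ = descF(n-2,i) b^i + i descF(n-2,i-1) a b^(i-1) = kap^i (C1 RA^i + C2 RB RA^(i-1))`. -/
def ZqqStmt : Prop :=
  ∀ {E : Type} [NormedAddCommGroup E] [InnerProductSpace ℝ E] [FiniteDimensional ℝ E]
    [MeasurableSpace E] [BorelSpace E] (e u : E) (φ : ℝ → ℝ) (i : ℕ), 4 ≤ finrank ℝ E → 1 ≤ i →
    ‖e‖ = 1 → ‖u‖ = 1 → po u e ≠ 0 → Prf φ →
    QQ i (zon e φ) u = kap (finrank ℝ E) ^ i *
      TT (finrank ℝ E) i (C1 (finrank ℝ E) i) (C2 (finrank ℝ E) i) φ ⟪e, u⟫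

/-- (CPO) (easy; uses nothing).  The constants.  PROOF.  `Nat.descFactorial` is positive for `i ≤ n-2`
(`Nat.descFactorial_pos` or `Nat.pow_sub_lt_descFactorial`..), `n - 2 > 0`; `kap`: the integrand is
positive and continuous on `(0,1)`, between `0` and `1`. -/
def CpoStmt : Prop :=
  ∀ n i : ℕ, 4 ≤ n → 1 ≤ i → i + 1 ≤ n →
    (i + 2 ≤ n → 0 < C1 n i) ∧ 0 ≤ C1 n i ∧ 0 < C2 n i ∧ 0 < kap n

/-- (ZST) (easy-medium; uses DEQ, ZQQ, TTP, CPO).  **The step on zonal densities.**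
PROOF.  DEQ: `f' = c QQ i f / ZZ i f` is a bounded density with `IsStep i f f'`, `f = zon e φ`.  By ZQQ
`f' u = s TT .. φ ⟪e, u⟫` with `s = c kap^i / ZZ i f` for every unit vector `u` with `po u e ≠ 0`, i.e. `u` not a
multiple of `e` (almost all `u`: `SPH.null` for `span {e}`, `SPH.norm`), and
`TT .. φ ⟪e, u⟫ = TT .. φ (min |⟪e, u⟫| 1)` (`TT` depends on `t^2`; `|⟪e, u⟫| ≤ 1`).  So
`zon e (fun t => s * TT .. φ t)` is equal to `f'` a.e., and `Dens`, `IsStep` are inherited (TTP for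
measurability and bound).  `ZZ i f > 0`: ZFU.pos (`BPH/Zfu.lean`). -/
def ZstStmt : Prop :=
  ∀ (E : Type) [NormedAddCommGroup E] [InnerProductSpace ℝ E] [FiniteDimensional ℝ E]
    [MeasurableSpace E] [BorelSpace E] (i : ℕ), 4 ≤ finrank ℝ E → 1 ≤ i → i + 1 ≤ finrank ℝ E →
    ∃ c : ℝ, 0 < c ∧
    ∀ (e : E) (φ : ℝ → ℝ), ‖e‖ = 1 → Prf φ → Dens (zon e φ) → 0 < ZZ i (zon e φ) ∧
      Prf (fun t => c / ZZ i (zon e φ) *
        TT (finrank ℝ E) i (C1 (finrank ℝ E) i) (C2 (finrank ℝ E) i) φ t) ∧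
      Dens (zon e (fun t => c / ZZ i (zon e φ) *
        TT (finrank ℝ E) i (C1 (finrank ℝ E) i) (C2 (finrank ℝ E) i) φ t)) ∧
      IsStep i (zon e φ) (zon e (fun t => c / ZZ i (zon e φ) *
        TT (finrank ℝ E) i (C1 (finrank ℝ E) i) (C2 (finrank ℝ E) i) φ t))

/-- (G2Z) (easy-medium; uses ZST, CPO).  The interface `G2Stmt` of `Ifc.lean`.
PROOF.  `C1 = c * C1 n i`, `C2 = c * C2 n i` with `c` of ZST.  For `f` with `Dens (zon e f)` put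
`φ t = f (min |t| 1) = zon e f (t • e)`: measurable, nonnegative, bounded, and `zon e φ = zon e f`,
`TT .. φ = TT .. f` (in `RA n φ c`, `RB n φ c` with `c = √(1-t^2) ∈ [0,1]` only the values at `r c ∈ [0,1]` occur,
where `φ = f`).  `c / ZZ * TT n i C1 C2 f t = ZZ⁻¹ * TT n i (c C1) (c C2) f t`. -/
def G2zStmt : Prop := G2Stmt

/-- (LWZ) (easy-medium; uses LWH).  The interface `LawStmt` of `Ifc.lean`.
PROOF.  LWH with `ψ s = f (min |s| 1)` (`= zon e f (s • e)`, measurable; bounded); the weight and `ψ` are even: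
`∫ x in -1..1, g |x| = 2 ∫ x in 0..1, g x`; `κ = 1 / ∫_0^1 (1-r^2)^((k-3)/2) dr > 0`; on `[0,1]`
`f (min |r| 1) = f r`. -/
def LwzStmt : Prop := LawStmt

/-- (G1Z) (easy-medium; uses AVE).  The interface `G1Stmt` of `Ifc.lean`.
PROOF.  If `T e = e`: `T '' K = K` (RevB), so `supportFn K (T w) = supportFn K w` (`⟪T w, T x⟫ = ⟪w, x⟫`).  If
`T e = -e`: `-T` fixes `e`, and `supportFn K (T w) = supportFn K (-(T w))`.  AVE gives `φ`, `t`; if `finrank = 1`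
(AVE needs `2 ≤ finrank`): every unit vector is `± e`, `zon e φ` with `φ = 1` works, `t = supportFn K e / hz 1 e`,
because `supportFn K w = ‖w‖ supportFn K e` (positive homogeneity, even).  `zon e φ x = φ (min |⟪e, x⟫| 1)` is
equal to `φ |⟪e, x⟫|` for `‖x‖ ≤ 1`, hence `sph`-a.e.; measurable: `s ↦ φ |s|` is measurable (restrict the
measurable function `x ↦ φ |⟪e, x⟫|` to `s • e`), `φ (min |s| 1) = (φ ∘ |·|) (min |s| 1)`. -/
def G1zStmt : Prop := G1Stmt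

/-! ### Slicing along the axis -/

/-- (SLE) (medium; uses LWH).  **Slicing of the sphere along the axis.**
PROOF.  `W = (ℝ ∙ e)ᗮ` (dimension `n - 1 ≥ 2`), `lam` Haar on `W` (`Pool.Agent.BPH.haa`).  For an isometry `h`
of `W` let `H x = ⟪e, x⟫ • e + h (P_W x)`, an isometry of `E` (see also AVI in `StmtsG.lean`): by `SPH.iso`
`∫ F dsph = ∫ x, ∫ h, F (H x) dlam dsph` (Fubini).  For a unit vector `x` with `P_W x ≠ 0` (a.e.) and
`a = ⟪e, x⟫`: `H x = a • e + √(1-a^2) • h η`, `η = nrm (P_W x)`, so by UNI.sub (`Pool.Agent.BPH.uni sph_facts`)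
`∫ h, F (H x) dlam = g a`, `g a := mS W (fun θ => F (a • e + √(1-a^2) • θ))`, a bounded measurable function of
`a` (parameter integral).  LWH for `ψ = g`; the constant `κ⁻¹ = ∫ x in -1..1, (1-x^2)^((n-3)/2) > 0`. -/
def SleStmt : Prop :=
  ∀ (E : Type) [NormedAddCommGroup E] [InnerProductSpace ℝ E] [FiniteDimensional ℝ E]
    [MeasurableSpace E] [BorelSpace E], 3 ≤ finrank ℝ E → ∃ κ : ℝ, 0 < κ ∧
    ∀ e : E, ‖e‖ = 1 → ∀ F : E → ℝ, Tst F →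
    ∫ x, F x ∂sph E = κ * ∫ a in (-1 : ℝ)..1, (1 - a ^ 2) ^ (((finrank ℝ E : ℝ) - 3) / 2) *
      mS (ℝ ∙ e)ᗮ (fun θ => F (a • e + Real.sqrt (1 - a ^ 2) • θ))

/-- (LWV) (easy; uses MSU, LWH).  The law of the height on the unit sphere of `u^⊥` (all functions).
PROOF.  As LWU: MSU for `U = (ℝ ∙ u)ᗮ`, LWH in the space `U`. -/
def LwvStmt : Prop :=
  ∀ (E : Type) [NormedAddCommGroup E] [InnerProductSpace ℝ E] [FiniteDimensional ℝ E]
    [MeasurableSpace E] [BorelSpace E], 4 ≤ finrank ℝ E → ∃ κ : ℝ, 0 < κ ∧ ∀ u e' : E,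
    ‖u‖ = 1 → ‖e'‖ = 1 → ⟪u, e'⟫ = 0 → ∀ ψ : ℝ → ℝ, BM ψ →
    mS (ℝ ∙ u)ᗮ (fun x => ψ ⟪e', x⟫) =
      κ * ∫ x in (-1 : ℝ)..1, (1 - x ^ 2) ^ (((finrank ℝ E : ℝ) - 4) / 2) * ψ x

/-- (DHI) (easy-medium; uses nothing).  The inner integral.  PROOF.  `β = -(q / p)`; for `|β| ≥ 1` the
sign is constant on `(-1, 1)` and the integrand is odd: `0`.  For `|β| < 1`: the sign is `-1` on `(-1, β)` and `1`
on `(β, 1)`; `b (1-b^2)^((n-4)/2)` is the derivative of `G b = -(1-b^2)^((n-2)/2) / (n-2)` on `(-1,1)`, `G`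
continuous on `[-1,1]`, `G (±1) = 0`: the integral is `-2 G β = 2/(n-2) (1-β^2)^((n-2)/2)`
(`intervalIntegral.integral_eq_sub_of_hasDerivAt_of_le`). -/
def DhiStmt : Prop :=
  ∀ (n : ℕ) (q p : ℝ), 4 ≤ n → 0 < p →
    ∫ b in (-1 : ℝ)..1, (1 - b ^ 2) ^ (((n : ℝ) - 4) / 2) * (Real.sign (q + p * b) * b) =
      2 / ((n : ℝ) - 2) * (max (1 - (q / p) ^ 2) 0) ^ (((n : ℝ) - 2) / 2)

/-- (DHA) (medium; uses DHI).  PROOF.  For `-1 < a < 1`, `s = √(1-a^2) > 0`, `q = t a`, `p = c s`: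
`1 - (q/p)^2 = (c^2 - a^2)/(c^2 s^2)` (`t^2 = 1 - c^2`), so by DHI the integrand is
`2/(n-2) φ|a| (s^2)^((n-3)/2) s (s^2)^(-(n-2)/2) (1 - a^2/c^2)^((n-2)/2) = 2/(n-2) φ|a| (1 - a^2/c^2)^((n-2)/2)`
for `|a| < c` and `0` for `|a| ≥ c`.  Even in `a`: `2 ∫ a in 0..c`; substitution `a = r c`
(`intervalIntegral.integral_comp_mul_right`). -/
def DhaStmt : Prop :=
  ∀ (n : ℕ) (t c : ℝ) (φ : ℝ → ℝ), 4 ≤ n → t ^ 2 + c ^ 2 = 1 → 0 < c → BM φ →
    ∫ a in (-1 : ℝ)..1, (1 - a ^ 2) ^ (((n : ℝ) - 3) / 2) * (φ (min |a| 1) *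
      (Real.sqrt (1 - a ^ 2) * ∫ b in (-1 : ℝ)..1, (1 - b ^ 2) ^ (((n : ℝ) - 4) / 2) *
        (Real.sign (t * a + c * Real.sqrt (1 - a ^ 2) * b) * b))) =
      4 / ((n : ℝ) - 2) * (c * RA n φ c)

/-- (DHZ) (easy-medium; uses SLE, LWV, DHA).  **The directional derivative of `hz (zon e φ)`.**
PROOF.  SLE for `F x = sign ⟪t e + c m, x⟫ ⟪m, x⟫ φ (min |⟪e, x⟫| 1)` (times the indicator of `‖x‖ ≤ 1` to be
bounded): for a unit vector `θ ∈ e^⊥` and `x = a e + s θ`, `s = √(1-a^2)`, `-1 ≤ a ≤ 1`: `⟪e, x⟫ = a`,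
`⟪m, x⟫ = s ⟪m, θ⟫`, so the inner mean is `φ |a| s mS (ℝ ∙ e)ᗮ (fun θ => sign (t a + c s ⟪m, θ⟫) ⟪m, θ⟫)`; LWV with
`ψ b = sign (t a + c s b) max (-1) (min b 1)`; DHA. -/
def DhzStmt : Prop :=
  ∀ (E : Type) [NormedAddCommGroup E] [InnerProductSpace ℝ E] [FiniteDimensional ℝ E]
    [MeasurableSpace E] [BorelSpace E], 4 ≤ finrank ℝ E → ∃ κ : ℝ, 0 < κ ∧ ∀ e m : E,
    ‖e‖ = 1 → ‖m‖ = 1 → ⟪e, m⟫ = 0 → ∀ t c : ℝ, t ^ 2 + c ^ 2 = 1 → 0 < c →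
    ∀ φ : ℝ → ℝ, BM φ →
    ∫ x, Real.sign ⟪t • e + c • m, x⟫ * ⟪m, x⟫ * zon e φ x ∂sph E =
      κ * (c * RA (finrank ℝ E) φ c)

end Pool.Agent.REV
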