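import Pool.Agent.REV.StmtsV
import Pool.Agent.REV.StmtsG3

set_option autoImplicit false

/-!
# Squad REV, part W: the support function of a zonal density in the meridian plane
-/

open MeasureTheory Module Set Filter
open scoped RealInnerProductSpace Pointwise Topology ENNReal

namespace Pool.Agent.REV

open Pool.Agent.BPH

/-- HZB (easy-medium; uses DhzStmt, LawStmt, VlmStmt).  The support function of the zonoid of a zonal
density in the meridian plane.  PROOF.  `g b = hz (zon e φ) (e + b m)` is differentiable, the derivative is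
`∫ sign ⟪e + b m, x⟫ ⟪m, x⟫ zon e φ x dsph` (see HZR), for `b > 0` equal to `κ1 yb n φ b` by DHZ (the sign does
not change if `e + b m` is normalized, `c = cb b`).  Fundamental theorem of calculus on `[0, b]` (`yb` is continuous
on `[0,∞)`: VLM).  `g 0 = κ0 H0 n φ`: LawStmt for `r φ(r)`.  The last equation: DHZ with `t = 0`, `c = 1`. -/
def HzbStmt : Prop :=
  ∀ (E : Type) [NormedAddCommGroup E] [InnerProductSpace ℝ E] [FiniteDimensional ℝ E]
    [MeasurableSpace E] [BorelSpace E], 4 ≤ finrank ℝ E → ∃ κ0 κ1 : ℝ, 0 < κ0 ∧ 0 < κ1 ∧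
    ∀ e m : E, ‖e‖ = 1 → ‖m‖ = 1 → ⟪e, m⟫ = 0 → ∀ φ : ℝ → ℝ, Prf φ →
    (∀ b : ℝ, 0 ≤ b → hz (zon e φ) (e + b • m) =
      κ0 * H0 (finrank ℝ E) φ + κ1 * ∫ s in (0 : ℝ)..b, yb (finrank ℝ E) φ s) ∧
    hz (zon e φ) m = κ1 * RA (finrank ℝ E) φ 1

end Pool.Agent.REV
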