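import Pool.Agent.REV.StmtsG3
import Pool.Agent.REV.StmtsW
import Pool.Agent.REV.StmtsV3

set_option autoImplicit false

/-!
# Squad REV, part G4: the geometric part for `n = finrank ℝ E ≥ 3`

The statements of `StmtsG2.lean`, `StmtsG3.lean`, `Ifc.lean`, `StmtsW.lean` with `3 ≤ n` instead of
`4 ≤ n`; for `n = 3` the weight is `(1 - x ^ 2) ^ (-1/2)`, integrable and not continuous at `± 1`.
The proofs are copies; common facts on the weight are in `Pool/Agent/Helper13_REV/W3.lean`.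
-/

open MeasureTheory Module Set Filter
open scoped RealInnerProductSpace Pointwise Topology ENNReal

namespace Pool.Agent.REV

open Pool.Agent.BPH Pool.Agent.Helper55_PB Pool.Agent.Helper28_PB

/-- (PJW3) (easy; PJW for all `m`). -/
def Pjw3Stmt : Prop :=
  ∀ (m : ℕ), ∀ ψ : ℝ → ℝ, BM ψ →
    ∫ z : ℝ, ∫ r in Ioi (0 : ℝ), (if r ^ 2 + z ^ 2 < 1 then
      r ^ m * ψ (z / Real.sqrt (r ^ 2 + z ^ 2)) else 0) =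
    ((m : ℝ) + 2)⁻¹ * ∫ x in (-1 : ℝ)..1, (1 - x ^ 2) ^ (((m : ℝ) - 1) / 2) * ψ x

/-- (LWH3) (easy; uses RAD, RLE, PJW3; LWH for `k ≥ 2`). -/
def Lwh3Stmt : Prop :=
  ∀ (F : Type) [NormedAddCommGroup F] [InnerProductSpace ℝ F] [FiniteDimensional ℝ F]
    [MeasurableSpace F] [BorelSpace F], 2 ≤ finrank ℝ F → ∀ e : F, ‖e‖ = 1 →
    ∀ ψ : ℝ → ℝ, BM ψ →
    (∫ x in (-1 : ℝ)..1, (1 - x ^ 2) ^ (((finrank ℝ F : ℝ) - 3) / 2)) * ∫ x, ψ ⟪e, x⟫ ∂sph F =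
      ∫ x in (-1 : ℝ)..1, (1 - x ^ 2) ^ (((finrank ℝ F : ℝ) - 3) / 2) * ψ x

/-- (LWU3) (easy; uses MSU, LWH3). -/
def Lwu3Stmt : Prop :=
  ∀ {E : Type} [NormedAddCommGroup E] [InnerProductSpace ℝ E] [FiniteDimensional ℝ E]
    [MeasurableSpace E] [BorelSpace E] (u e' : E), 3 ≤ finrank ℝ E → ‖u‖ = 1 → ‖e'‖ = 1 →
    ⟪u, e'⟫ = 0 → 0 < kap (finrank ℝ E) ∧ ∀ ψ : ℝ → ℝ, BM ψ →
    mS (ℝ ∙ u)ᗮ (fun x => ψ |⟪e', x⟫|) =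
      kap (finrank ℝ E) *
        ∫ x in (0 : ℝ)..1, (1 - x ^ 2) ^ (((finrank ℝ E : ℝ) - 4) / 2) * ψ x

/-- (TTP3) (easy; uses nothing). -/
def Ttp3Stmt : Prop :=
  ∀ (n i : ℕ) (c1 c2 : ℝ) (φ : ℝ → ℝ), 3 ≤ n → 0 ≤ c1 → 0 ≤ c2 → Prf φ → Prf (TT n i c1 c2 φ)

/-- (CPO3) (easy; uses nothing). -/
def Cpo3Stmt : Prop :=
  ∀ n i : ℕ, 3 ≤ n → 1 ≤ i → i + 1 ≤ n →
    (i + 2 ≤ n → 0 < C1 n i) ∧ 0 ≤ C1 n i ∧ 0 < C2 n i ∧ 0 < kap n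

/-- (ZQQ3) (easy; uses MOB, ZSM, LWU3). -/
def Zqq3Stmt : Prop :=
  ∀ {E : Type} [NormedAddCommGroup E] [InnerProductSpace ℝ E] [FiniteDimensional ℝ E]
    [MeasurableSpace E] [BorelSpace E] (e u : E) (φ : ℝ → ℝ) (i : ℕ), 3 ≤ finrank ℝ E → 1 ≤ i →
    ‖e‖ = 1 → ‖u‖ = 1 → po u e ≠ 0 → Prf φ →
    QQ i (zon e φ) u = kap (finrank ℝ E) ^ i *
      TT (finrank ℝ E) i (C1 (finrank ℝ E) i) (C2 (finrank ℝ E) i) φ ⟪e, u⟫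

/-- (ZST3) (easy; uses DEQ, ZQQ3, TTP3, CPO3). -/
def Zst3Stmt : Prop :=
  ∀ (E : Type) [NormedAddCommGroup E] [InnerProductSpace ℝ E] [FiniteDimensional ℝ E]
    [MeasurableSpace E] [BorelSpace E] (i : ℕ), 3 ≤ finrank ℝ E → 1 ≤ i → i + 1 ≤ finrank ℝ E →
    ∃ c : ℝ, 0 < c ∧
    ∀ (e : E) (φ : ℝ → ℝ), ‖e‖ = 1 → Prf φ → Dens (zon e φ) → 0 < ZZ i (zon e φ) ∧
      Prf (fun t => c / ZZ i (zon e φ) *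
        TT (finrank ℝ E) i (C1 (finrank ℝ E) i) (C2 (finrank ℝ E) i) φ t) ∧
      Dens (zon e (fun t => c / ZZ i (zon e φ) *
        TT (finrank ℝ E) i (C1 (finrank ℝ E) i) (C2 (finrank ℝ E) i) φ t)) ∧
      IsStep i (zon e φ) (zon e (fun t => c / ZZ i (zon e φ) *
        TT (finrank ℝ E) i (C1 (finrank ℝ E) i) (C2 (finrank ℝ E) i) φ t))

/-- (G2Z3) (easy; uses ZST3, CPO3): the interface `G2Stmt` for `n ≥ 3`. -/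
def G2z3Stmt : Prop :=
  ∀ {E : Type} [NormedAddCommGroup E] [InnerProductSpace ℝ E] [FiniteDimensional ℝ E]
    [MeasurableSpace E] [BorelSpace E] (i : ℕ), 1 ≤ i → i + 1 ≤ finrank ℝ E → 3 ≤ finrank ℝ E →
    ∃ C1 C2 : ℝ, 0 ≤ C1 ∧ 0 < C2 ∧ (i + 2 ≤ finrank ℝ E → 0 < C1) ∧
    ∀ e : E, ‖e‖ = 1 → ∀ f : ℝ → ℝ, Dens (zon e f) →
      Dens (zon e fun t => (ZZ i (zon e f))⁻¹ * TT (finrank ℝ E) i C1 C2 f t) ∧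
      IsStep i (zon e f) (zon e fun t => (ZZ i (zon e f))⁻¹ * TT (finrank ℝ E) i C1 C2 f t)

/-- (LWV3) (easy; uses MSU, LWH3). -/
def Lwv3Stmt : Prop :=
  ∀ (E : Type) [NormedAddCommGroup E] [InnerProductSpace ℝ E] [FiniteDimensional ℝ E]
    [MeasurableSpace E] [BorelSpace E], 3 ≤ finrank ℝ E → ∃ κ : ℝ, 0 < κ ∧ ∀ u e' : E,
    ‖u‖ = 1 → ‖e'‖ = 1 → ⟪u, e'⟫ = 0 → ∀ ψ : ℝ → ℝ, BM ψ →
    mS (ℝ ∙ u)ᗮ (fun x => ψ ⟪e', x⟫) =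
      κ * ∫ x in (-1 : ℝ)..1, (1 - x ^ 2) ^ (((finrank ℝ E : ℝ) - 4) / 2) * ψ x

/-- (DHI3) (easy; uses nothing; the primitive is continuous on `[-1,1]`, differentiable inside:
`intervalIntegral.integral_eq_sub_of_hasDerivAt_of_le`). -/
def Dhi3Stmt : Prop :=
  ∀ (n : ℕ) (q p : ℝ), 3 ≤ n → 0 < p →
    ∫ b in (-1 : ℝ)..1, (1 - b ^ 2) ^ (((n : ℝ) - 4) / 2) * (Real.sign (q + p * b) * b) =
      2 / ((n : ℝ) - 2) * (max (1 - (q / p) ^ 2) 0) ^ (((n : ℝ) - 2) / 2)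

/-- (DHA3) (easy; uses DHI3). -/
def Dha3Stmt : Prop :=
  ∀ (n : ℕ) (t c : ℝ) (φ : ℝ → ℝ), 3 ≤ n → t ^ 2 + c ^ 2 = 1 → 0 < c → BM φ →
    ∫ a in (-1 : ℝ)..1, (1 - a ^ 2) ^ (((n : ℝ) - 3) / 2) * (φ (min |a| 1) *
      (Real.sqrt (1 - a ^ 2) * ∫ b in (-1 : ℝ)..1, (1 - b ^ 2) ^ (((n : ℝ) - 4) / 2) *
        (Real.sign (t * a + c * Real.sqrt (1 - a ^ 2) * b) * b))) =
      4 / ((n : ℝ) - 2) * (c * RA n φ c)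

/-- (DHZ3) (easy; uses SLE, LWV3, DHA3). -/
def Dhz3Stmt : Prop :=
  ∀ (E : Type) [NormedAddCommGroup E] [InnerProductSpace ℝ E] [FiniteDimensional ℝ E]
    [MeasurableSpace E] [BorelSpace E], 3 ≤ finrank ℝ E → ∃ κ : ℝ, 0 < κ ∧ ∀ e m : E,
    ‖e‖ = 1 → ‖m‖ = 1 → ⟪e, m⟫ = 0 → ∀ t c : ℝ, t ^ 2 + c ^ 2 = 1 → 0 < c →
    ∀ φ : ℝ → ℝ, BM φ →
    ∫ x, Real.sign ⟪t • e + c • m, x⟫ * ⟪m, x⟫ * zon e φ x ∂sph E =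
      κ * (c * RA (finrank ℝ E) φ c)

/-- (HZB3) (easy; uses DHZ3, LawStmt, Vm3Stmt).  HZB in dimension `3`. -/
def Hzb3Stmt : Prop :=
  ∀ (E : Type) [NormedAddCommGroup E] [InnerProductSpace ℝ E] [FiniteDimensional ℝ E]
    [MeasurableSpace E] [BorelSpace E], finrank ℝ E = 3 → ∃ κ0 κ1 : ℝ, 0 < κ0 ∧ 0 < κ1 ∧
    ∀ e m : E, ‖e‖ = 1 → ‖m‖ = 1 → ⟪e, m⟫ = 0 → ∀ φ : ℝ → ℝ, Prf φ →
    (∀ b : ℝ, 0 ≤ b → hz (zon e φ) (e + b • m) =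
      κ0 * H0 3 φ + κ1 * ∫ s in (0 : ℝ)..b, yb 3 φ s) ∧
    hz (zon e φ) m = κ1 * RA 3 φ 1

end Pool.Agent.REV
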