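import Pool.Agent.BPH.Defs
import Pool.Agent.REV.DefsS

set_option autoImplicit false

/-!
# Squad REV (MP_bbfd73_gt): bodies of revolution homothetic to `Π_i K`

The zonal densities and the step in sphere coordinates are in `Pool.Agent.REV.DefsS`.
-/

namespace Pool.Agent.REV

/-- `K` is invariant under all linear isometries which fix `e` -/
def RevBody {E : Type} [NormedAddCommGroup E] [InnerProductSpace ℝ E] (e : E) (K : Set E) : Prop :=
  ∀ T : E ≃ₗᵢ[ℝ] E, T e = e → T '' K = K

end Pool.Agent.REV
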