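import Pool.Agent.REV.StmtsA1g

set_option autoImplicit false

/-!
# Squad REV, part A1 for `n ≥ 3`

For `n = 3` the weight of `RB` is `r^2 (1-r^2)^(-1/2)`, which is integrable.  `CvagStmt`, `CvbgStmt`
hold for all `n`.
-/

namespace Pool.Agent.REV

open Set

/-- INT3. The weights are integrable. -/
def Int3Stmt : Prop :=
  ∀ n : ℕ, 3 ≤ n →
    IntervalIntegrable (fun r : ℝ => (1 - r ^ 2) ^ (((n : ℝ) - 2) / 2)) MeasureTheory.volume 0 1 ∧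
    IntervalIntegrable (fun r : ℝ => r ^ 2 * (1 - r ^ 2) ^ (((n : ℝ) - 4) / 2))
      MeasureTheory.volume 0 1 ∧
    IntervalIntegrable (fun r : ℝ => (1 - r ^ 2) ^ (((n : ℝ) - 4) / 2)) MeasureTheory.volume 0 1 ∧
    ∀ f : ℝ → ℝ, Measurable f → (∃ M : ℝ, ∀ t ∈ Icc (0 : ℝ) 1, |f t| ≤ M) →
      IntervalIntegrable (fun r : ℝ => (1 - r ^ 2) ^ (((n : ℝ) - 3) / 2) * f r)
        MeasureTheory.volume 0 1 ∧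
      ∀ c : ℝ, 0 ≤ c → c ≤ 1 →
        IntervalIntegrable (fun r : ℝ => (1 - r ^ 2) ^ (((n : ℝ) - 2) / 2) * f (r * c))
          MeasureTheory.volume 0 1 ∧
        IntervalIntegrable (fun r : ℝ => r ^ 2 * (1 - r ^ 2) ^ (((n : ℝ) - 4) / 2) * f (r * c))
          MeasureTheory.volume 0 1

/-- MRA3 -/
def Mra3Stmt : Prop :=
  ∀ (n : ℕ) (g : ℝ) (f : ℝ → ℝ), 3 ≤ n → 0 ≤ g → (∀ t ∈ Icc (0 : ℝ) 1, 0 ≤ f t) →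
    (∀ c ∈ Sg g, 0 ≤ RA' n g f c ∧ 0 ≤ RB' n g f c) ∧
    (Low n g f → MonotoneOn (RA' n g f) (Sg g) ∧ MonotoneOn (RB' n g f) (Sg g)) ∧
    (Upp n g f → AntitoneOn (RA' n g f) (Sg g) ∧ AntitoneOn (RB' n g f) (Sg g))

/-- STA3 -/
def Sta3Stmt : Prop :=
  ∀ (n i : ℕ) (C1 C2 d : ℝ) (f : ℝ → ℝ), 3 ≤ n → 1 ≤ i → i + 1 ≤ n → 0 ≤ C1 → 0 ≤ C2 → 0 ≤ d →
    (∀ t ∈ Icc (0 : ℝ) 1, 0 ≤ f t) → Low n (1 + d) f →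
      Upp n (1 / (1 + ((i : ℝ) + 2) / ((n : ℝ) + 1) * d)) (TT n i C1 C2 f)

/-- STB3 -/
def Stb3Stmt : Prop :=
  ∀ (n i : ℕ) (C1 C2 e : ℝ) (f : ℝ → ℝ), 3 ≤ n → 1 ≤ i → i + 1 ≤ n → 0 ≤ C1 → 0 ≤ C2 → 0 ≤ e →
    (∀ t ∈ Icc (0 : ℝ) 1, 0 ≤ f t) → Upp n (1 / (1 + e)) f →
      Low n (1 + ((i : ℝ) + 2) / ((n : ℝ) + 1) * e) (TT n i C1 C2 f)

end Pool.Agent.REV
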