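import Pool.Agent.REV.Ifc
import Pool.Agent.Helper55_PB.BallsFin
import Pool.Agent.Helper55_PB.Bwd

set_option autoImplicit false

/-!
# Squad REV, part C: cylinders, `i = n - 1` (geometry)

`cyl e H R` is the cylinder with the axis `ℝ e`, half-length `H`, radius `R`, centre `0`.
With `V = ℝ ∙ e`: `cyl e H R = Helper28_PB.prodSet V (closedBall 0 H) (closedBall 0 R)`
(`‖V.orthogonalProjectionOnto y‖ = |⟪e, y⟫|`, the other projection is `y - ⟪e, y⟫ • e`).
-/

open MeasureTheory Module Set Filter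
open scoped RealInnerProductSpace Pointwise Topology ENNReal

namespace Pool.Agent.REV

open Pool.Agent.Helper55_PB Pool.Agent.Helper28_PB

/-- the cylinder with the axis `ℝ e`, half-length `H`, radius `R` and centre `0` -/
def cyl {E : Type} [NormedAddCommGroup E] [InnerProductSpace ℝ E] (e : E) (H R : ℝ) : Set E :=
  {y | |⟪e, y⟫| ≤ H ∧ ‖y - ⟪e, y⟫ • e‖ ≤ R}

/-- SVB (easy). PROOF. `w = ‖w‖ • e'` with a unit vector `e'` (for `w = 0` both sides vanish, `d ≥ 1`);
`segVol_eq` (or `VolStmt`, see the use in `MidGood.centred`, Balls.lean): `segVol K (c • e') = c * shadowVol K e'`;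
`shadowVol (closedBall 0 R) e'` is the volume of `closedBall 0 R` in `(ℝ ∙ e')ᗮ` (`proj_closedBall`), of
dimension `d - 1` (`Helper28_PB.finrank_perp`), `volume_unitBall` / `Measure.addHaar_closedBall'`. -/
def SvbStmt : Prop :=
  ∀ {E : Type} [NormedAddCommGroup E] [InnerProductSpace ℝ E] [FiniteDimensional ℝ E]
    [MeasurableSpace E] [BorelSpace E], 1 ≤ finrank ℝ E → ∀ (R : ℝ), 0 ≤ R → ∀ w : E,
    segVol (Metric.closedBall (0 : E) R) w =
      ‖w‖ * (ballVol (finrank ℝ E - 1) * R ^ (finrank ℝ E - 1))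

/-- CYS (easy-medium; uses SVB). Volume increments and support function of a cylinder.  PROOF.
`V = ℝ ∙ e`, `cyl e H R = prodSet V (closedBall 0 H) (closedBall 0 R)`; `segVol_prodSet` with
`a = V.orthogonalProjectionOnto w`, `b = Vᗮ.orthogonalProjectionOnto w`: `segVol = segVol A a * vol B + vol A * segVol B b`,
SVB in `V` (dimension 1, `ballVol 0 = 1`): `segVol A a = ‖a‖ = |⟪e, w⟫|`; `vol A = ballVol 1 * H = 2 H`,
`vol B = ballVol (n-1) R^(n-1)`; `segVol B b = ‖b‖ ballVol (n-2) R^(n-2)`.  Support function: the maximum of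
`⟪y, w⟫ = ⟪e,y⟫ ⟪e,w⟫ + ⟪y', w'⟫` (`y' = y - ⟪e,y⟫ e`) is attained at
`y = ± H e + (R/‖w'‖) w'` (`supportFn_eq`, `IsCompact`: `isCompact_prodSet`). -/
def CysStmt : Prop :=
  ∀ {E : Type} [NormedAddCommGroup E] [InnerProductSpace ℝ E] [FiniteDimensional ℝ E]
    [MeasurableSpace E] [BorelSpace E], 2 ≤ finrank ℝ E → ∀ (e : E) (H R : ℝ), ‖e‖ = 1 → 0 < H →
    0 < R →
    IsCompact (cyl e H R) ∧ Convex ℝ (cyl e H R) ∧ (0 : E) ∈ interior (cyl e H R) ∧
    (∀ y ∈ cyl e H R, -y ∈ cyl e H R) ∧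
    (∀ w : E, supportFn (cyl e H R) w = H * |⟪e, w⟫| + R * ‖w - ⟪e, w⟫ • e‖) ∧
    ∀ w : E, segVol (cyl e H R) w =
      ballVol (finrank ℝ E - 1) * R ^ (finrank ℝ E - 1) * |⟪e, w⟫| +
        2 * H * (ballVol (finrank ℝ E - 2) * R ^ (finrank ℝ E - 2)) * ‖w - ⟪e, w⟫ • e‖

/-- CYG (easy; uses CYS). Which cylinders are solutions.  PROOF. `Good (cyl e H R) c` means
`segVol = c h`.  At `w = e`: `κ_(n-1) R^(n-1) = c H`; at a unit `w ⟂ e` (exists, `n ≥ 2`):
`2 H κ_(n-2) R^(n-2) = c R`.  So `2 H^2 κ_(n-2) R^(n-2) = κ_(n-1) R^n`, `H^2 = R^2 κ_(n-1)/(2 κ_(n-2))`.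
Conversely with this `H` put `c = κ_(n-1) R^(n-1) / H > 0`; both coefficients agree. -/
def CygStmt : Prop :=
  ∀ {E : Type} [NormedAddCommGroup E] [InnerProductSpace ℝ E] [FiniteDimensional ℝ E]
    [MeasurableSpace E] [BorelSpace E], 2 ≤ finrank ℝ E → ∀ (e : E) (H R : ℝ), ‖e‖ = 1 → 0 < H →
    0 < R → ((∃ c : ℝ, Good (cyl e H R) c) ↔
      H = R * Real.sqrt (ballVol (finrank ℝ E - 1) / (2 * ballVol (finrank ℝ E - 2))))

/-- CYI (easy-medium; uses CYS). A body with the support function of a cylinder is this cylinder.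
PROOF. Two compact convex nonempty sets with the same support function are equal
(`mem_of_support_le`, `inner_le_supportFn`); `supportFn` of `cyl e H R` is given by CYS. -/
def CyiStmt : Prop :=
  ∀ {E : Type} [NormedAddCommGroup E] [InnerProductSpace ℝ E] [FiniteDimensional ℝ E]
    [MeasurableSpace E] [BorelSpace E], 2 ≤ finrank ℝ E → ∀ (e : E) (H R : ℝ), ‖e‖ = 1 → 0 < H →
    0 < R → ∀ K : Set E, CC K →
    (∀ w : E, ‖w‖ = 1 → supportFn K w = H * |⟪e, w⟫| + R * ‖w - ⟪e, w⟫ • e‖) → K = cyl e H R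

/-- CYR (easy). A translate of a cylinder is invariant under the isometries which fix its axis.
PROOF. `⟪e, T y⟫ = ⟪T e, T y⟫ = ⟪e, y⟫`, `T y - ⟪e, y⟫ e = T (y - ⟪e, y⟫ e)`; both inclusions with `T`
and `T.symm`. -/
def CyrStmt : Prop :=
  ∀ {E : Type} [NormedAddCommGroup E] [InnerProductSpace ℝ E] (x e : E) (H R : ℝ), ‖e‖ = 1 →
    ∀ T : E ≃ₗᵢ[ℝ] E, T e = e →
      (fun y => x + T (y - x)) '' ((fun y => x + y) '' cyl e H R) = (fun y => x + y) '' cyl e H R

/-- PBO (medium). The projection body of order `n - 1` is the projection body.  PROOF. For a unit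
vector `u` let `M` be the projection of `K`, `d = finrank (ℝ ∙ u)ᗮ = n - 1`.  `→`: `IsIntrinsicVolume M d a`
at `r = 0`: `M + closedBall 0 0 = M`, all terms with `j < d` vanish (`0 ^ (d - j)`), the last one is
`ballVol 0 * b d * 1 = a`; `ballVol 0 = 1`.  `←`: `sc_spec` (as in `MidGood.centred`, Balls.lean) gives
`vol (M + r B) = ∑ j, sc M j r^j`, put `b j = sc M (d - j) / ballVol (d - j)` (reindex `j ↦ d - j`,
`Finset.sum_range_reflect`); `b d = sc M 0 / ballVol 0 = vol M` (value at `r = 0`). -/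
def PboStmt : Prop :=
  ∀ {E : Type} [NormedAddCommGroup E] [InnerProductSpace ℝ E] [FiniteDimensional ℝ E]
    [MeasurableSpace E] [BorelSpace E] (K L : Set E), 2 ≤ finrank ℝ E → IsConvexBody K →
    (IsProjectionBodyOfOrder (finrank ℝ E - 1) K L ↔ IsProjectionBody K L)

/-- CEN (easy-medium; uses PBO). A solution of order `n - 1` is a translate of a centred solution.
PROOF. PBO, then the construction of `exists_good` (Center.lean): `K = (a + ·) '' K'`, `Good K' c`. -/
def CenStmt : Prop :=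
  ∀ {E : Type} [NormedAddCommGroup E] [InnerProductSpace ℝ E] [FiniteDimensional ℝ E]
    [MeasurableSpace E] [BorelSpace E] (K L : Set E), 2 ≤ finrank ℝ E → IsConvexBody K →
    IsProjectionBodyOfOrder (finrank ℝ E - 1) K L → Homothetic K L →
    ∃ (a : E) (K' : Set E) (c : ℝ), K' = (fun y => a + y) '' K ∧ Good K' c

/-- SOC (easy; uses PBO). A translate of a centred solution is a solution of order `n - 1`.
PROOF. `isSolution_of_good` (Bwd.lean) and PBO. -/
def SocStmt : Prop :=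
  ∀ {E : Type} [NormedAddCommGroup E] [InnerProductSpace ℝ E] [FiniteDimensional ℝ E]
    [MeasurableSpace E] [BorelSpace E] (K K' : Set E) (a : E) (c : ℝ), 2 ≤ finrank ℝ E →
    K = (fun y => a + y) '' K' → Good K' c →
    IsConvexBody K ∧ ∃ L : Set E, IsProjectionBodyOfOrder (finrank ℝ E - 1) K L ∧ Homothetic K L

end Pool.Agent.REV
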