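import Pool.Agent.REV.StmtsG
import Pool.Agent.REV.DefsG

set_option autoImplicit false

/-!
# Squad REV, part G2: the step on zonal densities is `TT`

`n = finrank ℝ E`.  For a unit vector `u` the eigenvalues of `∫ w w^T f(w)` over the unit sphere of
`u^⊥`, `f` zonal, are `a` (direction `e' = nrm (po u e)`) and `b` (the orthogonal complement of
`u, e'`); the mean of `gw ^ 2 ∏ f` is computed one vector at a time, without determinants.
The facts of squad BPH are PROVED and may be imported directly, see the head of `StmtsG.lean`.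
-/

open MeasureTheory Module Set Filter
open scoped RealInnerProductSpace Pointwise Topology ENNReal

namespace Pool.Agent.REV

open Pool.Agent.BPH Pool.Agent.Helper55_PB Pool.Agent.Helper28_PB

/-! ### Moments: `mean of gw ^ 2 ∏ f` from the second moments of `f` -/

/-- the second moments of the density `f` on the unit sphere of `u^⊥` are
`b (1 - u u^T - e' e'^T) + a e' e'^T` -/
def SM {E : Type} [NormedAddCommGroup E] [InnerProductSpace ℝ E] [FiniteDimensional ℝ E]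
    [MeasurableSpace E] [BorelSpace E] (f : E → ℝ) (u e' : E) (a b : ℝ) : Prop :=
  ∀ w : E, mS (ℝ ∙ u)ᗮ (fun x => ⟪w, x⟫ ^ 2 * f x) =
    b * ‖w‖ ^ 2 + (a - b) * ⟪w, e'⟫ ^ 2 - b * ⟪w, u⟫ ^ 2

/-- (MOA) (easy-medium; uses nothing).  One vector.  PROOF.  `gw (cns z v) = gw v * ‖pp v z‖` (GWA,
`Pool.Agent.BPH.gwa`).  If `v` is linearly dependent, `gw v = 0` (`GWB.pos_iff`, `gw ≥ 0`) and all terms vanish.
Otherwise `dim (perp v) = n - j` (`geo_finrank_perp` in `BPH/Geo.lean`); for an orthonormal basis `w_k` of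
`perp v` (`stdOrthonormalBasis`, `OrthonormalBasis.sum_sq_inner_right` or `sum_sq_norm_inner`)
`‖pp v z‖ ^ 2 = ∑ k, ⟪w_k, z⟫ ^ 2` (`⟪w_k, pp v z⟫ = ⟪w_k, z⟫`).  So
`mS (‖pp v x‖ ^ 2 f x) = ∑ k, (b + (a-b) ⟪w_k, e'⟫ ^ 2 - b ⟪w_k, u⟫ ^ 2)
= b (n - j) + (a - b) ‖pp v e'‖ ^ 2 - b ‖pp v u‖ ^ 2`; multiply by `gw v ^ 2`.  (The integrands
`⟪w, nrm (..)⟫ ^ 2 * f (nrm (..))` are bounded and measurable, `sph E` is a probability measure.) -/
def MoaStmt : Prop :=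
  ∀ {E : Type} [NormedAddCommGroup E] [InnerProductSpace ℝ E] [FiniteDimensional ℝ E]
    [MeasurableSpace E] [BorelSpace E] (f : E → ℝ) (u e' : E) (a b : ℝ), Tst f → SM f u e' a b →
    ∀ (j : ℕ) (v : Fin j → E),
    mS (ℝ ∙ u)ᗮ (fun x => gw (cns x v) ^ 2 * f x) =
      b * ((finrank ℝ E : ℝ) - j) * gw v ^ 2 - b * gw (cns u v) ^ 2 + (a - b) * gw (cns e' v) ^ 2

/-- (MOP) (easy; uses nothing).  Permutations of the first vectors and repeated vectors.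
PROOF.  `GWB.perm` (`Pool.Agent.BPH.gwb gwa`) with the transposition of `0` and `1`
(`cns a (cns b v) ∘ swap 0 1 = cns b (cns a v)`, by cases on the index); a family with two equal vectors
is linearly dependent, so `gw = 0` (`GWB.pos_iff`; or GWA: `gw (cns a (cns a v)) = gw (cns a v) * ‖pp (cns a v) a‖`
and `a` is in the span). -/
def MopStmt : Prop :=
  ∀ {E : Type} [NormedAddCommGroup E] [InnerProductSpace ℝ E] [FiniteDimensional ℝ E] {j : ℕ}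
    (a b : E) (v : Fin j → E), gw (cns a (cns b v)) = gw (cns b (cns a v)) ∧
      gw (cns a (cns a v)) = 0

/-- (MOB) (medium; uses MPS, MOA, MOP).  All moments.  PROOF.  `P j Ψ := mP (ℝ ∙ u)ᗮ j (fun w => Ψ w * ∏ l, f (w l))`.
By MPS (first part, for `Ψ (cns x w)`; `gw ≤ ∏ ‖·‖`, so everything is bounded for `‖w l‖ ≤ 1`; `gw` is
continuous, `Fin.prod_univ_succ`) and MOA for the families `w`, `cns u w`, `cns e' w`, `cns u (cns e' w)` (of
`j`, `j+1`, `j+1`, `j+2` vectors; `gw (cns u (cns x w)) = gw (cns x (cns u w))` etc. by MOP, the terms with a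
repeated vector vanish), with `M j = P j (gw w ^ 2)`, `U j = P j (gw (cns u w) ^ 2)`,
`N j = P j (gw (cns e' w) ^ 2)`, `R j = P j (gw (cns u (cns e' w)) ^ 2)`:
`M (j+1) = b (n-j) M j - b U j + (a-b) N j`, `U (j+1) = b (n-j-1) U j + (a-b) R j`,
`N (j+1) = b (n-j-1) N j - b R j`, `R (j+1) = b (n-j-2) R j`; start: `M 0 = U 0 = N 0 = R 0 = 1`
(`gw` of the empty family is `1`, `gw (cns a ![]) = ‖a‖`, `gw (cns u (cns e' ![])) = 1` for the
orthonormal pair: GWA and `po_formula`).  Induction: `R j = N j = D j := (n-2).descFactorial j * b ^ j`,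
`U j = M j`, so `M (j+1) = b (n-1-j) M j + (a-b) D j`, and the formula follows by induction with
`((n-2).descFactorial (j+1) : ℝ) = (n-2-j) * (n-2).descFactorial j` (true also for `j > n-2`: both sides `0`;
`2 ≤ n`). -/
def MobStmt : Prop :=
  ∀ {E : Type} [NormedAddCommGroup E] [InnerProductSpace ℝ E] [FiniteDimensional ℝ E]
    [MeasurableSpace E] [BorelSpace E] (f : E → ℝ) (u e' : E) (a b : ℝ), 2 ≤ finrank ℝ E →
    ‖u‖ = 1 → ‖e'‖ = 1 → ⟪u, e'⟫ = 0 → Tst f → SM f u e' a b → ∀ i : ℕ,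
    QQ i f u = ((finrank ℝ E - 2).descFactorial i : ℝ) * b ^ i +
      i * ((finrank ℝ E - 2).descFactorial (i - 1) : ℝ) * (a * b ^ (i - 1))

/-! ### Second moments of zonal densities -/

/-- (ZSM) (medium; uses nothing).  Second moments of a zonal function.
PROOF.  INVARIANCE: for a linear isometry `T` of `E` with `T u = u`: `mS (ℝ ∙ u)ᗮ (fun x => F (T x)) =
mS (ℝ ∙ u)ᗮ F` (`mS_map` in `BPH/Avg.lean` with `v = ![u]`, or directly `SPH.iso` and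
`T (po u x) = po u (T x)` from `po_formula`).  Almost surely `x := nrm (po u y)` is a unit vector orthogonal to
`u` (`bkk_ae`).  Write `w = α e' + β u + w'`, `w'` orthogonal to `u`, `e'`; `⟪w, x⟫ = α ⟪e', x⟫ + ⟪w', x⟫` a.s.
Cross term: for the reflection `T` in the hyperplane `w'^⊥` (`Submodule.reflection (ℝ ∙ w')ᗮ`):
`T w' = -w'`, `T u = u`, `T e' = e'`, so the mean of `⟪e', x⟫ ⟪w', x⟫ ψ ⟪e', x⟫` is `0`.  The mean `q(w')` of
`⟪w', x⟫ ^ 2 ψ ⟪e', x⟫` depends only on `‖w'‖` (for `‖w1‖ = ‖w2‖` the reflection in `(w1 - w2)^⊥` interchanges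
them and fixes `u`, `e'`) and is homogeneous: `q(w') = b ‖w'‖ ^ 2`; sum over an orthonormal basis `w_k` of
`span {u, e'}^⊥` (`n - 2` vectors): `∑ ⟪w_k, x⟫ ^ 2 = 1 - ⟪e', x⟫ ^ 2` a.s., so
`(n - 2) b = mS ((1 - ⟪e', x⟫ ^ 2) ψ ⟪e', x⟫)`.  And `‖w'‖ ^ 2 = ‖w‖ ^ 2 - ⟪w, e'⟫ ^ 2 - ⟪w, u⟫ ^ 2`. -/
def ZsmStmt : Prop :=
  ∀ {E : Type} [NormedAddCommGroup E] [InnerProductSpace ℝ E] [FiniteDimensional ℝ E]
    [MeasurableSpace E] [BorelSpace E] (u e' : E), 3 ≤ finrank ℝ E → ‖u‖ = 1 → ‖e'‖ = 1 →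
    ⟪u, e'⟫ = 0 → ∀ ψ : ℝ → ℝ, BM ψ →
    SM (fun x : E => ψ ⟪e', x⟫) u e' (mS (ℝ ∙ u)ᗮ (fun x => ⟪e', x⟫ ^ 2 * ψ ⟪e', x⟫))
      (mS (ℝ ∙ u)ᗮ (fun x => (1 - ⟪e', x⟫ ^ 2) * ψ ⟪e', x⟫) / ((finrank ℝ E : ℝ) - 2))

/-! ### The law of the height -/

/-- (PJW) (medium; uses nothing).  Polar coordinates in the half disc.
PROOF.  For `F (z, r) = if 0 < r ∧ r^2 + z^2 < 1 then r^m ψ (z / √(r^2+z^2)) else 0` (bounded, measurable,
zero outside the unit disc, so integrable): left side `= ∫ p : ℝ × ℝ, F p` (`integral_prod`; the unit disc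
has finite measure), and `integral_comp_polarCoord_symm`: `= ∫ p in polarCoord.target, p.1 • F (p.1 cos p.2, p.1 sin p.2)`;
for `R > 0`, `θ ∈ (-π, π)`: `0 < R sin θ` iff `θ ∈ (0, π)`, `√(..) = R`, so the integrand is
`1_{R < 1} R^(m+1) * (1_{0<θ<π} (sin θ)^m ψ (cos θ))`, a product (`integral_prod_mul`, the target is
`Ioi 0 ×ˢ Ioo (-π) π`): `= (m+2)⁻¹ ∫ θ in Ioo 0 π, (sin θ)^m ψ (cos θ)`.  Substitution `x = cos θ`
(`MeasureTheory.integral_image_eq_integral_abs_deriv_smul` on `Ioo 0 π`, image `Ioo (-1) 1`, injective;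
`|cos' θ| = sin θ`, `(1 - cos^2 θ)^((m-1)/2) = (sin θ)^(m-1)` (rpow, `m ≥ 1`)). -/
def PjwStmt : Prop :=
  ∀ (m : ℕ), 1 ≤ m → ∀ ψ : ℝ → ℝ, BM ψ →
    ∫ z : ℝ, ∫ r in Ioi (0 : ℝ), (if r ^ 2 + z ^ 2 < 1 then
      r ^ m * ψ (z / Real.sqrt (r ^ 2 + z ^ 2)) else 0) =
    ((m : ℝ) + 2)⁻¹ * ∫ x in (-1 : ℝ)..1, (1 - x ^ 2) ^ (((m : ℝ) - 1) / 2) * ψ x

/-- (LWH) (easy-medium; uses RAD, RLE, PJW).  The law of the height on the unit sphere of a
`k`-dimensional space, `k ≥ 3`.  PROOF.  RLE with `V = ℝ`, `B = LinearIsometry.toSpanSingleton ℝ F h`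
(`B t = t • e`), `X = (ℝ ∙ e)ᗮ` (`A` = inclusion, dimension `k - 1 ≥ 2`), `q = 0`, `Ψ x = ψ ⟪e, x⟫`, `Γ (r, z) = ψ z`
(`⟪e, A y + B z⟫ = z`), RAD (first claim), PJW with `m = k - 2`: `vol(ball F) ∫ ψ ⟪e, x⟫ dsph = (k-1) vol(ball X) k⁻¹ ∫ (1-x^2)^((k-3)/2) ψ`.  The
constant is determined by `ψ = 1` (`sph F` is a probability measure). -/
def LwhStmt : Prop :=
  ∀ (F : Type) [NormedAddCommGroup F] [InnerProductSpace ℝ F] [FiniteDimensional ℝ F]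
    [MeasurableSpace F] [BorelSpace F], 3 ≤ finrank ℝ F → ∀ e : F, ‖e‖ = 1 →
    ∀ ψ : ℝ → ℝ, BM ψ →
    (∫ x in (-1 : ℝ)..1, (1 - x ^ 2) ^ (((finrank ℝ F : ℝ) - 3) / 2)) * ∫ x, ψ ⟪e, x⟫ ∂sph F =
      ∫ x in (-1 : ℝ)..1, (1 - x ^ 2) ^ (((finrank ℝ F : ℝ) - 3) / 2) * ψ x

/-- (LWU) (easy-medium; uses MSU, LWH).  The law of the height on the unit sphere of `u^⊥`, even
functions.  PROOF.  MSU for `U = (ℝ ∙ u)ᗮ` (dimension `n - 1 ≥ 3`) and LWH in the space `U` with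
`e = ⟨e', _⟩` and the function `ψ |x|`; the weight is even (`(n-1) - 3 = n - 4`):
`∫ x in -1..1, g |x| = 2 ∫ x in 0..1, g x`.  `0 < ∫ x in 0..1, (1-x^2)^((n-4)/2)`.  (`ψ ∘ |·|` is bounded and
measurable.) -/
def LwuStmt : Prop :=
  ∀ {E : Type} [NormedAddCommGroup E] [InnerProductSpace ℝ E] [FiniteDimensional ℝ E]
    [MeasurableSpace E] [BorelSpace E] (u e' : E), 4 ≤ finrank ℝ E → ‖u‖ = 1 → ‖e'‖ = 1 →
    ⟪u, e'⟫ = 0 → 0 < kap (finrank ℝ E) ∧ ∀ ψ : ℝ → ℝ, BM ψ →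
    mS (ℝ ∙ u)ᗮ (fun x => ψ |⟪e', x⟫|) =
      kap (finrank ℝ E) *
        ∫ x in (0 : ℝ)..1, (1 - x ^ 2) ^ (((finrank ℝ E : ℝ) - 4) / 2) * ψ x

/-- (TTP) (easy-medium; uses nothing).  `TT` preserves profiles.  PROOF.  `√(1-t^2) ∈ [0,1]` for all
`t`.  Measurable: `c ↦ RA n φ c` is a parameter integral of a jointly measurable function
(`StronglyMeasurable.integral_prod_right'`, interval integral over `Ioc 0 1`).  Nonnegative: all factors
are.  Bounded: `0 ≤ RA ≤ C`, `0 ≤ RB ≤ C` if `φ ≤ C` (weights between `0` and `1` for `n ≥ 4`). -/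
def TtpStmt : Prop :=
  ∀ (n i : ℕ) (c1 c2 : ℝ) (φ : ℝ → ℝ), 4 ≤ n → 0 ≤ c1 → 0 ≤ c2 → Prf φ → Prf (TT n i c1 c2 φ)

end Pool.Agent.REV
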