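import Pool.Agent.REV.StmtsU
import Pool.Agent.REV.StmtsA2
import Pool.Agent.REV.StmtsG3
import Pool.Agent.Helper63_REV.CLP

set_option autoImplicit false

/-!
# Squad REV, part U2: a fixed density for `i = n - 1` has a finite comparison; the support function
determines `RA`

`Pool.Agent.Helper63_REV.CLP` (proved) has the continuous extension `clf f` of a profile from `[0,1]`
(`H63.clf_eq`, `clf_cont`, `clf_bdd`, `RA_clf`, `RB_clf`, `RA_congr`, `RB_congr`).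
-/

open MeasureTheory Module Set Filter
open scoped RealInnerProductSpace Topology

namespace Pool.Agent.REV

open Pool.Agent.BPH Pool.Agent.Helper55_PB

/-- LFQ (medium; uses RPO, LPA, LPB).  PROOF.  `M ≥ f` on `[0,1]` (compactness), `M > 0`; pass to `clf f` for LPA,
LPB (`Adm`).  `c(t) = sqrt (1-t^2) ≥ 1/2` for `t ≤ 1/2`; `Y(t) = c RA(c)`, `Z(t) = c^3 RB(c)`, `0 ≤ Y, Z ≤ M` (RPO).
`f t = C Z(t) Y(t)^(n-2) / c(t)^(n+1)`.  Let `p ≤ q`, `D = q^2 - p^2 ≥ 0`: `Y(p) ≤ Y(q) + n M D`,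
`Z(p) ≤ Z(q) + n M D`.  `Z(p) Y(p)^(n-2) - Z(q) Y(q)^(n-2) = (Z(p) - Z(q)) Y(p)^(n-2) + Z(q) (Y(p)^(n-2) - Y(q)^(n-2))
≤ n M D M^(n-2) + M (n-2) M^(n-3) n M D` (if `Y(p) ≤ Y(q)` the second term is `≤ 0`).  So
`Z(p) Y(p)^(n-2) ≤ Z(q) Y(q)^(n-2) + K1 D`, and `c(p)^(-(n+1)) ≤ c(q)^(-(n+1)) ≤ 2^(n+1)` gives
`f p ≤ f q + C 2^(n+1) K1 D`. -/
def LfqStmt : Prop :=
  ∀ (n : ℕ) (C : ℝ) (f : ℝ → ℝ), 4 ≤ n → FixU n C f → 0 < C →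
    ∃ K : ℝ, 0 ≤ K ∧ ∀ p q : ℝ, 0 ≤ p → p ≤ q → q ≤ 1 / 2 → f p ≤ f q + K * (q ^ 2 - p ^ 2)

/-- NER (medium; uses RCT, RPO).  Near the pole.  PROOF.  `h > 0` a lower bound of `RA`, `RB` on `[0,1]` (RCT, RPO,
compactness).  For `0 ≤ c' ≤ c ≤ 1/2`, `D = c^2 - c'^2`: by the hypothesis (`p = r c'`, `q = r c`, integrated;
weights between `0` and `1`, `r^2 ≤ 1`) `RA(c') ≤ RA(c) + K D ≤ RA(c) (1 + K' D)`, `K' = K/h`, and the same for `RB`, so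
`F(c) = f (sqrt (1-c^2)) = C RB(c) RA(c)^(n-2)` has `F(c') ≤ F(c) (1 + K' D)^(n-1)`.  Let
`c0^2 = b0 = 1/(4 (2 K' + K'^2 + 1)) ≤ 1/4`.  For `b ≤ b0`, `c ≤ c0`: `1 + (b-1) (1-c^2) = b + (1-b) c^2` and
`(b + (1-b) c^2)/(b + (1-b) c'^2) = 1 + (1-b) D/(b + (1-b) c'^2) ≥ 1 + L D`, `L = 1/(2 (b0 + c0^2)) = 2 K' + K'^2 + 1`
(`1 - b ≥ 1/2`).  `(1 + L D)^((n+1)/2) ≥ ((1 + K' D)^2)^((n+1)/2) = (1 + K' D)^(n+1) ≥ (1 + K' D)^(n-1)`, because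
`D ≤ 1`.  So `(b + (1-b) c'^2)^((n+1)/2) F(c') ≤ (b + (1-b) c^2)^((n+1)/2) F(c)`. -/
def NerStmt : Prop :=
  ∀ (n : ℕ) (C K : ℝ) (f : ℝ → ℝ), 4 ≤ n → FixU n C f → 0 < C → 0 ≤ K →
    (∀ p q : ℝ, 0 ≤ p → p ≤ q → q ≤ 1 / 2 → f p ≤ f q + K * (q ^ 2 - p ^ 2)) →
    ∃ c0 b0 : ℝ, 0 < c0 ∧ c0 ≤ 1 / 2 ∧ 0 < b0 ∧ b0 ≤ 1 ∧ ∀ b : ℝ, 0 < b → b ≤ b0 →
      AntitoneOn (El n b f) (Icc (Real.sqrt (1 - c0 ^ 2)) 1)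

/-- FAR (medium; uses YDR, RCT, RPO, CRA).  Away from the pole.  PROOF.  `h > 0` a lower bound of `RA`, `RB`
on `[0,1]`, `M` an upper bound.  `c^3 RB(c)` is nondecreasing (CRA for `clf f` with `d = 1`, pointwise).  For
`c' ≤ c` in `[c0,1]`: `c RA(c) - c' RA(c') ≥ h (c - c')` (mean value theorem, YDR for `clf f`, `(n-2) RB ≥ h`), so
`c RA(c) ≥ c' RA(c') (1 + η s)`, `s = c - c'`, `η = h/M`.  With `F(c) = f (sqrt (1-c^2)) = C RB RA^(n-2)`: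
`c^(n+1) F(c) ≥ c'^(n+1) F(c') (1 + η s)`.  Let `u(c) = (b + (1-b) c^2)/c^2 = (1-b) + b/c^2 ≥ 1`;
`u(c') - u(c) = b (c-c') (c+c')/(c^2 c'^2) ≤ β s`, `β = 2 b/c0^4`, so `u(c')/u(c) ≤ 1 + β s`, and
`(1 + β s)^((n+1)/2) ≤ (1 + β s)^(n+1) ≤ 1 + 2^(n+1) β s ≤ 1 + η s` if `β ≤ 1` and `2^(n+1) β ≤ η`, which defines
`b1`.  Then `(b + (1-b) c'^2)^((n+1)/2) F(c') = u(c')^((n+1)/2) c'^(n+1) F(c') ≤ u(c)^((n+1)/2) c^(n+1) F(c)`. -/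
def FarStmt : Prop :=
  ∀ (n : ℕ) (C c0 : ℝ) (f : ℝ → ℝ), 4 ≤ n → FixU n C f → 0 < C → 0 < c0 → c0 < 1 →
    ∃ b1 : ℝ, 0 < b1 ∧ b1 ≤ 1 ∧ ∀ b : ℝ, 0 < b → b ≤ b1 →
      AntitoneOn (El n b f) (Icc 0 (Real.sqrt (1 - c0 ^ 2)))

/-- FIN (easy; uses LFQ, NER, FAR, STB).  PROOF.  `b = min b0 b1`: `Upp n b f` (`AntitoneOn.union_right` at
`sqrt (1-c0^2)`).  STB with `i = n - 1` (`(i+2)/(n+1) = 1`), `C1 = 0`, `C2 = C`, `e = 1/b - 1`: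
`Low n (1 + e) (TT n (n-1) 0 C f)`, and `TT n (n-1) 0 C f = f` on `[0,1]`. -/
def FinStmt : Prop :=
  ∀ (n : ℕ) (C : ℝ) (f : ℝ → ℝ), 4 ≤ n → FixU n C f → 0 < C →
    ∃ A : ℝ, 0 ≤ A ∧ Low n (1 + A) f

/-- HZR (medium; uses DHZ).  **The support function determines `RA`.**  PROOF.  A unit vector `m ⊥ e`,
`t = sqrt (1 - c^2)`, `u = t e + c m`.  `s ↦ hz (zon e φ) (u + s m)` has at `s = 0` the derivative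
`∫ sign ⟪u, x⟫ ⟪m, x⟫ zon e φ x dsph` (`hasDerivAt_integral_of_dominated_loc_of_lip`: Lipschitz constant
`|⟪m, x⟫| |zon e φ x|`, bounded for `‖x‖ = 1` (a.e., `SPH.norm`); differentiable if `⟪u, x⟫ ≠ 0`, a.e. by
`SPH.null`; all facts `Pool.Agent.BPH.sph_facts : SPH` are proved).  The derivatives agree by the hypothesis
(`HasDerivAt.unique`), DHZ: `κ c RA φ c = κ0 κ c RA ψ c`. -/
def HzrStmt : Prop :=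
  ∀ (E : Type) [NormedAddCommGroup E] [InnerProductSpace ℝ E] [FiniteDimensional ℝ E]
    [MeasurableSpace E] [BorelSpace E], 4 ≤ finrank ℝ E → ∀ e : E, ‖e‖ = 1 →
    ∀ (φ ψ : ℝ → ℝ) (κ0 : ℝ), BM φ → BM ψ →
    (∀ w : E, hz (zon e φ) w = κ0 * hz (zon e ψ) w) →
    ∀ c ∈ Ioc (0 : ℝ) 1, RA (finrank ℝ E) φ c = κ0 * RA (finrank ℝ E) ψ c

/-- UFD (easy; uses FIX, FIN, FCO).  **The one variable theorem for `i = n - 1`.**  PROOF.  `f1 = TT φ`,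
`f2 = TT f1` is an exact fixed density (FIX), so it is constant on `[0,1]` (FIN, FCO), and `f1 = k f2` on
`[0,1)`. -/
def UfdStmt : Prop :=
  ∀ (n : ℕ) (D κ : ℝ) (φ : ℝ → ℝ), 4 ≤ n → 0 < D → 0 < κ → Measurable φ → (∀ t, 0 ≤ φ t) →
    (∃ M, ∀ t, φ t ≤ M) → 0 < RA n φ 1 →
    (∀ c ∈ Ioc (0 : ℝ) 1, RA n φ c = κ * RA n (TT n (n - 1) 0 D φ) c) →
    ∃ k : ℝ, 0 < k ∧ ∀ t ∈ Ico (0 : ℝ) 1, TT n (n - 1) 0 D φ t = k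

end Pool.Agent.REV
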