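import Pool.Agent.REV.StmtsU2
import Pool.Agent.REV.StmtsA13
import Pool.Agent.REV.StmtsV3

set_option autoImplicit false

/-!
# Squad REV, part U3: `n ≥ 3` (new: `n = 3`, `i = 2`), an exact fixed density is constant

Every row is a copy of a PROVED row of part U (table rev, ord 501-526, column path: copy the file, replace `4 ≤ n` by
`3 ≤ n`) with the small changes named in the docstring.  Only the weight `(1-r^2)^((n-4)/2)` changes: for `n = 3` it is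
integrable, not bounded.  PROVED and free to import: `Pool.Agent.Helper65_REV.A13All` (`H65.int3All : Int3Stmt`: all
weights, and weights times `f (r c)`, are integrable; `mra3All`, `sta3All`, `stb3All`), `Pool.Agent.Helper65_REV.GEN`
(`H65.cvag : CvagStmt`, `H65.cvbg : CvbgStmt` for ALL `n`), `Pool.Agent.Helper65_REV.TAU` (`H65.tau`),
`Pool.Agent.Helper63_REV.CLP`.
-/

open MeasureTheory Module Set Filter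
open scoped RealInnerProductSpace Topology

namespace Pool.Agent.REV

open Pool.Agent.BPH Pool.Agent.Helper55_PB

/-- KI3 (easy-medium; uses nothing).  Copy of KKI.  `kk n` is continuous on `[0,1)` and integrable (`H65.int3All`:
`kk n` is a combination of the first two weights); third: as KKI with `k r = r (1-r^2)^((n-2)/2)` continuous on `[0,1]`
(`(n-2)/2 > 0`) and `integral_eq_sub_of_hasDerivAt_of_le` (needs only the interval integrability of the derivative). -/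
def Ki3Stmt : Prop :=
  ∀ n : ℕ, 3 ≤ n → ContinuousOn (kk n) (Ico 0 1) ∧ IntervalIntegrable (kk n) volume 0 1 ∧
    (∀ r ∈ Ico (0 : ℝ) 1,
      kk n r = (1 - r ^ 2) ^ (((n : ℝ) - 4) / 2) * (1 - ((n : ℝ) - 1) * r ^ 2)) ∧
    ∀ x ∈ Icc (0 : ℝ) 1, ∫ r in (0 : ℝ)..x, kk n r = x * (1 - x ^ 2) ^ (((n : ℝ) - 2) / 2)

/-- KN3 (easy-medium; uses KI3).  Copy of KSN (pointwise statements on `[0,1)`, a.e. is enough: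
`intervalIntegral.integral_mono_ae` or integrals over `Ioo 0 1`); `γ` is bounded and measurable on `[0,1]`
(antitone), so `kk n * γ` is integrable (`Integrable.bdd_mul` on `Ioc 0 1`). -/
def Kn3Stmt : Prop :=
  ∀ (n : ℕ) (γ : ℝ → ℝ), 3 ≤ n → AntitoneOn γ (Icc 0 1) →
    ∀ r1 r2 : ℝ, 0 ≤ r1 → r1 ≤ r2 → ((n : ℝ) - 1) * r2 ^ 2 ≤ 1 →
      r1 * (1 - r1 ^ 2) ^ (((n : ℝ) - 2) / 2) * (γ r1 - γ r2) ≤
        ∫ r in (0 : ℝ)..1, kk n r * γ r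

/-- KT3 (easy-medium; uses KI3).  Copy of KST.  The integrand `F r = kk n r (γ r - γ r0) ≥ 0` is continuous on `[0,1)` and
integrable; if `F r > 0` for some `r < 1`, take `r < b < 1`: `∫_0^1 F ≥ ∫_0^b F > 0` (`intervalIntegral.integral_pos` on
`[0,b]`). -/
def Kt3Stmt : Prop :=
  ∀ (n : ℕ) (γ : ℝ → ℝ), 3 ≤ n → AntitoneOn γ (Icc 0 1) → ContinuousOn γ (Icc 0 1) →
    (∃ x ∈ Icc (0 : ℝ) 1, ∃ y ∈ Icc (0 : ℝ) 1, γ x ≠ γ y) →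
      0 < ∫ r in (0 : ℝ)..1, kk n r * γ r

/-- JE3 (easy; uses nothing).  Copy of JEL (integrable weight times a continuous function). -/
def Je3Stmt : Prop :=
  ∀ (n : ℕ) (g c : ℝ) (f : ℝ → ℝ), 3 ≤ n → 0 < g → 0 ≤ c → c ≤ 1 → ContinuousOn f (Icc 0 1) →
    ContinuousOn (fun ρ => El n g f (ta g c ρ)) (Icc 0 1) ∧
    ∫ ρ in (0 : ℝ)..1, kk n ρ * El n g f (ta g c ρ) =
      RA' n g f c - ((n : ℝ) - 2) * RB' n g f c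

/-- YR3 (easy; uses YD3, RC3, YDR, RBC).  Cases `n = 3` and `n ≥ 4`. -/
def Yr3Stmt : Prop :=
  ∀ (n : ℕ) (f : ℝ → ℝ) (c : ℝ), 3 ≤ n → Measurable f → (∃ C, ∀ t, |f t| ≤ C) → 0 < c →
    HasDerivAt (fun u => u * RA n f u) (((n : ℝ) - 2) * RB n f c) c ∧ ContinuousAt (RB n f) c

/-- RT3 (easy-medium; uses nothing).  Copy of RCT (the dominating function is `C` times the weight). -/
def Rt3Stmt : Prop :=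
  ∀ (n : ℕ) (f : ℝ → ℝ), 3 ≤ n →
    (Measurable f → (∃ C, ∀ t, |f t| ≤ C) → ContinuousOn f (Ico 0 1) →
      ContinuousOn (RA n f) (Icc 0 1) ∧ ContinuousOn (RB n f) (Icc 0 1)) ∧
    (ContinuousOn f (Icc 0 1) →
      ContinuousOn (RA n f) (Icc 0 1) ∧ ContinuousOn (RB n f) (Icc 0 1))

/-- RP3 (easy-medium; uses KI3).  Copy of RPO.  `RB ≤ M`: `(n-2) ∫_0^1 r^2 (1-r^2)^((n-4)/2) = ∫_0^1 (1-r^2)^((n-2)/2) ≤ 1` by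
KI3 with `x = 1` (`0 ^ ((n-2)/2) = 0`).  Positivity: the integrand is positive on `(0,1)` and integrable
(`intervalIntegral.intervalIntegral_pos_of_pos_on`). -/
def Rp3Stmt : Prop :=
  ∀ (n : ℕ) (f : ℝ → ℝ) (M : ℝ), 3 ≤ n → ContinuousOn f (Icc 0 1) →
    (∀ t ∈ Icc (0 : ℝ) 1, 0 < f t ∧ f t ≤ M) →
    ∀ c ∈ Icc (0 : ℝ) 1, 0 < RA n f c ∧ 0 < RB n f c ∧ RA n f c ≤ M ∧ RB n f c ≤ M

/-- YM3 (easy-medium; uses YR3, RP3).  Copy of YMO. -/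
def Ym3Stmt : Prop :=
  ∀ (n : ℕ) (f : ℝ → ℝ) (g c1 c2 : ℝ), 3 ≤ n → ContinuousOn f (Icc 0 1) →
    (∀ t ∈ Icc (0 : ℝ) 1, 0 < f t) → 0 < c1 → c2 ≤ 1 →
    ((∀ c ∈ Icc c1 c2, RA n f c ≤ (1 + (g - 1) * c ^ 2) * (((n : ℝ) - 2) * RB n f c)) →
      MonotoneOn (fun c => (1 + (g - 1) * c ^ 2) * RA n f c ^ 2) (Icc c1 c2)) ∧
    ((∀ c ∈ Icc c1 c2, (1 + (g - 1) * c ^ 2) * (((n : ℝ) - 2) * RB n f c) ≤ RA n f c) →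
      AntitoneOn (fun c => (1 + (g - 1) * c ^ 2) * RA n f c ^ 2) (Icc c1 c2))

/-- WL3 (easy; uses nothing).  Copy of WLM. -/
def Wl3Stmt : Prop :=
  ∀ (n : ℕ) (b b1 : ℝ), 3 ≤ n → 0 < b → b < b1 → b1 < 1 → ∃ a' : ℝ, 1 ≤ a' ∧ a' < 1 / b ∧
    MonotoneOn (fun x : ℝ => (1 + (a' - 1) * x) ^ (((n : ℝ) + 1) / 2) *
      ((b + (1 - b) * x) ^ (-(3 / 2) : ℝ) * (b1 + (1 - b1) * x) ^ (-(((n : ℝ) - 2) / 2))))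
      (Icc 0 1)

/-- EL3 (easy; uses nothing, CVAG and CVBG are proved).  Copy of ELC. -/
def El3Stmt : Prop :=
  ∀ (n : ℕ) (C g : ℝ) (f : ℝ → ℝ), 3 ≤ n → FixU n C f → 0 < g →
    (∀ t ∈ Icc (0 : ℝ) 1, El n g f t = El n g f 0) → g = 1

/-- SA3 (easy-medium; uses KT3, JE3, EL3; CVAG, CVBG are proved).  Copy of SAL. -/
def Sa3Stmt : Prop :=
  ∀ (n : ℕ) (C A : ℝ) (f : ℝ → ℝ), 3 ≤ n → FixU n C f → 0 < A → Low n (1 + A) f →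
    RA n f 1 < (1 + A) * (((n : ℝ) - 2) * RB n f 1)

/-- SD3 (medium; uses SA3, YM3, RT3, RP3, Mra3Stmt; CVBG is proved).  Copy of SBD (Helper63_REV/SBD.lean).  The only change:
`k = (n-2)/2 ≥ 1/2`, so `R^k ≤ R^(1/2) ≤ (1 + R)/2 = 1 - (1 - R)/2` for `0 < R ≤ 1`, and `ε` gets the factor `1/2`.
`MRA3` is on `Sg a`, all of `[0,1]` for `a ≥ 1`. -/
def Sd3Stmt : Prop :=
  ∀ (n : ℕ) (C A : ℝ) (f : ℝ → ℝ), 3 ≤ n → FixU n C f → 0 < C → 0 < A → Low n (1 + A) f →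
    ∃ δ ε : ℝ, 0 < δ ∧ δ ≤ 1 ∧ 0 < ε ∧ ∀ τ1 τ2 : ℝ, 0 ≤ τ1 → τ1 ≤ τ2 → τ2 ≤ δ →
      ε * (τ2 ^ 2 - τ1 ^ 2) ≤ El n (1 / (1 + A)) f τ1 - El n (1 / (1 + A)) f τ2

/-- SM3 (medium; uses KN3, JE3, RP3; CVAG, CVBG are proved).  Copy of SMB. -/
def Sm3Stmt : Prop :=
  ∀ (n : ℕ) (b δ ε : ℝ) (f : ℝ → ℝ), 3 ≤ n → ContinuousOn f (Icc 0 1) →
    (∀ t ∈ Icc (0 : ℝ) 1, 0 < f t) → 0 < b → b < 1 → Upp n b f → 0 < δ → δ ≤ 1 → 0 < ε →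
    (∀ τ1 τ2 : ℝ, 0 ≤ τ1 → τ1 ≤ τ2 → τ2 ≤ δ →
      ε * (τ2 ^ 2 - τ1 ^ 2) ≤ El n b f τ1 - El n b f τ2) →
    ∃ b1 : ℝ, b < b1 ∧ b1 < 1 ∧ ∀ c ∈ Icc (0 : ℝ) 1,
      (1 + (b1 - 1) * c ^ 2) * (((n : ℝ) - 2) * RB n f c) ≤ RA n f c

/-- IM3 (medium; uses YM3, RT3, RP3, WL3, Mra3Stmt; CVBG is proved).  Copy of IMP (`Sg b` is all of `[0,1]` for
`0 < b ≤ 1`). -/
def Im3Stmt : Prop :=
  ∀ (n : ℕ) (C b b1 : ℝ) (f : ℝ → ℝ), 3 ≤ n → FixU n C f → 0 < C → 0 < b → b < b1 → b1 < 1 →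
    Upp n b f →
    (∀ c ∈ Icc (0 : ℝ) 1, (1 + (b1 - 1) * c ^ 2) * (((n : ℝ) - 2) * RB n f c) ≤ RA n f c) →
    ∃ A' : ℝ, 0 ≤ A' ∧ 1 + A' < 1 / b ∧ Low n (1 + A') f

/-- FC3 (easy; uses Sta3Stmt, SD3, SM3, IM3).  Copy of FCO. -/
def Fc3Stmt : Prop :=
  ∀ (n : ℕ) (C A : ℝ) (f : ℝ → ℝ), 3 ≤ n → FixU n C f → 0 < C → 0 ≤ A → Low n (1 + A) f →
    ∀ t ∈ Icc (0 : ℝ) 1, f t = f 0

/-- FX3 (medium; uses YR3, RT3).  Copy of FIX (boundedness of `TT φ`: `RB ≤ M * ∫ weight`). -/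
def Fx3Stmt : Prop :=
  ∀ (n : ℕ) (D κ : ℝ) (φ : ℝ → ℝ), 3 ≤ n → 0 < D → 0 < κ → Measurable φ → (∀ t, 0 ≤ φ t) →
    (∃ M, ∀ t, φ t ≤ M) → 0 < RA n φ 1 →
    (∀ c ∈ Ioc (0 : ℝ) 1, RA n φ c = κ * RA n (TT n (n - 1) 0 D φ) c) →
    (∃ C : ℝ, 0 < C ∧ FixU n C (TT n (n - 1) 0 D (TT n (n - 1) 0 D φ))) ∧
    ∃ k : ℝ, 0 < k ∧ ∀ t ∈ Ico (0 : ℝ) 1,
      TT n (n - 1) 0 D φ t = k * TT n (n - 1) 0 D (TT n (n - 1) 0 D φ) t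

/-- NE3 (easy-medium; uses RT3, RP3).  Copy of NER. -/
def Ne3Stmt : Prop :=
  ∀ (n : ℕ) (C K : ℝ) (f : ℝ → ℝ), 3 ≤ n → FixU n C f → 0 < C → 0 ≤ K →
    (∀ p q : ℝ, 0 ≤ p → p ≤ q → q ≤ 1 / 2 → f p ≤ f q + K * (q ^ 2 - p ^ 2)) →
    ∃ c0 b0 : ℝ, 0 < c0 ∧ c0 ≤ 1 / 2 ∧ 0 < b0 ∧ b0 ≤ 1 ∧ ∀ b : ℝ, 0 < b → b ≤ b0 →
      AntitoneOn (El n b f) (Icc (Real.sqrt (1 - c0 ^ 2)) 1)

/-- FR3 (easy-medium; uses YR3, RT3, RP3).  Copy of FAR; the monotonicity of `c^3 RB` is now a hypothesis (CRA is not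
used). -/
def Fr3Stmt : Prop :=
  ∀ (n : ℕ) (C c0 : ℝ) (f : ℝ → ℝ), 3 ≤ n → FixU n C f → 0 < C → 0 < c0 → c0 < 1 →
    MonotoneOn (fun c : ℝ => c ^ 3 * RB n f c) (Icc 0 1) →
    ∃ b1 : ℝ, 0 < b1 ∧ b1 ≤ 1 ∧ ∀ b : ℝ, 0 < b → b ≤ b1 →
      AntitoneOn (El n b f) (Icc 0 (Real.sqrt (1 - c0 ^ 2)))

/-- FN3 (easy; uses NE3, FR3, Stb3Stmt).  Copy of FIN. -/
def Fn3Stmt : Prop :=
  ∀ (n : ℕ) (C K : ℝ) (f : ℝ → ℝ), 3 ≤ n → FixU n C f → 0 < C → 0 ≤ K →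
    (∀ p q : ℝ, 0 ≤ p → p ≤ q → q ≤ 1 / 2 → f p ≤ f q + K * (q ^ 2 - p ^ 2)) →
    MonotoneOn (fun c : ℝ => c ^ 3 * RB n f c) (Icc 0 1) →
    ∃ A : ℝ, 0 ≤ A ∧ Low n (1 + A) f

/-- LIP3 (helper59, StmtsP3): an exact fixed density for `n = 3` is Lipschitz in `t^2`. -/
def Lip3Stmt : Prop :=
  ∀ (C : ℝ) (f : ℝ → ℝ), FixU 3 C f → 0 < C →
    ∃ K : ℝ, 0 ≤ K ∧ ∀ p q : ℝ, 0 ≤ p → p ≤ q → q ≤ 1 → |f p - f q| ≤ K * (q ^ 2 - p ^ 2)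

/-- MON3 (helper59, StmtsP3): the monotonicity which starts the comparison. -/
def Mon3Stmt : Prop :=
  ∀ (C : ℝ) (f : ℝ → ℝ), FixU 3 C f → 0 < C → MonotoneOn (fun c : ℝ => c ^ 3 * RB 3 f c) (Icc 0 1)

/-- UF3 (easy; uses Lip3Stmt, Mon3Stmt, FX3, FN3, FC3).  Copy of UFD for `n = 3`. -/
def Uf3Stmt : Prop :=
  ∀ (D κ : ℝ) (φ : ℝ → ℝ), 0 < D → 0 < κ → Measurable φ → (∀ t, 0 ≤ φ t) →
    (∃ M, ∀ t, φ t ≤ M) → 0 < RA 3 φ 1 →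
    (∀ c ∈ Ioc (0 : ℝ) 1, RA 3 φ c = κ * RA 3 (TT 3 2 0 D φ) c) →
    ∃ k : ℝ, 0 < k ∧ ∀ t ∈ Ico (0 : ℝ) 1, TT 3 2 0 D φ t = k

end Pool.Agent.REV
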