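import Pool.Agent.REV.StmtsW
import Pool.Agent.REV.StmtsC

set_option autoImplicit false

/-!
# Squad REV, part X: `i = n - 1`, bodies of revolution without a density hypothesis (geometry)
-/

open MeasureTheory Module Set Filter
open scoped RealInnerProductSpace Pointwise Topology ENNReal

namespace Pool.Agent.REV

open Pool.Agent.Helper55_PB Pool.Agent.Helper28_PB Pool.Agent.BPH

/-- DET (easy-medium; uses nothing). Functions with an axis of rotation.  PROOF.  Let `w = a e + w'`,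
`a = ⟪e, w⟫`, `w' ⟂ e`.  If `a ≠ 0`: `w = a • (e + b • m')` with `b = ‖w'‖ / |a|` and a unit vector `m' ⟂ e`
(`a⁻¹ • w' = b • m'`; `m' = m` if `w' = 0`), and there is `T` with `T e = e`, `T m = m'` (the reflection
`Submodule.reflection (ℝ ∙ (m - m'))ᗮ`, `reflection_sub`; it fixes `e ⟂ m - m'`).  So
`g w = |a| g (e + b m') = |a| g (T (e + b m)) = |a| g (e + b m)`.  If `a = 0`: continuity (`w + ε e`, `ε → 0`). -/
def DetStmt : Prop :=
  ∀ (E : Type) [NormedAddCommGroup E] [InnerProductSpace ℝ E] [FiniteDimensional ℝ E] (e m : E),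
    ‖e‖ = 1 → ‖m‖ = 1 → ⟪e, m⟫ = 0 → ∀ g₁ g₂ : E → ℝ, Continuous g₁ → Continuous g₂ →
    (∀ (t : ℝ) (w : E), g₁ (t • w) = |t| * g₁ w) → (∀ (t : ℝ) (w : E), g₂ (t • w) = |t| * g₂ w) →
    (∀ T : E ≃ₗᵢ[ℝ] E, T e = e → ∀ w : E, g₁ (T w) = g₁ w) →
    (∀ T : E ≃ₗᵢ[ℝ] E, T e = e → ∀ w : E, g₂ (T w) = g₂ w) →
    (∀ b : ℝ, 0 ≤ b → g₁ (e + b • m) = g₂ (e + b • m)) → ∀ w : E, g₁ w = g₂ w

/-- GEO0. GEOStmt for `m = 0`, `i + 1 = finrank ℝ E`. -/
def Geo0Stmt : Prop :=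
  ∀ {E : Type} [NormedAddCommGroup E] [InnerProductSpace ℝ E] [FiniteDimensional ℝ E]
    [MeasurableSpace E] [BorelSpace E] (i : ℕ), 1 ≤ i → i + 1 = finrank ℝ E →
    ∀ (K : Set E) (c : ℝ), Centred 0 K c → ∀ f f' : E → ℝ, Dens f → Dens f' → IsStep i f f' →
    ∀ δ t : ℝ, 0 ≤ δ → 0 < t →
    (∀ w : E, Real.exp (-δ) * (t * hz f w) ≤ supportFn K w ∧
      supportFn K w ≤ Real.exp δ * (t * hz f w)) →
    ∃ t' : ℝ, 0 < t' ∧ ∀ w : E, Real.exp (-(i * δ)) * (t' * hz f' w) ≤ supportFn K w ∧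
      supportFn K w ≤ Real.exp (i * δ) * (t' * hz f' w)

/-- C0G (easy). PROOF. `segVol K w` is the volume of the projection for a unit vector `w`, and
`sc M 0` is the volume of `M` (`sc_spec` at `r = 0`). -/
def C0gStmt : Prop :=
  ∀ {E : Type} [NormedAddCommGroup E] [InnerProductSpace ℝ E] [FiniteDimensional ℝ E]
    [MeasurableSpace E] [BorelSpace E], 2 ≤ finrank ℝ E → ∀ (K : Set E) (c : ℝ), Good K c →
    Centred 0 K c

/-- APX. Every body of revolution, `i = n - 1`: the support function on the ray is affine, or it is the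
one of a zonoid with a bounded zonal density. -/
def ApxStmt : Prop :=
  ∀ (E : Type) [NormedAddCommGroup E] [InnerProductSpace ℝ E] [FiniteDimensional ℝ E]
    [MeasurableSpace E] [BorelSpace E], 4 ≤ finrank ℝ E → ∀ (K : Set E) (c : ℝ), Centred 0 K c →
    ∀ e m : E, ‖e‖ = 1 → ‖m‖ = 1 → ⟪e, m⟫ = 0 → RevB e K →
    (∀ b : ℝ, 0 ≤ b → supportFn K (e + b • m) = supportFn K e + supportFn K m * b) ∨
    ∃ f : ℝ → ℝ, Prf f ∧ ∀ b : ℝ, 0 ≤ b → supportFn K (e + b • m) = hz (zon e f) (e + b • m)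

end Pool.Agent.REV
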