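import Pool.Agent.REV.StmtsX
import Pool.Agent.REV.StmtsG4
import Pool.Agent.REV.StmtsU3

set_option autoImplicit false

/-!
# Squad REV, part X3: dimension `3`, `i = 2` (geometry)
-/

open MeasureTheory Module Set Filter
open scoped RealInnerProductSpace Pointwise Topology ENNReal

namespace Pool.Agent.REV

open Pool.Agent.Helper55_PB Pool.Agent.Helper28_PB Pool.Agent.BPH

/-- HZR3 (easy; uses DHZ3).  Copy of HZR for `n ≥ 3`. -/
def Hzr3Stmt : Prop :=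
  ∀ (E : Type) [NormedAddCommGroup E] [InnerProductSpace ℝ E] [FiniteDimensional ℝ E]
    [MeasurableSpace E] [BorelSpace E], 3 ≤ finrank ℝ E → ∀ e : E, ‖e‖ = 1 →
    ∀ (φ ψ : ℝ → ℝ) (κ0 : ℝ), BM φ → BM ψ →
    (∀ w : E, hz (zon e φ) w = κ0 * hz (zon e ψ) w) →
    ∀ c ∈ Ioc (0 : ℝ) 1, RA (finrank ℝ E) φ c = κ0 * RA (finrank ℝ E) ψ c

/-- APX3 (easy-medium; uses ZAK G1 ZST3 CPO3 GEO0 HZB3 VAL3).  Copy of APX in dimension `3`. -/
def Apx3Stmt : Prop :=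
  ∀ (E : Type) [NormedAddCommGroup E] [InnerProductSpace ℝ E] [FiniteDimensional ℝ E]
    [MeasurableSpace E] [BorelSpace E], finrank ℝ E = 3 → ∀ (K : Set E) (c : ℝ), Centred 0 K c →
    ∀ e m : E, ‖e‖ = 1 → ‖m‖ = 1 → ⟪e, m⟫ = 0 → RevB e K →
    (∀ b : ℝ, 0 ≤ b → supportFn K (e + b • m) = supportFn K e + supportFn K m * b) ∨
    ∃ f : ℝ → ℝ, Prf f ∧ ∀ b : ℝ, 0 ≤ b → supportFn K (e + b • m) = hz (zon e f) (e + b • m)

end Pool.Agent.REV
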